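import Pool.Agent.Lib_MP_0fb79d_an.Rellich

/-!
Analysis on a ball: integration by parts, Hardy inequality, the function `(R² - |x-a|²)₊²`.
-/

open MeasureTheory Filter Topology Set
open scoped ENNReal ContDiff RealInnerProductSpace

set_option linter.unusedSectionVars false

noncomputable section

namespace Pool.Agent.MP_0fb79d_an

variable {E : Type*} [NormedAddCommGroup E] [InnerProductSpace ℝ E] [FiniteDimensional ℝ E]
  [CompleteSpace E] [MeasurableSpace E] [BorelSpace E]

theorem ibp_vec {ι : Type*} [Fintype ι] (b : OrthonormalBasis ι ℝ E) {X : E → E}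
    (hX : ContDiff ℝ 1 X) {η : E → ℝ} (hη : ContDiff ℝ 1 η) (hc : HasCompactSupport η) :
    ∫ x, ⟪X x, gradient η x⟫ = - ∫ x, (∑ i, ⟪fderiv ℝ X x (b i), b i⟫) * η x := by
  have hXc := hX.continuous
  have hXd : Differentiable ℝ X := hX.differentiable (by norm_num)
  have hXf : Continuous (fderiv ℝ X) := hX.continuous_fderiv (by norm_num)
  have hηc := hη.continuous
  have hηd : Differentiable ℝ η := hη.differentiable (by norm_num)
  have hηf : Continuous (fderiv ℝ η) := hη.continuous_fderiv (by norm_num)
  have hcf : HasCompactSupport (fderiv ℝ η) := hc.fderiv (𝕜 := ℝ)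
  have hfd : ∀ i x, fderiv ℝ (fun y => ⟪X y, b i⟫) x (b i) = ⟪fderiv ℝ X x (b i), b i⟫ := by
    intro i x
    have h1 : HasFDerivAt (fun y => ⟪X y, b i⟫)
        ((innerSL ℝ (b i)).comp (fderiv ℝ X x)) x := by
      have := ((innerSL ℝ (b i)).hasFDerivAt (x := X x)).comp x (hXd x).hasFDerivAt
      refine this.congr_of_eventuallyEq (Eventually.of_forall (fun y => ?_))
      simp [real_inner_comm]
    rw [h1.fderiv]
    simp [real_inner_comm]
  have e1 : ∀ x, ⟪X x, gradient η x⟫ = ∑ i, ⟪X x, b i⟫ * fderiv ℝ η x (b i) := by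
    intro x
    rw [← OrthonormalBasis.sum_inner_mul_inner b (X x) (gradient η x)]
    apply Finset.sum_congr rfl
    intro i _
    congr 1
    rw [real_inner_comm, inner_gradient_left]
  have hi1 : ∀ i, Integrable (fun x => ⟪X x, b i⟫ * fderiv ℝ η x (b i)) (volume : Measure E) := by
    intro i
    have hcont : Continuous (fun x => ⟪X x, b i⟫ * fderiv ℝ η x (b i)) := by fun_prop
    have h2 : HasCompactSupport (fun x => fderiv ℝ η x (b i)) :=
      hcf.comp_left (g := fun L : E →L[ℝ] ℝ => L (b i)) (by simp)
    exact hcont.integrable_of_hasCompactSupport h2.mul_left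
  have hi2 : ∀ i, Integrable (fun x => fderiv ℝ (fun y => ⟪X y, b i⟫) x (b i) * η x)
      (volume : Measure E) := by
    intro i
    simp only [hfd]
    have hcont : Continuous (fun x => ⟪fderiv ℝ X x (b i), b i⟫ * η x) := by fun_prop
    exact hcont.integrable_of_hasCompactSupport hc.mul_left
  have hi3 : ∀ i, Integrable (fun x => ⟪X x, b i⟫ * η x) (volume : Measure E) := by
    intro i
    have hcont : Continuous (fun x => ⟪X x, b i⟫ * η x) := by fun_prop
    exact hcont.integrable_of_hasCompactSupport hc.mul_left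
  simp_rw [e1, Finset.sum_mul]
  rw [integral_finsetSum _ (fun i _ => hi1 i), integral_finsetSum, ← Finset.sum_neg_distrib]
  · apply Finset.sum_congr rfl
    intro i _
    rw [integral_mul_fderiv_eq_neg_fderiv_mul_of_integrable (hi2 i) (hi1 i) (hi3 i)]
    · simp only [hfd]
    · intro x _
      exact (hXd x).inner ℝ (differentiableAt_const _)
    · intro x _
      exact hηd x
  · intro i _
    have := hi2 i
    simpa only [hfd] using this

/-- `ρ(x) = R² - |x - a|²`. -/
def rho (a : E) (R : ℝ) (x : E) : ℝ := R ^ 2 - ‖x - a‖ ^ 2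

omit [FiniteDimensional ℝ E] [CompleteSpace E] [MeasurableSpace E] [BorelSpace E] in
lemma contDiff_rho (a : E) (R : ℝ) : ContDiff ℝ ∞ (rho a R) := by
  unfold rho
  exact contDiff_const.sub ((contDiff_id.sub contDiff_const).norm_sq ℝ)

omit [FiniteDimensional ℝ E] [CompleteSpace E] [MeasurableSpace E] [BorelSpace E] in
lemma continuous_rho (a : E) (R : ℝ) : Continuous (rho a R) := (contDiff_rho a R).continuous

omit [FiniteDimensional ℝ E] [CompleteSpace E] [MeasurableSpace E] [BorelSpace E] in
lemma rho_pos {a : E} {R : ℝ} {x : E} (hx : x ∈ Metric.ball a R) : 0 < rho a R x := by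
  unfold rho
  rw [Metric.mem_ball, dist_eq_norm] at hx
  nlinarith [norm_nonneg (x - a)]

omit [FiniteDimensional ℝ E] [CompleteSpace E] [MeasurableSpace E] [BorelSpace E] in
lemma hasFDerivAt_rho (a : E) (R : ℝ) (x : E) :
    HasFDerivAt (rho a R) (-(2 • innerSL ℝ (x - a))) x := by
  unfold rho
  have h1 : HasFDerivAt (fun y : E => y - a) (ContinuousLinearMap.id ℝ E) x :=
    (hasFDerivAt_id x).sub_const a
  have h2 := h1.norm_sq.const_sub (R ^ 2)
  convert! h2 using 1

lemma gradient_rho (a : E) (R : ℝ) (x : E) : gradient (rho a R) x = -(2:ℝ) • (x - a) := by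
  unfold gradient
  rw [(hasFDerivAt_rho a R x).fderiv]
  apply (InnerProductSpace.toDual ℝ E).injective
  ext v
  simp

/-- dimension of the space, as a real number -/
def dim (E : Type*) [NormedAddCommGroup E] [InnerProductSpace ℝ E] : ℝ :=
  (Module.finrank ℝ E : ℝ)

theorem ibp_linear (a : E) {η : E → ℝ} (hη : ContDiff ℝ 1 η) (hc : HasCompactSupport η) :
    ∫ x, ⟪x - a, gradient η x⟫ = - (dim E * ∫ x, η x) := by
  have hX : ContDiff ℝ 1 (fun x : E => x - a) := contDiff_id.sub contDiff_const
  have h1 := ibp_vec (stdOrthonormalBasis ℝ E) hX hη hc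
  rw [h1, ← integral_const_mul]
  congr 1
  apply integral_congr_ae
  refine Eventually.of_forall (fun x => ?_)
  simp only
  congr 1
  have h2 : fderiv ℝ (fun x : E => x - a) x = ContinuousLinearMap.id ℝ E :=
    ((hasFDerivAt_id x).sub_const a).fderiv
  rw [h2]
  simp [dim]

theorem ibp_rho (a : E) (R : ℝ) {η : E → ℝ} (hη : ContDiff ℝ 1 η) (hc : HasCompactSupport η) :
    ∫ x, ⟪rho a R x • (x - a), gradient η x⟫ =
      ∫ x, (2 * ‖x - a‖ ^ 2 - dim E * rho a R x) * η x := by
  have hX : ContDiff ℝ 1 (fun x : E => rho a R x • (x - a)) :=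
    ((contDiff_rho a R).of_le (by exact_mod_cast le_top)).smul (contDiff_id.sub contDiff_const)
  have h1 := ibp_vec (stdOrthonormalBasis ℝ E) hX hη hc
  rw [h1, ← integral_neg]
  apply integral_congr_ae
  refine Eventually.of_forall (fun x => ?_)
  simp only
  rw [← neg_mul]
  congr 1
  have h2 : HasFDerivAt (fun x : E => rho a R x • (x - a))
      (rho a R x • (ContinuousLinearMap.id ℝ E) +
        (-(2 • innerSL ℝ (x - a))).smulRight (x - a)) x :=
    (hasFDerivAt_rho a R x).smul ((hasFDerivAt_id x).sub_const a)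
  rw [h2.fderiv]
  set b := stdOrthonormalBasis ℝ E
  have h3 : ∀ i, ⟪(rho a R x • (ContinuousLinearMap.id ℝ E) +
        (-(2 • innerSL ℝ (x - a))).smulRight (x - a)) (b i), b i⟫ =
        rho a R x - 2 * (⟪x - a, b i⟫ * ⟪b i, x - a⟫) := by
    intro i
    simp only [add_apply, smul_apply,
      ContinuousLinearMap.id_apply, ContinuousLinearMap.smulRight_apply,
      neg_apply, innerSL_apply_apply, inner_add_left, inner_smul_left,
      OrthonormalBasis.inner_eq_one]
    simp only [conj_trivial, mul_one, nsmul_eq_mul, Nat.cast_ofNat]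
    rw [real_inner_comm (x - a) (b i)]
    ring
  simp_rw [h3]
  rw [Finset.sum_sub_distrib, ← Finset.mul_sum, OrthonormalBasis.sum_inner_mul_inner,
    real_inner_self_eq_norm_sq]
  simp [dim]

omit [FiniteDimensional ℝ E] [CompleteSpace E] [MeasurableSpace E] [BorelSpace E] in
lemma contDiff_of_tsupport' {f : E → ℝ} (h : ∀ x ∈ tsupport f, ContDiffAt ℝ ∞ f x) :
    ContDiff ℝ ∞ f := by
  rw [contDiff_iff_contDiffAt]
  intro x
  by_cases hx : x ∈ tsupport f
  · exact h x hx
  · have h1 : f =ᶠ[𝓝 x] 0 := notMem_tsupport_iff_eventuallyEq.mp hx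
    exact (contDiffAt_const (c := (0:ℝ))).congr_of_eventuallyEq h1

omit [FiniteDimensional ℝ E] [CompleteSpace E] [MeasurableSpace E] [BorelSpace E] in
lemma IsTest.mul_contDiffOn {Ω : Set E} (hΩ : IsOpen Ω) {φ : E → ℝ} (hφ : IsTest Ω φ)
    {g : E → ℝ} (hg : ContDiffOn ℝ ∞ g Ω) : IsTest Ω (fun x => φ x * g x) := by
  have hs : tsupport (fun x => φ x * g x) ⊆ tsupport φ := tsupport_mul_subset_left
  refine ⟨?_, ?_, hs.trans hφ.supp⟩
  · apply contDiff_of_tsupport'
    intro x hx
    have hx' : x ∈ Ω := hφ.supp (hs hx)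
    exact hφ.smooth.contDiffAt.mul (hg.contDiffAt (hΩ.mem_nhds hx'))
  · exact hφ.compact.isCompact.of_isClosed_subset (isClosed_tsupport _) hs

lemma IsTest.integrable {Ω : Set E} {φ : E → ℝ} (hφ : IsTest Ω φ) :
    Integrable φ (volume : Measure E) :=
  hφ.continuous.integrable_of_hasCompactSupport hφ.compact

theorem hardy_test [Nontrivial E] {a : E} {R : ℝ} {φ : E → ℝ}
    (hφ : IsTest (Metric.ball a R) φ) :
    R ^ 2 * ∫ x, φ x ^ 2 / rho a R x ^ 2 ≤ ∫ x, ‖gradient φ x‖ ^ 2 := by
  have hrs : ContDiffOn ℝ ∞ (fun x => (rho a R x)⁻¹) (Metric.ball a R) := by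
    apply (contDiff_rho a R).contDiffOn.inv
    intro x hx
    exact (rho_pos hx).ne'
  have hη : IsTest (Metric.ball a R) (fun x => φ x * (φ x * (rho a R x)⁻¹)) :=
    hφ.mul_contDiffOn Metric.isOpen_ball (hφ.smooth.contDiffOn.mul hrs)
  set η : E → ℝ := fun x => φ x * (φ x * (rho a R x)⁻¹) with hηdef
  have hζ : IsTest (Metric.ball a R) (fun x => φ x * (φ x * (rho a R x)⁻¹ * (rho a R x)⁻¹)) :=
    hφ.mul_contDiffOn Metric.isOpen_ball ((hφ.smooth.contDiffOn.mul hrs).mul hrs)
  have hζe : (fun x => φ x ^ 2 / rho a R x ^ 2) =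
      fun x => φ x * (φ x * (rho a R x)⁻¹ * (rho a R x)⁻¹) := by
    ext x
    by_cases h : rho a R x = 0
    · simp [h]
    · field_simp
  have hgη : ∀ x ∈ Metric.ball a R, gradient η x =
      (2 * φ x / rho a R x) • gradient φ x + (2 * φ x ^ 2 / rho a R x ^ 2) • (x - a) := by
    intro x hx
    have hr := (rho_pos hx).ne'
    have h1 : HasFDerivAt φ (fderiv ℝ φ x) x := (hφ.differentiable x).hasFDerivAt
    have h2 := hasFDerivAt_rho a R x
    have h3 : HasFDerivAt (fun y => (rho a R y)⁻¹)
        ((-(rho a R x ^ 2)⁻¹) • (-(2 • innerSL ℝ (x - a)) : E →L[ℝ] ℝ)) x :=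
      (hasDerivAt_inv hr).comp_hasFDerivAt x h2
    have h4 := h1.mul (h1.mul h3)
    have h5 : HasFDerivAt η _ x := h4
    unfold gradient
    rw [h5.fderiv]
    apply (InnerProductSpace.toDual ℝ E).injective
    ext v
    simp only [LinearIsometryEquiv.apply_symm_apply, map_add, map_smul,
      add_apply, smul_apply,
      InnerProductSpace.toDual_apply_apply, neg_apply,
      innerSL_apply_apply, smul_eq_mul, nsmul_eq_mul, inner_sub_left, Pi.mul_apply]
    push_cast
    field_simp
    ring
  have hi1 : Integrable (fun x => ‖gradient φ x‖ ^ 2) (volume : Measure E) :=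
    (hφ.memLp_gradient 2).integrable_norm_pow (by norm_num)
  have hi2 : Integrable (fun x => φ x ^ 2 / rho a R x ^ 2) (volume : Measure E) := by
    rw [hζe]; exact hζ.integrable
  have hi3 : Integrable η (volume : Measure E) := hη.integrable
  have hi4 : Integrable (fun x => ⟪x - a, gradient η x⟫) (volume : Measure E) := by
    have hcont : Continuous (fun x => ⟪x - a, gradient η x⟫) := by
      have := hη.continuous_gradient
      fun_prop
    have hcs : HasCompactSupport (fun x => ⟪x - a, gradient η x⟫) := by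
      apply hη.compact_gradient.mono
      intro x hx
      simp only [Function.mem_support, ne_eq] at hx ⊢
      intro h
      apply hx
      rw [h, inner_zero_right]
    exact hcont.integrable_of_hasCompactSupport hcs
  have hN : 1 ≤ dim E := by
    unfold dim
    have : 0 < Module.finrank ℝ E := Module.finrank_pos
    exact_mod_cast this
  have hpt : ∀ x, 0 ≤ ‖gradient φ x‖ ^ 2 - R ^ 2 * (φ x ^ 2 / rho a R x ^ 2) +
      (dim E * η x + ⟪x - a, gradient η x⟫) := by
    intro x
    by_cases hx : x ∈ Metric.ball a R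
    · have hr := rho_pos hx
      have hr' := hr.ne'
      rw [hgη x hx, inner_add_right, inner_smul_right, inner_smul_right,
        real_inner_self_eq_norm_sq]
      have h1 : R ^ 2 = rho a R x + ‖x - a‖ ^ 2 := by unfold rho; ring
      have h2 : 0 ≤ ‖gradient φ x + (φ x / rho a R x) • (x - a)‖ ^ 2 := by positivity
      rw [norm_add_sq_real, inner_smul_right, norm_smul, real_inner_comm] at h2
      have h3 : 0 ≤ (dim E - 1) * (φ x ^ 2 / rho a R x) := by
        apply mul_nonneg (by linarith)
        positivity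
      have h4 : ‖φ x / rho a R x‖ ^ 2 = φ x ^ 2 / rho a R x ^ 2 := by
        rw [Real.norm_eq_abs, sq_abs, div_pow]
      have h5 : ‖gradient φ x‖ ^ 2 - R ^ 2 * (φ x ^ 2 / rho a R x ^ 2) +
          (dim E * η x + (2 * φ x / rho a R x * ⟪x - a, gradient φ x⟫ +
            2 * φ x ^ 2 / rho a R x ^ 2 * ‖x - a‖ ^ 2)) =
          (‖gradient φ x‖ ^ 2 + 2 * (φ x / rho a R x * ⟪x - a, gradient φ x⟫) +
            (‖φ x / rho a R x‖ * ‖x - a‖) ^ 2) + (dim E - 1) * (φ x ^ 2 / rho a R x) := by
        rw [mul_pow, h4, h1, hηdef]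
        field_simp
        ring
      rw [h5]
      exact add_nonneg h2 h3
    · have z1 := hφ.eq_zero hx
      have z2 := hφ.gradient_eq_zero hx
      have z3 := hη.eq_zero hx
      have z4 := hη.gradient_eq_zero hx
      rw [z1, z2, z3, z4]
      simp
  have hint : 0 ≤ ∫ x, (‖gradient φ x‖ ^ 2 - R ^ 2 * (φ x ^ 2 / rho a R x ^ 2) +
      (dim E * η x + ⟪x - a, gradient η x⟫)) := integral_nonneg (fun x => hpt x)
  have hsplit : ∫ x, (‖gradient φ x‖ ^ 2 - R ^ 2 * (φ x ^ 2 / rho a R x ^ 2) +
      (dim E * η x + ⟪x - a, gradient η x⟫)) =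
      (∫ x, ‖gradient φ x‖ ^ 2) - R ^ 2 * (∫ x, φ x ^ 2 / rho a R x ^ 2) +
      (dim E * (∫ x, η x) + ∫ x, ⟪x - a, gradient η x⟫) := by
    have j1 : Integrable (fun x => ‖gradient φ x‖ ^ 2 - R ^ 2 * (φ x ^ 2 / rho a R x ^ 2))
      (volume : Measure E) := hi1.sub (hi2.const_mul _)
    have j2 : Integrable (fun x => dim E * η x + ⟪x - a, gradient η x⟫)
      (volume : Measure E) := (hi3.const_mul _).add hi4
    rw [integral_add j1 j2, integral_sub hi1 (hi2.const_mul _), integral_const_mul,
      integral_add (hi3.const_mul _) hi4, integral_const_mul]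
  have hsplit' : ∫ x, (‖gradient φ x‖ ^ 2 - R ^ 2 * (φ x ^ 2 / rho a R x ^ 2) +
      (dim E * η x + ⟪x - a, gradient η x⟫)) =
      (∫ x, ‖gradient φ x‖ ^ 2) - R ^ 2 * (∫ x, φ x ^ 2 / rho a R x ^ 2) := by
    rw [hsplit, ibp_linear a hη.contDiff_one hη.compact]
    ring
  have : 0 ≤ (∫ x, ‖gradient φ x‖ ^ 2) - R ^ 2 * (∫ x, φ x ^ 2 / rho a R x ^ 2) := by
    rw [← hsplit']; exact hint
  linarith

lemma tendsto_Lp_of_bound {α : Type*} [MeasurableSpace α] {μ : Measure α} {F : Type*}
    [NormedAddCommGroup F] {s : Set α} (hs : MeasurableSet s) (hμ : μ s ≠ ⊤)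
    {f : ℕ → Lp F 2 μ} {g : Lp F 2 μ} {c : ℕ → ℝ} (hc : Tendsto c atTop (𝓝 0))
    (hb : ∀ n, ∀ᵐ x ∂μ, ‖f n x - g x‖ ≤ s.indicator (fun _ => c n) x) :
    Tendsto f atTop (𝓝 g) := by
  rw [tendsto_iff_norm_sub_tendsto_zero]
  set I : Lp ℝ 2 μ := indicatorConstLp 2 hs hμ (1:ℝ) with hI
  have hbound : ∀ n, ‖f n - g‖ ≤ ‖c n‖ * ‖I‖ := by
    intro n
    rw [← norm_smul]
    apply Lp.norm_le_norm_of_ae_le
    filter_upwards [hb n, Lp.coeFn_sub (f n) g, Lp.coeFn_smul (c n) I,
      indicatorConstLp_coeFn (p := 2) (hs := hs) (hμs := hμ) (c := (1:ℝ))] with x h1 h2 h3 h4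
    rw [h2, h3, Pi.sub_apply, Pi.smul_apply, hI, h4]
    refine h1.trans ?_
    by_cases hx : x ∈ s
    · simp only [indicator_of_mem hx, smul_eq_mul, mul_one, Real.norm_eq_abs]
      exact le_abs_self _
    · simp [hx]
  have hlim : Tendsto (fun n => ‖c n‖ * ‖I‖) atTop (𝓝 0) := by
    have := (hc.norm).mul_const ‖I‖
    simpa using this
  exact squeeze_zero (fun n => norm_nonneg _) hbound hlim

/-- a bound for the derivative of the smooth transition function on `[-1, 1]` -/
lemma exists_bound_deriv_smoothTransition :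
    ∃ M : ℝ, 0 ≤ M ∧ ∀ t : ℝ, -1 ≤ t → ‖deriv Real.smoothTransition t‖ ≤ M := by
  have hc : Continuous (deriv Real.smoothTransition) :=
    (Real.smoothTransition.contDiff (n := 1)).continuous_deriv (by norm_num)
  obtain ⟨M, hM⟩ := (isCompact_Icc (a := (-1:ℝ)) (b := 1)).exists_bound_of_continuousOn
    hc.continuousOn
  have hM0 : 0 ≤ M := (norm_nonneg _).trans (hM 0 ⟨by norm_num, by norm_num⟩)
  refine ⟨M, hM0, fun t ht => ?_⟩
  by_cases h1 : t ≤ 1
  · exact hM t ⟨ht, h1⟩
  · push Not at h1
    have : Real.smoothTransition =ᶠ[𝓝 t] fun _ => 1 := by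
      filter_upwards [lt_mem_nhds h1] with s hs
      exact Real.smoothTransition.one_of_one_le hs.le
    rw [this.deriv_eq]
    simpa using hM0

/-- the approximations of `ρ₊²` by test functions -/
def psiApprox (a : E) (R : ℝ) (n : ℕ) (x : E) : ℝ :=
  rho a R x ^ 2 * Real.smoothTransition (((n : ℝ) + 1) * rho a R x - 1)

lemma isTest_psiApprox {a : E} {R : ℝ} (hR : 0 < R) (n : ℕ) :
    IsTest (Metric.ball a R) (psiApprox a R n) := by
  have hn : (0:ℝ) < (n : ℝ) + 1 := by positivity
  have hsub : Function.support (psiApprox a R n) ⊆ {x | 1 / ((n : ℝ) + 1) ≤ rho a R x} := by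
    intro x hx
    by_contra h
    simp only [mem_ofPred_eq, not_le] at h
    apply hx
    unfold psiApprox
    rw [Real.smoothTransition.zero_of_nonpos, mul_zero]
    rw [lt_div_iff₀ hn] at h
    linarith
  have hclosed : IsClosed {x | 1 / ((n : ℝ) + 1) ≤ rho a R x} :=
    isClosed_le continuous_const (continuous_rho a R)
  have hts : tsupport (psiApprox a R n) ⊆ {x | 1 / ((n : ℝ) + 1) ≤ rho a R x} :=
    closure_minimal hsub hclosed
  have hball : {x | 1 / ((n : ℝ) + 1) ≤ rho a R x} ⊆ Metric.ball a R := by
    intro x hx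
    simp only [mem_ofPred_eq] at hx
    have : 0 < rho a R x := lt_of_lt_of_le (by positivity) hx
    unfold rho at this
    rw [Metric.mem_ball, dist_eq_norm]
    exact lt_of_pow_lt_pow_left₀ 2 hR.le (by linarith)
  refine ⟨?_, ?_, hts.trans hball⟩
  · unfold psiApprox
    apply ((contDiff_rho a R).pow 2).mul
    exact Real.smoothTransition.contDiff.comp
      ((contDiff_const.mul (contDiff_rho a R)).sub contDiff_const)
  · apply (isCompact_closedBall a R).of_isClosed_subset (isClosed_tsupport _)
    exact (hts.trans hball).trans Metric.ball_subset_closedBall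

lemma gradient_psiApprox (a : E) (R : ℝ) (n : ℕ) (x : E) :
    gradient (psiApprox a R n) x =
      (2 * rho a R x * Real.smoothTransition (((n : ℝ) + 1) * rho a R x - 1) +
        ((n : ℝ) + 1) * rho a R x ^ 2 *
          deriv Real.smoothTransition (((n : ℝ) + 1) * rho a R x - 1)) •
      ((-2 : ℝ) • (x - a)) := by
  have h1 := hasFDerivAt_rho a R x
  have h2 : HasFDerivAt (fun y => ((n : ℝ) + 1) * rho a R y - 1)
      (((n : ℝ) + 1) • (-(2 • innerSL ℝ (x - a)) : E →L[ℝ] ℝ)) x :=
    (h1.const_mul ((n : ℝ) + 1)).sub_const 1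
  have h3 : HasDerivAt Real.smoothTransition
      (deriv Real.smoothTransition (((n : ℝ) + 1) * rho a R x - 1))
      (((n : ℝ) + 1) * rho a R x - 1) :=
    ((Real.smoothTransition.contDiff (n := 1)).differentiable (by norm_num) _).hasDerivAt
  have h4 := h3.comp_hasFDerivAt x h2
  have h5 := (h1.pow 2).mul h4
  have h6 : HasFDerivAt (psiApprox a R n) _ x := h5
  unfold gradient
  rw [h6.fderiv]
  apply (InnerProductSpace.toDual ℝ E).injective
  ext v
  simp only [LinearIsometryEquiv.apply_symm_apply, map_smul, add_apply, smul_apply,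
    InnerProductSpace.toDual_apply_apply, neg_apply, innerSL_apply_apply, smul_eq_mul,
    nsmul_eq_mul, Function.comp_apply]
  push_cast
  ring

/-- the pair `(ρ₊², ∇ρ₊²)` belongs to `W (ball a R)`. -/
theorem exists_psi (a : E) {R : ℝ} (hR : 0 < R) :
    ∃ p ∈ W (Metric.ball a R),
      (p.1 =ᵐ[volume] (Metric.ball a R).indicator (fun x => rho a R x ^ 2)) ∧
      (p.2 =ᵐ[volume] (Metric.ball a R).indicator (fun x => (-4 * rho a R x) • (x - a))) := by
  obtain ⟨M, hM0, hM⟩ := exists_bound_deriv_smoothTransition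
  have hfin : (volume : Measure E) (Metric.ball a R) ≠ ⊤ := measure_ball_lt_top.ne
  have hcr : Continuous (rho a R) := continuous_rho a R
  have hmem1 : MemLp ((Metric.ball a R).indicator (fun x => rho a R x ^ 2)) 2
      (volume : Measure E) := by
    rw [memLp_indicator_iff_restrict measurableSet_ball]
    have : IsFiniteMeasure ((volume : Measure E).restrict (Metric.ball a R)) :=
      ⟨by rw [Measure.restrict_apply_univ]; exact measure_ball_lt_top⟩
    obtain ⟨C, hC⟩ := (isCompact_closedBall a R).exists_bound_of_continuousOn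
      (f := fun x => rho a R x ^ 2) (by fun_prop)
    apply MemLp.of_bound (by
      exact (by fun_prop : Continuous (fun x => rho a R x ^ 2)).aestronglyMeasurable) C
    rw [ae_restrict_iff' measurableSet_ball]
    exact Eventually.of_forall (fun x hx => hC x (Metric.ball_subset_closedBall hx))
  have hmem2 : MemLp ((Metric.ball a R).indicator (fun x => (-4 * rho a R x) • (x - a))) 2
      (volume : Measure E) := by
    rw [memLp_indicator_iff_restrict measurableSet_ball]
    have : IsFiniteMeasure ((volume : Measure E).restrict (Metric.ball a R)) :=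
      ⟨by rw [Measure.restrict_apply_univ]; exact measure_ball_lt_top⟩
    obtain ⟨C, hC⟩ := (isCompact_closedBall a R).exists_bound_of_continuousOn
      (f := fun x => (-4 * rho a R x) • (x - a)) (by fun_prop)
    apply MemLp.of_bound (by
      exact (by fun_prop : Continuous (fun x => (-4 * rho a R x) • (x - a))).aestronglyMeasurable) C
    rw [ae_restrict_iff' measurableSet_ball]
    exact Eventually.of_forall (fun x hx => hC x (Metric.ball_subset_closedBall hx))
  set p : Lp ℝ 2 (volume : Measure E) × Lp E 2 (volume : Measure E) :=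
    (hmem1.toLp _, hmem2.toLp _) with hp
  have hp1 : p.1 =ᵐ[volume] (Metric.ball a R).indicator (fun x => rho a R x ^ 2) :=
    hmem1.coeFn_toLp
  have hp2 : p.2 =ᵐ[volume] (Metric.ball a R).indicator (fun x => (-4 * rho a R x) • (x - a)) :=
    hmem2.coeFn_toLp
  refine ⟨p, ?_, hp1, hp2⟩
  rw [mem_W_iff_seq]
  refine ⟨fun n => (isTest_psiApprox (a := a) hR n).pair, fun n => IsTest.pair_mem _, ?_⟩
  have hlim0 : Tendsto (fun n : ℕ => 1 / ((n : ℝ) + 1)) atTop (𝓝 0) :=
    tendsto_one_div_add_atTop_nhds_zero_nat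
  -- basic dichotomy
  have hdich : ∀ n : ℕ, ∀ x ∈ Metric.ball a R, rho a R x ≤ 2 / ((n : ℝ) + 1) ∨
      (1 < ((n : ℝ) + 1) * rho a R x - 1) := by
    intro n x hx
    have hn : (0:ℝ) < (n : ℝ) + 1 := by positivity
    rcases le_or_gt (rho a R x) (2 / ((n : ℝ) + 1)) with h | h
    · exact Or.inl h
    · right
      rw [div_lt_iff₀ hn] at h
      linarith
  apply Tendsto.prodMk_nhds
  · apply tendsto_Lp_of_bound measurableSet_ball hfin
      (c := fun n : ℕ => 4 * (1 / ((n : ℝ) + 1)))
    · simpa using hlim0.const_mul 4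
    · intro n
      filter_upwards [(isTest_psiApprox (a := a) hR n).pair_fst, hp1] with x h1 h2
      show ‖(isTest_psiApprox (a := a) hR n).pair.1 x - p.1 x‖ ≤ _
      rw [h1, h2]
      by_cases hx : x ∈ Metric.ball a R
      · simp only [indicator_of_mem hx]
        have hr := rho_pos hx
        have hn : (0:ℝ) < (n : ℝ) + 1 := by positivity
        set t := ((n : ℝ) + 1) * rho a R x - 1 with ht
        have e : psiApprox a R n x - rho a R x ^ 2 =
            rho a R x ^ 2 * (Real.smoothTransition t - 1) := by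
          unfold psiApprox; ring
        rw [e, Real.norm_eq_abs, abs_mul, abs_of_nonneg (sq_nonneg _)]
        rcases hdich n x hx with h | h
        · have h3 : |Real.smoothTransition t - 1| ≤ 1 := by
            rw [abs_le]
            have := Real.smoothTransition.nonneg t
            have := Real.smoothTransition.le_one t
            constructor <;> linarith
          have h4 : rho a R x ^ 2 ≤ 4 * (1 / ((n : ℝ) + 1)) := by
            have h5 : rho a R x ^ 2 ≤ (2 / ((n : ℝ) + 1)) ^ 2 :=
              pow_le_pow_left₀ hr.le h 2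
            have h6 : (2 / ((n : ℝ) + 1)) ^ 2 ≤ 4 * (1 / ((n : ℝ) + 1)) := by
              rw [div_pow]
              have : (1:ℝ) / ((n:ℝ)+1) ≤ 1 := by
                rw [div_le_one hn]
                have : (0:ℝ) ≤ n := Nat.cast_nonneg n
                linarith
              have e1 : (2:ℝ) ^ 2 / ((n:ℝ)+1) ^ 2 = 4 * (1 / ((n:ℝ)+1)) * (1 / ((n:ℝ)+1)) := by
                field_simp
                norm_num
              rw [e1]
              have : 0 ≤ 4 * (1 / ((n:ℝ)+1)) := by positivity
              nlinarith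
            exact h5.trans h6
          calc rho a R x ^ 2 * |Real.smoothTransition t - 1| ≤ rho a R x ^ 2 * 1 := by
                apply mul_le_mul_of_nonneg_left h3 (sq_nonneg _)
            _ ≤ _ := by rw [mul_one]; exact h4
        · rw [Real.smoothTransition.one_of_one_le h.le]
          simp
          positivity
      · rw [(isTest_psiApprox (a := a) hR n).eq_zero hx]
        simp [hx]
  · apply tendsto_Lp_of_bound measurableSet_ball hfin
      (c := fun n : ℕ => (4 + 4 * M) * (2 * R) * (1 / ((n : ℝ) + 1)))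
    · simpa using hlim0.const_mul ((4 + 4 * M) * (2 * R))
    · intro n
      filter_upwards [(isTest_psiApprox (a := a) hR n).pair_snd, hp2] with x h1 h2
      show ‖(isTest_psiApprox (a := a) hR n).pair.2 x - p.2 x‖ ≤ _
      rw [h1, h2]
      by_cases hx : x ∈ Metric.ball a R
      · simp only [indicator_of_mem hx]
        have hr := rho_pos hx
        have hn : (0:ℝ) < (n : ℝ) + 1 := by positivity
        have hxa : ‖x - a‖ ≤ R := by
          rw [Metric.mem_ball, dist_eq_norm] at hx
          exact hx.le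
        set t := ((n : ℝ) + 1) * rho a R x - 1 with ht
        have e : gradient (psiApprox a R n) x - (-4 * rho a R x) • (x - a) =
            (2 * rho a R x * (Real.smoothTransition t - 1) +
              ((n : ℝ) + 1) * rho a R x ^ 2 * deriv Real.smoothTransition t) •
            ((-2 : ℝ) • (x - a)) := by
          rw [gradient_psiApprox, ← ht, smul_smul, smul_smul, ← sub_smul]
          congr 1
          ring
        rw [e, norm_smul, norm_smul]
        have e2 : ‖(-2:ℝ)‖ * ‖x - a‖ ≤ 2 * R := by
          have : ‖(-2:ℝ)‖ = 2 := by norm_num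
          rw [this]
          linarith
        rcases hdich n x hx with h | h
        · have ht1 : -1 ≤ t := by
            have : 0 ≤ ((n : ℝ) + 1) * rho a R x := by positivity
            linarith
          have h3 : |Real.smoothTransition t - 1| ≤ 1 := by
            rw [abs_le]
            have := Real.smoothTransition.nonneg t
            have := Real.smoothTransition.le_one t
            constructor <;> linarith
          have h4 : ‖2 * rho a R x * (Real.smoothTransition t - 1) +
              ((n : ℝ) + 1) * rho a R x ^ 2 * deriv Real.smoothTransition t‖ ≤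
              (4 + 4 * M) * (1 / ((n : ℝ) + 1)) := by
            refine (norm_add_le _ _).trans ?_
            have h5 : ‖2 * rho a R x * (Real.smoothTransition t - 1)‖ ≤
                4 * (1 / ((n : ℝ) + 1)) := by
              rw [norm_mul, Real.norm_eq_abs (Real.smoothTransition t - 1),
                Real.norm_of_nonneg (by positivity)]
              calc 2 * rho a R x * |Real.smoothTransition t - 1| ≤ 2 * rho a R x * 1 := by
                    apply mul_le_mul_of_nonneg_left h3 (by positivity)
                _ ≤ 2 * (2 / ((n : ℝ) + 1)) := by linarith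
                _ = _ := by ring
            have h6 : ‖((n : ℝ) + 1) * rho a R x ^ 2 * deriv Real.smoothTransition t‖ ≤
                4 * M * (1 / ((n : ℝ) + 1)) := by
              rw [norm_mul, Real.norm_of_nonneg (by positivity)]
              calc ((n : ℝ) + 1) * rho a R x ^ 2 * ‖deriv Real.smoothTransition t‖
                  ≤ ((n : ℝ) + 1) * (2 / ((n : ℝ) + 1)) ^ 2 * M := by
                    apply mul_le_mul _ (hM t ht1) (norm_nonneg _) (by positivity)
                    apply mul_le_mul_of_nonneg_left _ hn.le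
                    exact pow_le_pow_left₀ hr.le h 2
                _ = 4 * M * (1 / ((n : ℝ) + 1)) := by
                    field_simp
                    ring
            linarith
          calc _ ≤ ((4 + 4 * M) * (1 / ((n : ℝ) + 1))) * (2 * R) :=
                mul_le_mul h4 e2 (by positivity) (by positivity)
            _ = _ := by ring
        · have hd : deriv Real.smoothTransition t = 0 := by
            have : Real.smoothTransition =ᶠ[𝓝 t] fun _ => 1 := by
              filter_upwards [lt_mem_nhds h] with s hs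
              exact Real.smoothTransition.one_of_one_le hs.le
            rw [this.deriv_eq]
            simp
          rw [Real.smoothTransition.one_of_one_le h.le, hd]
          simp
          positivity
      · rw [(isTest_psiApprox (a := a) hR n).gradient_eq_zero hx]
        simp [hx]

end Pool.Agent.MP_0fb79d_an
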