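import Pool.Agent.Lib_MP_0fb79d_an.Defs

/-!
Basic facts on test functions: algebra, integrability, translation estimate.
-/

open MeasureTheory Filter Topology Set
open scoped ENNReal ContDiff RealInnerProductSpace

noncomputable section

namespace Pool.Agent.MP_0fb79d_an

variable {E : Type*} [NormedAddCommGroup E] [InnerProductSpace ℝ E] [FiniteDimensional ℝ E]
  [CompleteSpace E] [MeasurableSpace E] [BorelSpace E]

omit [FiniteDimensional ℝ E] [MeasurableSpace E] [BorelSpace E] in
lemma norm_gradient (f : E → ℝ) (x : E) : ‖gradient f x‖ = ‖fderiv ℝ f x‖ := by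
  simp [gradient]

omit [FiniteDimensional ℝ E] [MeasurableSpace E] [BorelSpace E] in
lemma continuous_gradient {f : E → ℝ} (hf : ContDiff ℝ 1 f) : Continuous (gradient f) := by
  have h : Continuous (fderiv ℝ f) := hf.continuous_fderiv (by norm_num)
  exact (InnerProductSpace.toDual ℝ E).symm.continuous.comp h

omit [FiniteDimensional ℝ E] [MeasurableSpace E] [BorelSpace E] in
lemma hasCompactSupport_gradient {f : E → ℝ} (hf : HasCompactSupport f) :
    HasCompactSupport (gradient f) := by
  have h := hf.fderiv (𝕜 := ℝ)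
  exact h.comp_left (g := (InnerProductSpace.toDual ℝ E).symm) (by simp)

omit [FiniteDimensional ℝ E] [MeasurableSpace E] [BorelSpace E] in
lemma gradient_add {f g : E → ℝ} {x : E} (hf : DifferentiableAt ℝ f x)
    (hg : DifferentiableAt ℝ g x) :
    gradient (fun y => f y + g y) x = gradient f x + gradient g x := by
  have : fderiv ℝ (fun y => f y + g y) x = fderiv ℝ f x + fderiv ℝ g x := fderiv_add hf hg
  simp [gradient, this]

omit [FiniteDimensional ℝ E] [MeasurableSpace E] [BorelSpace E] in
lemma gradient_sub {f g : E → ℝ} {x : E} (hf : DifferentiableAt ℝ f x)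
    (hg : DifferentiableAt ℝ g x) :
    gradient (fun y => f y - g y) x = gradient f x - gradient g x := by
  have : fderiv ℝ (fun y => f y - g y) x = fderiv ℝ f x - fderiv ℝ g x := fderiv_sub hf hg
  simp [gradient, this]

omit [FiniteDimensional ℝ E] [MeasurableSpace E] [BorelSpace E] in
lemma gradient_const_mul {f : E → ℝ} {x : E} (c : ℝ) (hf : DifferentiableAt ℝ f x) :
    gradient (fun y => c * f y) x = c • gradient f x := by
  have : fderiv ℝ (fun y => c * f y) x = c • fderiv ℝ f x := fderiv_const_mul hf c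
  simp [gradient, this]

namespace IsTest

omit [FiniteDimensional ℝ E] [CompleteSpace E] [MeasurableSpace E] [BorelSpace E] in
lemma mono {Ω Ω' : Set E} {φ : E → ℝ} (h : IsTest Ω φ) (hΩ : Ω ⊆ Ω') : IsTest Ω' φ :=
  ⟨h.smooth, h.compact, h.supp.trans hΩ⟩

omit [FiniteDimensional ℝ E] [CompleteSpace E] [MeasurableSpace E] [BorelSpace E] in
lemma zero {Ω : Set E} : IsTest Ω (fun _ : E => (0 : ℝ)) := by
  refine ⟨contDiff_const, ?_, ?_⟩
  · exact HasCompactSupport.zero
  · have : tsupport (fun _ : E => (0 : ℝ)) = ∅ := by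
      rw [tsupport_eq_empty_iff]; rfl
    rw [this]; exact empty_subset _

omit [FiniteDimensional ℝ E] [CompleteSpace E] [MeasurableSpace E] [BorelSpace E] in
lemma add {Ω : Set E} {φ ψ : E → ℝ} (hφ : IsTest Ω φ) (hψ : IsTest Ω ψ) :
    IsTest Ω (fun x => φ x + ψ x) := by
  refine ⟨hφ.smooth.add hψ.smooth, hφ.compact.add hψ.compact, ?_⟩
  exact (tsupport_add φ ψ).trans (union_subset hφ.supp hψ.supp)

omit [FiniteDimensional ℝ E] [CompleteSpace E] [MeasurableSpace E] [BorelSpace E] in
lemma const_mul {Ω : Set E} {φ : E → ℝ} (hφ : IsTest Ω φ) (c : ℝ) :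
    IsTest Ω (fun x => c * φ x) := by
  have hs : Function.support (fun x => c * φ x) ⊆ Function.support φ := by
    intro x hx
    simp only [Function.mem_support, ne_eq, mul_eq_zero, not_or] at hx ⊢
    exact hx.2
  refine ⟨contDiff_const.mul hφ.smooth, hφ.compact.mono hs, ?_⟩
  exact (closure_mono hs).trans hφ.supp

omit [FiniteDimensional ℝ E] [CompleteSpace E] [MeasurableSpace E] [BorelSpace E] in
lemma neg {Ω : Set E} {φ : E → ℝ} (hφ : IsTest Ω φ) : IsTest Ω (fun x => - φ x) := by
  have := hφ.const_mul (-1)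
  simpa using this

omit [FiniteDimensional ℝ E] [CompleteSpace E] [MeasurableSpace E] [BorelSpace E] in
lemma sub {Ω : Set E} {φ ψ : E → ℝ} (hφ : IsTest Ω φ) (hψ : IsTest Ω ψ) :
    IsTest Ω (fun x => φ x - ψ x) := by
  have := hφ.add hψ.neg
  simpa [sub_eq_add_neg] using this

omit [FiniteDimensional ℝ E] [CompleteSpace E] [MeasurableSpace E] [BorelSpace E] in
lemma contDiff_one {Ω : Set E} {φ : E → ℝ} (hφ : IsTest Ω φ) : ContDiff ℝ 1 φ :=
  hφ.smooth.of_le (by exact_mod_cast le_top)

omit [FiniteDimensional ℝ E] [CompleteSpace E] [MeasurableSpace E] [BorelSpace E] in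
lemma differentiable {Ω : Set E} {φ : E → ℝ} (hφ : IsTest Ω φ) : Differentiable ℝ φ :=
  hφ.contDiff_one.differentiable (by norm_num)

omit [FiniteDimensional ℝ E] [CompleteSpace E] [MeasurableSpace E] [BorelSpace E] in
lemma continuous {Ω : Set E} {φ : E → ℝ} (hφ : IsTest Ω φ) : Continuous φ :=
  hφ.smooth.continuous

omit [FiniteDimensional ℝ E] [MeasurableSpace E] [BorelSpace E] in
lemma continuous_gradient {Ω : Set E} {φ : E → ℝ} (hφ : IsTest Ω φ) : Continuous (gradient φ) :=
  MP_0fb79d_an.continuous_gradient hφ.contDiff_one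

omit [FiniteDimensional ℝ E] [MeasurableSpace E] [BorelSpace E] in
lemma compact_gradient {Ω : Set E} {φ : E → ℝ} (hφ : IsTest Ω φ) :
    HasCompactSupport (gradient φ) := hasCompactSupport_gradient hφ.compact

omit [CompleteSpace E] in
lemma memLp {Ω : Set E} {φ : E → ℝ} (hφ : IsTest Ω φ) (p : ℝ≥0∞) :
    MemLp φ p (volume : Measure E) :=
  hφ.continuous.memLp_of_hasCompactSupport hφ.compact

lemma memLp_gradient {Ω : Set E} {φ : E → ℝ} (hφ : IsTest Ω φ) (p : ℝ≥0∞) :
    MemLp (gradient φ) p (volume : Measure E) :=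
  hφ.continuous_gradient.memLp_of_hasCompactSupport hφ.compact_gradient

omit [FiniteDimensional ℝ E] [CompleteSpace E] [MeasurableSpace E] [BorelSpace E] in
lemma eq_zero {Ω : Set E} {φ : E → ℝ} (hφ : IsTest Ω φ) {x : E} (hx : x ∉ Ω) : φ x = 0 :=
  image_eq_zero_of_notMem_tsupport (fun h => hx (hφ.supp h))

omit [FiniteDimensional ℝ E] [MeasurableSpace E] [BorelSpace E] in
lemma gradient_eq_zero {Ω : Set E} {φ : E → ℝ} (hφ : IsTest Ω φ) {x : E} (hx : x ∉ Ω) :
    gradient φ x = 0 := by
  have h1 : x ∉ tsupport φ := fun h => hx (hφ.supp h)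
  have h2 : fderiv ℝ φ x = 0 := by
    have := support_fderiv_subset ℝ (f := φ)
    by_contra hne
    exact h1 (this hne)
  simp [gradient, h2]

end IsTest

/-- translation estimate -/
theorem translation_estimate {φ : E → ℝ} (hφ : ContDiff ℝ 1 φ) (hc : HasCompactSupport φ) (h : E) :
    ∫ x, (φ (x + h) - φ x) ^ 2 ≤ ‖h‖ ^ 2 * ∫ x, ‖gradient φ x‖ ^ 2 := by
  have hdiff : Differentiable ℝ φ := hφ.differentiable (by norm_num)
  have hcg : Continuous (gradient φ) := continuous_gradient hφ
  have hcc : HasCompactSupport (gradient φ) := hasCompactSupport_gradient hc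
  -- pointwise estimate
  have hpt : ∀ x, (φ (x + h) - φ x) ^ 2 ≤ ∫ t in (0:ℝ)..1, ‖h‖ ^ 2 * ‖gradient φ (x + t • h)‖ ^ 2 := by
    intro x
    have hcont : Continuous (fun t : ℝ => ⟪gradient φ (x + t • h), h⟫) := by fun_prop
    have hint : ∫ t in (0:ℝ)..1, ⟪gradient φ (x + t • h), h⟫ = φ (x + h) - φ x := by
      have := intervalIntegral.integral_eq_sub_of_hasDerivAt (a := 0) (b := 1)
        (f := fun t : ℝ => φ (x + t • h)) (f' := fun t : ℝ => ⟪gradient φ (x + t • h), h⟫) ?_
        (hcont.intervalIntegrable _ _)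
      · simpa using this
      · intro t _
        have h1 : HasFDerivAt φ (fderiv ℝ φ (x + t • h)) (x + t • h) :=
          (hdiff _).hasFDerivAt
        have h2 : HasDerivAt (fun t : ℝ => x + t • h) h t := by
          simpa using ((hasDerivAt_id t).smul_const h).const_add x
        have h3 := h1.comp_hasDerivAt t h2
        rw [inner_gradient_left]
        exact h3
    rw [← hint]
    have hJ : (∫ t in (0:ℝ)..1, ⟪gradient φ (x + t • h), h⟫) ^ 2 ≤
        ∫ t in (0:ℝ)..1, ⟪gradient φ (x + t • h), h⟫ ^ 2 := by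
      set f := fun t : ℝ => ⟪gradient φ (x + t • h), h⟫ with hf
      set m := ∫ t in (0:ℝ)..1, f t with hm
      have h0 : 0 ≤ ∫ t in (0:ℝ)..1, (f t - m) ^ 2 :=
        intervalIntegral.integral_nonneg (by norm_num) (fun t _ => sq_nonneg _)
      have h1 : ∫ t in (0:ℝ)..1, (f t - m) ^ 2 =
          (∫ t in (0:ℝ)..1, f t ^ 2) - 2 * m * m + m ^ 2 := by
        have e : ∀ t, (f t - m) ^ 2 = f t ^ 2 - 2 * m * f t + m ^ 2 := fun t => by ring
        simp_rw [e]
        rw [intervalIntegral.integral_add, intervalIntegral.integral_sub,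
          intervalIntegral.integral_const_mul, ← hm]
        · simp
        · exact (by fun_prop : Continuous fun t => f t ^ 2).intervalIntegrable _ _
        · exact (by fun_prop : Continuous fun t => 2 * m * f t).intervalIntegrable _ _
        · exact (by fun_prop : Continuous fun t => f t ^ 2 - 2 * m * f t).intervalIntegrable _ _
        · exact (by fun_prop : Continuous fun _ : ℝ => m ^ 2).intervalIntegrable _ _
      nlinarith
    refine hJ.trans ?_
    apply intervalIntegral.integral_mono_on (by norm_num)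
    · exact (by fun_prop : Continuous fun t : ℝ => ⟪gradient φ (x + t • h), h⟫ ^ 2).intervalIntegrable _ _
    · exact (by fun_prop : Continuous fun t : ℝ => ‖h‖ ^ 2 * ‖gradient φ (x + t • h)‖ ^ 2).intervalIntegrable _ _
    · intro t _
      have := abs_real_inner_le_norm (gradient φ (x + t • h)) h
      rw [← mul_pow, ← sq_abs]
      exact pow_le_pow_left₀ (abs_nonneg _) (this.trans_eq (mul_comm _ _)) 2
  -- integrate
  have hI1 : Integrable (fun x => (φ (x + h) - φ x) ^ 2) (volume : Measure E) := by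
    have hcont : Continuous (fun x => (φ (x + h) - φ x) ^ 2) := by
      have := hφ.continuous
      fun_prop
    have hcs : HasCompactSupport (fun x => φ (x + h) - φ x) := by
      have e : HasCompactSupport (fun x => φ (x + h)) :=
        hc.comp_homeomorph (Homeomorph.addRight h)
      exact e.sub hc
    exact hcont.integrable_of_hasCompactSupport
      (hcs.comp_left (g := fun y : ℝ => y ^ 2) (by norm_num))
  have hI2 : Integrable (fun x => ‖gradient φ x‖ ^ 2) (volume : Measure E) := by
    have hcont : Continuous (fun x => ‖gradient φ x‖ ^ 2) := by fun_prop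
    exact hcont.integrable_of_hasCompactSupport
      (hcc.comp_left (g := fun y : E => ‖y‖ ^ 2) (by simp))
  have hnn : 0 ≤ ‖h‖ ^ 2 * ∫ x, ‖gradient φ x‖ ^ 2 := by
    apply mul_nonneg (by positivity)
    exact integral_nonneg (fun x => by positivity)
  rw [integral_eq_lintegral_of_nonneg_ae (Eventually.of_forall (fun x => sq_nonneg _))
    hI1.aestronglyMeasurable]
  apply ENNReal.toReal_le_of_le_ofReal hnn
  calc ∫⁻ x, ENNReal.ofReal ((φ (x + h) - φ x) ^ 2)
      ≤ ∫⁻ x, ∫⁻ t in Ioc (0:ℝ) 1, ENNReal.ofReal (‖h‖ ^ 2 * ‖gradient φ (x + t • h)‖ ^ 2) := by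
        apply lintegral_mono
        intro x
        refine (ENNReal.ofReal_le_ofReal (hpt x)).trans ?_
        rw [intervalIntegral.integral_of_le (by norm_num)]
        have hcont : Continuous (fun t : ℝ => ‖h‖ ^ 2 * ‖gradient φ (x + t • h)‖ ^ 2) := by
          fun_prop
        rw [ofReal_integral_eq_lintegral_ofReal]
        · exact (hcont.integrableOn_Icc).mono_set Ioc_subset_Icc_self
        · exact Eventually.of_forall (fun t => by positivity)
    _ = ∫⁻ t in Ioc (0:ℝ) 1, ∫⁻ x, ENNReal.ofReal (‖h‖ ^ 2 * ‖gradient φ (x + t • h)‖ ^ 2) := by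
        rw [lintegral_lintegral_swap]
        apply Measurable.aemeasurable
        apply ENNReal.measurable_ofReal.comp
        have : Continuous (fun p : E × ℝ => ‖h‖ ^ 2 * ‖gradient φ (p.1 + p.2 • h)‖ ^ 2) := by
          fun_prop
        exact this.measurable
    _ = ∫⁻ t in Ioc (0:ℝ) 1, ∫⁻ x, ENNReal.ofReal (‖h‖ ^ 2 * ‖gradient φ x‖ ^ 2) := by
        congr 1
        ext t
        exact lintegral_add_right_eq_self
          (fun x => ENNReal.ofReal (‖h‖ ^ 2 * ‖gradient φ x‖ ^ 2)) (t • h)
    _ = ENNReal.ofReal (‖h‖ ^ 2 * ∫ x, ‖gradient φ x‖ ^ 2) := by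
        rw [lintegral_const, ← ofReal_integral_eq_lintegral_ofReal, integral_const_mul]
        · simp
        · exact hI2.const_mul _
        · exact Eventually.of_forall (fun t => by positivity)

/-- Poincare inequality for test functions supported in a ball -/
theorem poincare_test [Nontrivial E] {Ω : Set E} {c : E} {r : ℝ} (hr : 0 ≤ r)
    (hΩ : Ω ⊆ Metric.ball c r) {φ : E → ℝ} (hφ : IsTest Ω φ) :
    ∫ x, φ x ^ 2 ≤ 2 * r ^ 2 * ∫ x, ‖gradient φ x‖ ^ 2 := by
  obtain ⟨e, he⟩ := exists_norm_eq E (c := 2 * r) (by positivity)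
  have h1 := translation_estimate hφ.contDiff_one hφ.compact e
  have hI : Integrable (fun x => φ x ^ 2) (volume : Measure E) := by
    have := hφ.memLp 2
    exact this.integrable_sq
  have hI' : Integrable (fun x => φ (x + e) ^ 2) (volume : Measure E) := hI.comp_add_right e
  have h2 : ∫ x, (φ (x + e) - φ x) ^ 2 = 2 * ∫ x, φ x ^ 2 := by
    have e1 : ∀ x, (φ (x + e) - φ x) ^ 2 = φ (x + e) ^ 2 + φ x ^ 2 := by
      intro x
      have : φ (x + e) * φ x = 0 := by
        by_cases hx : x ∈ Ω
        · have : x + e ∉ Ω := by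
            intro hx'
            have a1 := hΩ hx
            have a2 := hΩ hx'
            rw [Metric.mem_ball, dist_eq_norm] at a1 a2
            have : ‖e‖ ≤ ‖x + e - c‖ + ‖x - c‖ := by
              calc ‖e‖ = ‖(x + e - c) - (x - c)‖ := by congr 1; abel
                _ ≤ _ := norm_sub_le _ _
            linarith
          rw [hφ.eq_zero this]; simp
        · rw [hφ.eq_zero hx]; simp
      nlinarith
    simp_rw [e1]
    rw [integral_add hI' hI, integral_add_right_eq_self (fun x => φ x ^ 2) e]
    ring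
  rw [h2, he] at h1
  have h3 : 0 ≤ ∫ x, ‖gradient φ x‖ ^ 2 := integral_nonneg (fun x => by positivity)
  nlinarith

end Pool.Agent.MP_0fb79d_an
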