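import Pool.Agent.Lib_MP_0fb79d_an.Isolated

/-!
Genus: small sets near the minimizers have genus one.
-/

open MeasureTheory Filter Topology Set
open scoped ENNReal ContDiff RealInnerProductSpace

set_option linter.unusedSectionVars false

noncomputable section

namespace Pool.Agent.MP_0fb79d_an

section general

variable {X Y : Type*} [TopologicalSpace X] [Neg X] [TopologicalSpace Y] [Neg Y]

/-- genus is monotone under continuous odd maps -/
lemma genus_le_of_map {F : Set X} {F' : Set Y} (g : X → Y) (hg : ContinuousOn g F)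
    (hm : MapsTo g F F') (hodd : ∀ x ∈ F, g (-x) = - g x) : genus F ≤ genus F' := by
  unfold genus
  apply sInf_le_sInf
  rintro k ⟨n, hn, rfl, f, hf, hf1, hf2⟩
  refine ⟨n, hn, rfl, fun x => f (g x), hf.comp hg hm, fun x hx => hf1 _ (hm hx), fun x hx => ?_⟩
  simp only []
  rw [hodd x hx, hf2 _ (hm hx)]

/-- a set with an odd continuous sign has genus at most one -/
lemma genus_le_one {F : Set X} (s : X → ℝ) (hs : ContinuousOn s F) (h1 : ∀ x ∈ F, |s x| = 1)
    (hodd : ∀ x ∈ F, s (-x) = - s x) : genus F ≤ 1 := by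
  unfold genus
  apply sInf_le
  obtain ⟨e, he⟩ : ∃ e : EuclideanSpace ℝ (Fin 1), ‖e‖ = 1 := exists_norm_eq _ zero_le_one
  refine ⟨1, le_rfl, by simp, fun x => s x • e, ?_, ?_, ?_⟩
  · exact hs.smul continuousOn_const
  · intro x hx
    rw [norm_smul, he, mul_one, Real.norm_eq_abs, h1 x hx]
  · intro x hx
    simp only []
    rw [hodd x hx, neg_smul]

/-- connected symmetric sets have genus at least two -/
lemma two_le_genus {F : Set X} (γ : ℝ → X) (hγ : Continuous γ) (hγF : ∀ t, γ t ∈ F)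
    {T : ℝ} (hT : 0 ≤ T) (hanti : γ T = - γ 0) : 2 ≤ genus F := by
  unfold genus
  apply le_sInf
  rintro k ⟨n, hn, rfl, f, hf, hf1, hf2⟩
  rcases Nat.lt_or_ge n 2 with h | h
  · exfalso
    have hn1 : n = 1 := by omega
    subst hn1
    set g : ℝ → ℝ := fun t => f (γ t) 0 with hg
    have hgc : Continuous g := by
      have h1 : Continuous (fun t => f (γ t)) := by
        rw [← continuousOn_univ]
        exact hf.comp hγ.continuousOn (fun t _ => hγF t)
      exact (EuclideanSpace.proj (0 : Fin 1)).continuous.comp h1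
    have hgT : g T = - g 0 := by
      simp only [hg]
      rw [hanti, hf2 _ (hγF 0)]
      simp
    have hne : ∀ t, g t ≠ 0 := by
      intro t h0
      have h2 := hf1 _ (hγF t)
      rw [EuclideanSpace.norm_eq] at h2
      simp only [Finset.univ_unique, Fin.default_eq_zero, Finset.sum_singleton] at h2
      simp only [hg] at h0
      rw [h0] at h2
      simp at h2
    have hiv : (0:ℝ) ∈ g '' (Icc 0 T) ∨ (0:ℝ) ∈ g '' (Icc 0 T) := by
      rcases le_total (g 0) 0 with h3 | h3
      · left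
        exact intermediate_value_Icc hT hgc.continuousOn ⟨h3, by rw [hgT]; linarith⟩
      · right
        exact intermediate_value_Icc' hT hgc.continuousOn ⟨by rw [hgT]; linarith, h3⟩
    rcases hiv with ⟨t, -, ht⟩ | ⟨t, -, ht⟩
    · exact hne t ht
    · exact hne t ht
  · exact_mod_cast h

end general

variable {E : Type*} [NormedAddCommGroup E] [InnerProductSpace ℝ E] [FiniteDimensional ℝ E]
  [CompleteSpace E] [MeasurableSpace E] [BorelSpace E] [Nontrivial E]

variable {q : ℝ} (hq1 : 1 < q) (hq2 : q < 2)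

/-- the pair with given gradient is unique -/
lemma W_snd_inj {Ω : Set E} {c : E} {R : ℝ} (hR : 0 ≤ R) (hΩ : Ω ⊆ Metric.ball c R) {p p'}
    (hp : p ∈ W Ω) (hp' : p' ∈ W Ω) (h : p.2 = p'.2) : p = p' := by
  have h1 := poincare hR hΩ ((W Ω).sub_mem hp hp')
  rw [Prod.snd_sub, h, sub_self, norm_zero] at h1
  have h2 : (p - p').1 = 0 := by
    rw [← norm_eq_zero]
    nlinarith [norm_nonneg (p - p').1]
  rw [Prod.fst_sub, sub_eq_zero] at h2
  exact Prod.ext h2 h

lemma neg_mem_sph {Ω : Set E} {p} (hp : p ∈ Sph Ω q) : -p ∈ Sph Ω q := by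
  refine ⟨(W Ω).neg_mem hp.1, ?_⟩
  rw [← hp.2]
  rw [Prod.fst_neg, qNorm_congr (Lp.coeFn_neg p.1)]
  unfold qNorm
  simp

/-- the sphere of gradients -/
def SphG (Ω : Set E) (q : ℝ) : Set (Lp E 2 (volume : Measure E)) := Prod.snd '' Sph Ω q

namespace GoodData

variable {Ω : Set E} (D : GoodData Ω)

include D hq1 hq2

theorem genus_near : ∃ δ : ℝ, 0 < δ ∧ ∀ F ⊆ SphG Ω q, (∀ g ∈ F, -g ∈ F) →
    (2 : ℕ∞) ≤ genus F → ∃ g ∈ F, lam Ω q + δ ≤ ‖g‖ ^ 2 := by
  obtain ⟨d, hd, hsep⟩ := D.separated hq1 hq2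
  obtain ⟨δ, hδ, hnear⟩ := D.near_min hq1 hq2 (show 0 < d / 4 by positivity)
  refine ⟨δ, hδ, fun F hF hsym hgen => ?_⟩
  by_contra hcon
  push Not at hcon
  -- for each `g ∈ F` there is a unique minimizer nearby
  have hex : ∀ g ∈ F, ∃ p ∈ Sph Ω q, p.2 = g ∧ ∃ m ∈ Sph Ω q, ‖m.2‖ ^ 2 = lam Ω q ∧
      ‖p.1 - m.1‖ < d / 4 := by
    intro g hg
    obtain ⟨p, hp, hpg⟩ := hF hg
    obtain ⟨m, hm, hm1, hm2⟩ := hnear p hp (by rw [hpg]; exact hcon g hg)
    exact ⟨p, hp, hpg, m, hm, hm1, hm2⟩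
  classical
  choose! P hP hP2 M hM hM1 hM2 using hex
  -- the sign of a minimizer
  set sg : (Lp ℝ 2 (volume : Measure E) × Lp E 2 (volume : Measure E)) → ℝ :=
    fun m => if WellOrderingRel m (-m) then 1 else -1 with hsg
  have hne : ∀ m ∈ Sph Ω q, m ≠ -m := by
    intro m hm h
    have h1 : m = 0 := by
      have h2 : (2:ℝ) • m = 0 := by
        rw [two_smul]
        nth_rewrite 2 [h]
        simp
      exact (smul_eq_zero.mp h2).resolve_left two_ne_zero
    have h2 := hm.2
    rw [h1, Prod.fst_zero, qNorm_congr (Lp.coeFn_zero ℝ 2 (volume : Measure E))] at h2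
    unfold qNorm at h2
    have hq0 : q ≠ 0 := by linarith
    simp [Real.zero_rpow hq0] at h2
    rw [Real.zero_rpow (by simpa using hq0)] at h2
    exact zero_ne_one h2
  have hsgodd : ∀ m ∈ Sph Ω q, sg (-m) = - sg m := by
    intro m hm
    simp only [hsg, neg_neg]
    rcases trichotomous_of WellOrderingRel m (-m) with h | h | h
    · rw [if_pos h, if_neg (asymm h)]
    · exact absurd h (hne m hm)
    · rw [if_pos h, if_neg (asymm h), neg_neg]
  have hsgabs : ∀ m, |sg m| = 1 := by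
    intro m
    simp only [hsg]
    split_ifs <;> simp
  -- local constancy
  have hloc : ∀ g ∈ F, ∀ g' ∈ F, ‖(P g).1 - (P g').1‖ < d / 4 → M g = M g' := by
    intro g hg g' hg' h
    apply hsep _ _ (hM g hg) (hM1 g hg) (hM g' hg') (hM1 g' hg')
    have h1 := hM2 g hg
    have h2 := hM2 g' hg'
    have h3 : (M g).1 - (M g').1 = -((P g).1 - (M g).1) + ((P g).1 - (P g').1) +
        ((P g').1 - (M g').1) := by abel
    rw [h3]
    calc _ ≤ ‖-((P g).1 - (M g).1) + ((P g).1 - (P g').1)‖ + ‖(P g').1 - (M g').1‖ :=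
          norm_add_le _ _
      _ ≤ ‖-((P g).1 - (M g).1)‖ + ‖(P g).1 - (P g').1‖ + ‖(P g').1 - (M g').1‖ := by
          gcongr
          exact norm_add_le _ _
      _ < d := by rw [norm_neg]; linarith
  have hPneg : ∀ g ∈ F, P (-g) = - P g := by
    intro g hg
    apply W_snd_inj D.rad_nonneg D.sub_ball (hP _ (hsym g hg)).1 (neg_mem_sph (hP g hg)).1
    rw [hP2 _ (hsym g hg), Prod.snd_neg, hP2 g hg]
  have hMneg : ∀ g ∈ F, M (-g) = - M g := by
    intro g hg
    have hm := neg_mem_sph (hM g hg)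
    apply hsep _ _ (hM _ (hsym g hg)) (hM1 _ (hsym g hg)) hm (by
      rw [Prod.snd_neg, norm_neg]; exact hM1 g hg)
    have h1 := hM2 _ (hsym g hg)
    have h2 := hM2 g hg
    rw [hPneg g hg] at h1
    have h3 : (M (-g)).1 - (-M g).1 = -((-P g).1 - (M (-g)).1) + (-((P g).1 - (M g).1)) := by
      rw [Prod.fst_neg, Prod.fst_neg]; abel
    rw [h3]
    calc _ ≤ ‖-((-P g).1 - (M (-g)).1)‖ + ‖-((P g).1 - (M g).1)‖ := norm_add_le _ _
      _ < d := by rw [norm_neg, norm_neg]; linarith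
  -- continuity
  have hPlip : ∀ g ∈ F, ∀ g' ∈ F, ‖(P g).1 - (P g').1‖ ≤ √2 * D.rad * ‖g - g'‖ := by
    intro g hg g' hg'
    have h1 := poincare D.rad_nonneg D.sub_ball ((W Ω).sub_mem (hP g hg).1 (hP g' hg').1)
    rw [Prod.snd_sub, hP2 g hg, hP2 g' hg'] at h1
    rw [Prod.fst_sub] at h1
    have h2 : 2 * D.rad ^ 2 * ‖g - g'‖ ^ 2 = (√2 * D.rad * ‖g - g'‖) ^ 2 := by
      rw [mul_pow, mul_pow, Real.sq_sqrt (by norm_num)]
    rw [h2] at h1
    have := D.rad_nonneg
    exact (pow_le_pow_iff_left₀ (norm_nonneg _) (by positivity) two_ne_zero).mp h1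
  have hcont : ContinuousOn (fun g => sg (M g)) F := by
    rw [Metric.continuousOn_iff]
    intro g hg ε hε
    have := D.rad_nonneg
    refine ⟨d / 4 / (√2 * D.rad + 1), by positivity, fun g' hg' hdist => ?_⟩
    have h1 : M g' = M g := by
      apply hloc g' hg' g hg
      refine (hPlip g' hg' g hg).trans_lt ?_
      rw [dist_eq_norm, lt_div_iff₀ (by positivity)] at hdist
      have h2 : 0 ≤ ‖g' - g‖ := norm_nonneg _
      nlinarith
    rw [h1, dist_self]
    exact hε
  have hle := genus_le_one (F := F) (fun g => sg (M g)) hcont (fun g _ => hsgabs _)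
    (fun g hg => by
      rw [hMneg g hg, hsgodd _ (hM g hg)])
  have : (2 : ℕ∞) ≤ 1 := hgen.trans hle
  exact absurd this (by decide)

end GoodData

end Pool.Agent.MP_0fb79d_an
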