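import Pool.Agent.Lib_MP_0fb79d_an.Defs
import Pool.Agent.Lib_MP_0fb79d_an.Genus

/-!
Comparison of the definitions with the internal objects.
-/

open MeasureTheory Filter Topology Set
open scoped ENNReal ContDiff RealInnerProductSpace

set_option linter.unusedSectionVars false

noncomputable section

namespace Pool.Agent.MP_0fb79d_an

variable {E : Type*} [NormedAddCommGroup E] [InnerProductSpace ℝ E] [FiniteDimensional ℝ E]
  [CompleteSpace E] [MeasurableSpace E] [BorelSpace E] [Nontrivial E]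

variable {q : ℝ} (hq1 : 1 < q) (hq2 : q < 2)

/-- a sequence which converges in two different `L^p` senses has the same limits -/
lemma ae_eq_of_two_limits {f : ℕ → E → ℝ} {g u : E → ℝ} {a b : ℝ≥0∞} (ha : a ≠ 0) (hb : b ≠ 0)
    (hf : ∀ n, AEStronglyMeasurable (f n) (volume : Measure E))
    (hg : AEStronglyMeasurable g (volume : Measure E))
    (hu : AEStronglyMeasurable u (volume : Measure E))
    (h1 : Tendsto (fun n => eLpNorm (fun x => f n x - g x) a (volume : Measure E)) atTop (𝓝 0))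
    (h2 : Tendsto (fun n => eLpNorm (fun x => f n x - u x) b (volume : Measure E)) atTop (𝓝 0)) :
    g =ᵐ[volume] u := by
  have m1 : TendstoInMeasure (volume : Measure E) f atTop g :=
    tendstoInMeasure_of_tendsto_eLpNorm ha hf hg h1
  have m2 : TendstoInMeasure (volume : Measure E) f atTop u :=
    tendstoInMeasure_of_tendsto_eLpNorm hb hf hu h2
  exact tendstoInMeasure_ae_unique m1 m2

namespace GoodData

variable {Ω : Set E} (D : GoodData Ω)

include D hq1 hq2

lemma memD_of_mem_W {p} (hp : p ∈ W Ω) : MemD Ω q p.2 p.1 := by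
  have hq0 : 0 < q := by linarith
  refine ⟨memLp_q D.meas D.fin hq2.le (D.supp hp), ?_⟩
  obtain ⟨a, ha, hlim⟩ := mem_W_iff_seq.mp hp
  have hlim1 : Tendsto (fun n => (a n).1) atTop (𝓝 p.1) := (continuous_fst.tendsto _).comp hlim
  have hlim2 : Tendsto (fun n => (a n).2) atTop (𝓝 p.2) := (continuous_snd.tendsto _).comp hlim
  have haW : ∀ n, a n ∈ W Ω := fun n => TS_le_W Ω (ha n)
  choose φ hφ hφ1 hφ2 using ha
  refine ⟨φ, hφ, ?_, ?_⟩
  · have h1 := (Lp.tendsto_Lp_iff_tendsto_eLpNorm' _ _).mp hlim2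
    refine h1.congr (fun n => eLpNorm_congr_ae ?_)
    filter_upwards [hφ2 n] with x hx
    rw [Pi.sub_apply, hx]
  · have h1 : Tendsto (fun n => ENNReal.ofReal (kq Ω q * ‖(a n).1 - p.1‖)) atTop (𝓝 0) := by
      have := (tendsto_iff_norm_sub_tendsto_zero.mp hlim1).const_mul (kq Ω q)
      rw [mul_zero] at this
      have h9 := (ENNReal.continuous_ofReal.tendsto _).comp this
      rw [ENNReal.ofReal_zero] at h9
      exact h9
    apply tendsto_of_tendsto_of_tendsto_of_le_of_le tendsto_const_nhds h1 (fun _ => bot_le)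
    intro n
    have hs : Supp Ω ((a n).1 - p.1 : Lp ℝ 2 (volume : Measure E)) :=
      (D.supp (haW n)).sub (D.supp hp)
    have h2 : eLpNorm (fun x => φ n x - p.1 x) (ENNReal.ofReal q) (volume : Measure E) =
        eLpNorm ((a n).1 - p.1 : Lp ℝ 2 (volume : Measure E)) (ENNReal.ofReal q) volume := by
      apply eLpNorm_congr_ae
      filter_upwards [hφ1 n, Lp.coeFn_sub (a n).1 p.1] with x h3 h4
      rw [h4, Pi.sub_apply, h3]
    simp only []
    rw [h2, eLpNorm_eq_qNorm hq0 (memLp_q D.meas D.fin hq2.le hs)]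
    exact ENNReal.ofReal_le_ofReal (qNorm_le D.meas D.fin hq1.le hq2.le hs)

lemma mem_W_of_memD {G : Lp E 2 (volume : Measure E)} {u : E → ℝ} (h : MemD Ω q G u) :
    ∃ p ∈ W Ω, p.2 = G ∧ p.1 =ᵐ[volume] u := by
  have hq0 : 0 < q := by linarith
  obtain ⟨hu, φ, hφ, h1, h2⟩ := h
  have hlim2 : Tendsto (fun n => (hφ n).pair.2) atTop (𝓝 G) := by
    rw [Lp.tendsto_Lp_iff_tendsto_eLpNorm']
    refine h1.congr (fun n => eLpNorm_congr_ae ?_)
    filter_upwards [(hφ n).pair_snd] with x hx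
    rw [Pi.sub_apply, hx]
  have hcau : CauchySeq (fun n => (hφ n).pair.1) := by
    have hc2 := hlim2.cauchySeq
    rw [Metric.cauchySeq_iff] at hc2 ⊢
    intro ε hε
    have hr := D.rad_nonneg
    obtain ⟨N, hN⟩ := hc2 (ε / (√2 * D.rad + 1)) (by positivity)
    refine ⟨N, fun m hm n hn => ?_⟩
    have h3 := hN m hm n hn
    rw [dist_eq_norm, lt_div_iff₀ (by positivity)] at h3
    rw [dist_eq_norm]
    have h4 := poincare D.rad_nonneg D.sub_ball
      ((W Ω).sub_mem (hφ m).pair_mem_W (hφ n).pair_mem_W)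
    rw [Prod.fst_sub, Prod.snd_sub] at h4
    have h5 : 2 * D.rad ^ 2 * ‖(hφ m).pair.2 - (hφ n).pair.2‖ ^ 2 =
        (√2 * D.rad * ‖(hφ m).pair.2 - (hφ n).pair.2‖) ^ 2 := by
      rw [mul_pow, mul_pow, Real.sq_sqrt (by norm_num)]
    rw [h5] at h4
    have h6 := (pow_le_pow_iff_left₀ (norm_nonneg _) (by positivity) two_ne_zero).mp h4
    refine h6.trans_lt ?_
    have := norm_nonneg ((hφ m).pair.2 - (hφ n).pair.2)
    nlinarith
  obtain ⟨f, hf⟩ := cauchySeq_tendsto_of_complete hcau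
  have hW : (f, G) ∈ W Ω := by
    have hc := isClosed_W Ω
    exact hc.mem_of_tendsto (hf.prodMk_nhds hlim2) (Eventually.of_forall
      (fun n => (hφ n).pair_mem_W))
  refine ⟨(f, G), hW, rfl, ?_⟩
  have h3 := (Lp.tendsto_Lp_iff_tendsto_eLpNorm' _ _).mp hf
  apply ae_eq_of_two_limits (f := φ) (a := 2) (b := ENNReal.ofReal q) (by norm_num)
    (by simpa using hq0) (fun n => ((hφ n).memLp 2).aestronglyMeasurable)
    (Lp.memLp f).aestronglyMeasurable hu.aestronglyMeasurable _ h2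
  refine h3.congr (fun n => eLpNorm_congr_ae ?_)
  filter_upwards [(hφ n).pair_fst] with x hx
  rw [Pi.sub_apply, hx]

lemma qSphere_eq : qSphere Ω q = SphG Ω q := by
  ext G
  constructor
  · rintro ⟨u, hu, hu1⟩
    obtain ⟨p, hp, hp2, hp1⟩ := D.mem_W_of_memD hq1 hq2 hu
    exact ⟨p, ⟨hp, by rw [qNorm_congr hp1, hu1]⟩, hp2⟩
  · rintro ⟨p, hp, rfl⟩
    exact ⟨p.1, D.memD_of_mem_W hq1 hq2 hp.1, hp.2⟩

lemma lam1_eq : lam1 Ω q = lam Ω q := by
  unfold lam1 lam
  rw [D.qSphere_eq hq1 hq2]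
  unfold SphG
  rw [image_image]

/-- weak formulation against `W` -/
lemma weak_of_test {p} (hp : p ∈ W Ω) {l : ℝ}
    (h : ∀ φ : E → ℝ, IsTest Ω φ →
      ∫ x, ⟪p.2 x, gradient φ x⟫ = l * ∫ x, |p.1 x| ^ (q - 2) * p.1 x * φ x) {w} (hw : w ∈ W Ω) :
    ⟪p.2, w.2⟫ = l * ∫ x, nl q (p.1 x) * w.1 x := by
  have hnl := D.memLp_nl hq1 hq2 (D.supp hp)
  have hint : ∀ f : Lp ℝ 2 (volume : Measure E), ∫ x, nl q (p.1 x) * f x =
      ⟪hnl.toLp (fun x => nl q (p.1 x)), f⟫ := by
    intro f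
    rw [L2.inner_def]
    apply integral_congr_ae
    filter_upwards [hnl.coeFn_toLp] with x hx
    rw [hx]
    simp [mul_comm]
  refine W_induction (P := fun w => ⟪p.2, w.2⟫ = l * ∫ x, nl q (p.1 x) * w.1 x) ?_ ?_ hw
  · simp_rw [hint]
    exact isClosed_eq (by fun_prop) (by fun_prop)
  · rintro w ⟨φ, hφ, h1, h2⟩
    have h3 := h φ hφ
    have e1 : ⟪p.2, w.2⟫ = ∫ x, ⟪p.2 x, gradient φ x⟫ := by
      rw [L2.inner_def]
      apply integral_congr_ae
      filter_upwards [h2] with x hx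
      rw [hx]
    have e2 : ∫ x, nl q (p.1 x) * w.1 x = ∫ x, |p.1 x| ^ (q - 2) * p.1 x * φ x := by
      apply integral_congr_ae
      filter_upwards [h1] with x hx
      rw [hx]
      rfl
    rw [e1, e2, h3]

lemma test_of_weak {p : Lp ℝ 2 (volume : Measure E) × Lp E 2 (volume : Measure E)} {l : ℝ}
    (h : ∀ w ∈ W Ω, ⟪p.2, w.2⟫ = l * ∫ x, nl q (p.1 x) * w.1 x) (φ : E → ℝ) (hφ : IsTest Ω φ) :
      ∫ x, ⟪p.2 x, gradient φ x⟫ = l * ∫ x, |p.1 x| ^ (q - 2) * p.1 x * φ x := by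
  have h3 := h _ hφ.pair_mem_W
  have e1 : ⟪p.2, hφ.pair.2⟫ = ∫ x, ⟪p.2 x, gradient φ x⟫ := by
    rw [L2.inner_def]
    apply integral_congr_ae
    filter_upwards [hφ.pair_snd] with x hx
    rw [hx]
  have e2 : ∫ x, nl q (p.1 x) * hφ.pair.1 x = ∫ x, |p.1 x| ^ (q - 2) * p.1 x * φ x := by
    apply integral_congr_ae
    filter_upwards [hφ.pair_fst] with x hx
    rw [hx]
    rfl
  rw [← e1, ← e2, h3]

/-- the spectrum consists of the energies of the normalized eigenfunctions -/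
lemma mem_spec_iff {l : ℝ} : l ∈ Spec Ω q ↔ ∃ v, EigPair Ω q v ∧ ‖v.2‖ ^ 2 = l := by
  have hq0 : 0 < q := by linarith
  constructor
  · rintro ⟨G, u, hu, hne, heq⟩
    obtain ⟨p, hp, rfl, hpu⟩ := D.mem_W_of_memD hq1 hq2 hu
    have hN0 : 0 < qNorm q p.1 := by
      apply lt_of_le_of_ne (qNorm_nonneg _ _)
      intro h0
      have h1 := qNorm_eq_zero D.meas D.fin hq1.le hq2.le (D.supp hp) h0.symm
      apply hne
      filter_upwards [hpu, Lp.coeFn_zero ℝ 2 (volume : Measure E)] with x h2 h3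
      rw [← h2, h1, h3]
    rw [← qNorm_congr hpu] at heq
    set N := qNorm q p.1 with hN
    -- normalized function
    set v := N⁻¹ • p with hv
    have hvW : v ∈ W Ω := (W Ω).smul_mem _ hp
    have hvS : v ∈ Sph Ω q := by
      refine ⟨hvW, ?_⟩
      rw [hv, Prod.smul_fst, qNorm_smul hq0, abs_of_pos (by positivity), ← hN]
      field_simp
    have hweak : ∀ w ∈ W Ω, ⟪v.2, w.2⟫ = l * ∫ x, nl q (v.1 x) * w.1 x := by
      intro w hw
      have h1 := D.weak_of_test hq1 hq2 hp (l := l * N ^ (2 - q)) (fun φ hφ => by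
        rw [heq φ hφ]
        congr 1
        apply integral_congr_ae
        filter_upwards [hpu] with x hx
        rw [hx]) hw
      have e1 : ∫ x, nl q (v.1 x) * w.1 x = N⁻¹ ^ (q - 1) * ∫ x, nl q (p.1 x) * w.1 x := by
        rw [← integral_const_mul]
        apply integral_congr_ae
        filter_upwards [Lp.coeFn_smul N⁻¹ p.1] with x hx
        rw [hv, Prod.smul_fst, hx, Pi.smul_apply, smul_eq_mul, nl_mul,
          nl_of_pos hq1 (by positivity)]
        ring
      rw [e1, hv, Prod.smul_snd, real_inner_smul_left, h1]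
      have e2 : N⁻¹ * N ^ (2 - q) = N⁻¹ ^ (q - 1) := by
        rw [Real.inv_rpow hN0.le, ← Real.rpow_neg hN0.le, ← Real.rpow_neg_one N,
          ← Real.rpow_add hN0]
        congr 1
        ring
      calc N⁻¹ * (l * N ^ (2 - q) * ∫ x, nl q (p.1 x) * w.1 x)
          = (N⁻¹ * N ^ (2 - q)) * (l * ∫ x, nl q (p.1 x) * w.1 x) := by ring
        _ = _ := by rw [e2]; ring
    have hl : ‖v.2‖ ^ 2 = l := by
      have h1 := hweak v hvW
      rw [real_inner_self_eq_norm_sq] at h1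
      have h2 : ∫ x, nl q (v.1 x) * v.1 x = 1 := by
        have e : ∀ x, nl q (v.1 x) * v.1 x = |v.1 x| ^ q := fun x => nl_mul_self hq1 _
        simp_rw [e]
        rw [← qNorm_rpow hq0, hvS.2, Real.one_rpow]
      rw [h2, mul_one] at h1
      exact h1
    exact ⟨v, ⟨hvS, by rw [hl]; exact hweak⟩, hl⟩
  · rintro ⟨v, ⟨hv, hw⟩, rfl⟩
    refine ⟨v.2, v.1, D.memD_of_mem_W hq1 hq2 hv.1, ?_, ?_⟩
    · intro h0
      have h1 := hv.2
      rw [qNorm_congr h0] at h1
      unfold qNorm at h1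
      have hq0 : q ≠ 0 := by linarith
      simp [Real.zero_rpow hq0] at h1
      rw [Real.zero_rpow (by simpa using hq0)] at h1
      exact zero_ne_one h1
    · intro φ hφ
      rw [hv.2, Real.one_rpow, mul_one]
      exact D.test_of_weak hq1 hq2 hw φ hφ

lemma compactEmbedding : CompactEmbedding Ω q := by
  have hq0 : 0 < q := by linarith
  refine ⟨fun φ hφ hC => ?_⟩
  obtain ⟨ns, hns, hcau⟩ := rellich_test D.rad_nonneg D.sub_ball φ hφ 1 hC
  obtain ⟨f, hf⟩ := cauchySeq_tendsto_of_complete hcau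
  have hs : Supp Ω f := by
    have h1 : ∀ k, indL ℝ (volume : Measure E) D.meas (hφ (ns k)).pair.1 = (hφ (ns k)).pair.1 := by
      intro k
      apply Lp.ext
      filter_upwards [indL_coe D.meas (hφ (ns k)).pair.1, (hφ (ns k)).pair_fst] with x h1 h2
      rw [h1]
      by_cases hx : x ∈ Ω
      · rw [indicator_of_mem hx]
      · rw [indicator_of_notMem hx, h2, (hφ (ns k)).eq_zero hx]
    have h2 : indL ℝ (volume : Measure E) D.meas f = f := by
      have h3 := ((indL ℝ (volume : Measure E) D.meas).continuous.tendsto f).comp hf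
      refine tendsto_nhds_unique ?_ hf
      exact h3.congr h1
    filter_upwards [indL_coe D.meas f] with x hx hxn
    rw [h2, indicator_of_notMem hxn] at hx
    exact hx
  refine ⟨f, memLp_q D.meas D.fin hq2.le hs, ns, hns, ?_⟩
  have h1 : Tendsto (fun k => ENNReal.ofReal (kq Ω q * ‖(hφ (ns k)).pair.1 - f‖)) atTop (𝓝 0) := by
    have := (tendsto_iff_norm_sub_tendsto_zero.mp hf).const_mul (kq Ω q)
    rw [mul_zero] at this
    have h9 := (ENNReal.continuous_ofReal.tendsto _).comp this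
    rw [ENNReal.ofReal_zero] at h9
    exact h9
  apply tendsto_of_tendsto_of_tendsto_of_le_of_le tendsto_const_nhds h1 (fun _ => bot_le)
  intro k
  have hs' : Supp Ω ((hφ (ns k)).pair.1 - f : Lp ℝ 2 (volume : Measure E)) :=
    (D.supp (hφ (ns k)).pair_mem_W).sub hs
  have h2 : eLpNorm (fun x => φ (ns k) x - f x) (ENNReal.ofReal q) (volume : Measure E) =
      eLpNorm ((hφ (ns k)).pair.1 - f : Lp ℝ 2 (volume : Measure E)) (ENNReal.ofReal q) volume := by
    apply eLpNorm_congr_ae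
    filter_upwards [(hφ (ns k)).pair_fst, Lp.coeFn_sub (hφ (ns k)).pair.1 f] with x h3 h4
    rw [h4, Pi.sub_apply, h3]
  simp only []
  rw [h2, eLpNorm_eq_qNorm hq0 (memLp_q D.meas D.fin hq2.le hs')]
  exact ENNReal.ofReal_le_ofReal (qNorm_le D.meas D.fin hq1.le hq2.le hs')

end GoodData

end Pool.Agent.MP_0fb79d_an
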