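import Mathlib

/-!
Definitions for problem MP_0fb79d_an (second `q`-eigenvalue versus second
Lusternik-Schnirelmann eigenvalue).

`E` is a finite dimensional real inner product space (in the final statement `E = ℝ^N`).
Functions on an open set `Ω ⊆ E` which vanish on the boundary are identified with their
extension by zero to `E`.
-/

open MeasureTheory Filter Topology Set
open scoped ENNReal ContDiff RealInnerProductSpace

noncomputable section

namespace Pool.Agent.MP_0fb79d_an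

variable {E : Type*} [NormedAddCommGroup E] [InnerProductSpace ℝ E] [FiniteDimensional ℝ E]
  [CompleteSpace E] [MeasurableSpace E] [BorelSpace E]

/-- `φ ∈ C_0^∞(Ω)`: smooth with compact support contained in `Ω`. -/
structure IsTest (Ω : Set E) (φ : E → ℝ) : Prop where
  smooth : ContDiff ℝ ∞ φ
  compact : HasCompactSupport φ
  supp : tsupport φ ⊆ Ω

/-- The `L^q` norm of `u` (for `1 ≤ q < ∞`). -/
def qNorm (q : ℝ) (u : E → ℝ) : ℝ := (∫ x, |u x| ^ q) ^ (1 / q)

/-- `MemD Ω q G u` says that `u` belongs to `D_0^{1,2}(Ω)` (viewed as a space of functions in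
`L^q` through the embedding) and that `G ∈ L²(E; E)` is its gradient: there are
`φ_n ∈ C_0^∞(Ω)` with `∇φ_n → G` in `L²` and `φ_n → u` in `L^q`. -/
structure MemD (Ω : Set E) (q : ℝ) (G : Lp E 2 (volume : Measure E)) (u : E → ℝ) : Prop where
  memLp : MemLp u (ENNReal.ofReal q) (volume : Measure E)
  approx : ∃ φ : ℕ → E → ℝ, (∀ n, IsTest Ω (φ n)) ∧
    Tendsto (fun n => eLpNorm (fun x => gradient (φ n) x - G x) 2 (volume : Measure E))
      atTop (𝓝 0) ∧
    Tendsto (fun n => eLpNorm (fun x => φ n x - u x) (ENNReal.ofReal q) (volume : Measure E))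
      atTop (𝓝 0)

/-- The embedding `D_0^{1,2}(Ω) → L^q(Ω)` is compact: every sequence in `C_0^∞(Ω)` which is
bounded for the Dirichlet norm has a subsequence which converges in `L^q`. -/
structure CompactEmbedding (Ω : Set E) (q : ℝ) : Prop where
  exists_subseq : ∀ φ : ℕ → E → ℝ, (∀ n, IsTest Ω (φ n)) →
    (∀ n, ∫ x, ‖gradient (φ n) x‖ ^ 2 ≤ 1) →
    ∃ u : E → ℝ, MemLp u (ENNReal.ofReal q) (volume : Measure E) ∧
      ∃ ns : ℕ → ℕ, StrictMono ns ∧
        Tendsto (fun k => eLpNorm (fun x => φ (ns k) x - u x) (ENNReal.ofReal q)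
          (volume : Measure E)) atTop (𝓝 0)

/-- `Spec(Ω; q)`: the set of `q`-eigenvalues, i.e. of `λ` such that
`-Δu = λ ‖u‖_q^{2-q} |u|^{q-2} u` has a weak solution `u ∈ D_0^{1,2}(Ω) \ {0}`. -/
def Spec (Ω : Set E) (q : ℝ) : Set ℝ :=
  {l | ∃ G : Lp E 2 (volume : Measure E), ∃ u : E → ℝ, MemD Ω q G u ∧
    ¬ (u =ᵐ[(volume : Measure E)] 0) ∧
    ∀ φ : E → ℝ, IsTest Ω φ →
      ∫ x, ⟪G x, gradient φ x⟫ = l * qNorm q u ^ (2 - q) * ∫ x, |u x| ^ (q - 2) * u x * φ x}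

/-- The set `S_q(Ω)` of the functions in `D_0^{1,2}(Ω)` with unit `L^q` norm.  Such a function is
represented by its gradient `G ∈ L²(E; E)`; recall that the norm of `D_0^{1,2}(Ω)` is the
`L²` norm of the gradient. -/
def qSphere (Ω : Set E) (q : ℝ) : Set (Lp E 2 (volume : Measure E)) :=
  {G | ∃ u : E → ℝ, MemD Ω q G u ∧ qNorm q u = 1}

/-- `λ_1(Ω; q)`, the infimum of the Dirichlet integral on `S_q(Ω)`. -/
def lam1 (Ω : Set E) (q : ℝ) : ℝ := sInf ((fun G => ‖G‖ ^ 2) '' qSphere Ω q)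

/-- `λ_2(Ω; q) = inf {λ ∈ Spec(Ω; q) : λ > λ_1(Ω; q)}`. -/
def lam2 (Ω : Set E) (q : ℝ) : ℝ := sInf {l | l ∈ Spec Ω q ∧ lam1 Ω q < l}

/-- The Krasnosel'skii genus: the least `k ≥ 1` such that there is a continuous odd map
`F → S^{k-1}` (and `⊤` if there is none). -/
def genus {X : Type*} [TopologicalSpace X] [Neg X] (F : Set X) : ℕ∞ :=
  sInf {k | ∃ n : ℕ, 1 ≤ n ∧ k = n ∧ ∃ f : X → EuclideanSpace ℝ (Fin n),
    ContinuousOn f F ∧ (∀ x ∈ F, ‖f x‖ = 1) ∧ ∀ x ∈ F, f (-x) = - f x}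

/-- The Lusternik-Schnirelmann eigenvalue `λ_{k,LS}(Ω; q)`: the infimum over the compact
symmetric sets `F ⊆ S_q(Ω)` with genus at least `k` of the maximum of the Dirichlet integral
on `F`. -/
def lamLS (Ω : Set E) (q : ℝ) (k : ℕ) : ℝ :=
  sInf {m | ∃ F : Set (Lp E 2 (volume : Measure E)), IsCompact F ∧ F ⊆ qSphere Ω q ∧
    (∀ G ∈ F, -G ∈ F) ∧ (k : ℕ∞) ≤ genus F ∧ IsGreatest ((fun G => ‖G‖ ^ 2) '' F) m}

end Pool.Agent.MP_0fb79d_an
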