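import Pool.Agent.Lib_MP_0fb79d_an.TwoComp

/-!
The conclusion for two balls.
-/

open MeasureTheory Filter Topology Set
open scoped ENNReal ContDiff RealInnerProductSpace

set_option linter.unusedSectionVars false

noncomputable section

namespace Pool.Agent.MP_0fb79d_an

variable {E : Type*} [NormedAddCommGroup E] [InnerProductSpace ℝ E] [FiniteDimensional ℝ E]
  [CompleteSpace E] [MeasurableSpace E] [BorelSpace E] [Nontrivial E]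

variable {q : ℝ} (hq1 : 1 < q) (hq2 : q < 2)

include hq1 hq2

/-- small balls have large first eigenvalue -/
lemma lam_ball_lower (b : E) {r : ℝ} (hr : 0 < r) (hr1 : r ≤ 1) :
    1 ≤ 2 * kq (Metric.ball (0:E) 1) q ^ 2 * r ^ 2 * lam (Metric.ball b r) q := by
  obtain ⟨D⟩ := goodData_ball b hr
  obtain ⟨p, hp, hpm⟩ := D.exists_min hq1 hq2
  have h1 := qNorm_le D.meas D.fin hq1.le hq2.le (D.supp hp.1)
  rw [hp.2] at h1
  have h2 := poincare hr.le (subset_refl (Metric.ball b r)) hp.1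
  rw [hpm] at h2
  have hexp : 0 ≤ 1 / q - 1 / 2 := by
    rw [sub_nonneg]
    exact one_div_le_one_div_of_le (by linarith) hq2.le
  have h3 : kq (Metric.ball b r) q ≤ kq (Metric.ball (0:E) 1) q := by
    unfold kq
    apply Real.rpow_le_rpow ENNReal.toReal_nonneg _ hexp
    apply ENNReal.toReal_mono measure_ball_lt_top.ne
    rw [Measure.addHaar_ball_center]
    exact measure_mono (Metric.ball_subset_ball hr1)
  have h0 : 0 ≤ kq (Metric.ball b r) q := Real.rpow_nonneg ENNReal.toReal_nonneg _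
  have h00 : 0 ≤ kq (Metric.ball (0:E) 1) q := Real.rpow_nonneg ENNReal.toReal_nonneg _
  have h4 : 1 ≤ kq (Metric.ball (0:E) 1) q * ‖p.1‖ :=
    h1.trans (mul_le_mul_of_nonneg_right h3 (norm_nonneg _))
  have h5 : 1 ≤ (kq (Metric.ball (0:E) 1) q * ‖p.1‖) ^ 2 := by
    nlinarith
  calc (1:ℝ) ≤ (kq (Metric.ball (0:E) 1) q * ‖p.1‖) ^ 2 := h5
    _ = kq (Metric.ball (0:E) 1) q ^ 2 * ‖p.1‖ ^ 2 := by ring
    _ ≤ kq (Metric.ball (0:E) 1) q ^ 2 * (2 * r ^ 2 * lam (Metric.ball b r) q) := by gcongr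
    _ = _ := by ring

/-- conclusions for two disjoint good sets -/
theorem conclusion {Ω₁ Ω₂ : Set E} (hd : Disjoint Ω₁ Ω₂) (D₁ : GoodData Ω₁) (D₂ : GoodData Ω₂)
    {δ : ℝ} (hδ : 0 < δ) (hgen : ∀ F ⊆ SphG Ω₁ q, (∀ g ∈ F, -g ∈ F) →
    (2 : ℕ∞) ≤ genus F → ∃ g ∈ F, lam Ω₁ q + δ ≤ ‖g‖ ^ 2) {s : ℝ} (hs0 : 0 < s) (hs1 : s < 1)
    (hs : lam Ω₁ q + δ / 2 ≤ (lam Ω₁ q + δ) * (1 - s) ^ 2)
    (hbig : lam Ω₁ q + δ ≤ lam Ω₂ q * s ^ 2) :
    CompactEmbedding (Ω₁ ∪ Ω₂) q ∧ ¬ AccPt (lam1 (Ω₁ ∪ Ω₂) q) (𝓟 (Spec (Ω₁ ∪ Ω₂) q)) ∧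
      lam1 (Ω₁ ∪ Ω₂) q < lam2 (Ω₁ ∪ Ω₂) q ∧ lam2 (Ω₁ ∪ Ω₂) q ≤ lam1 Ω₁ q ∧
      lam1 Ω₁ q < lamLS (Ω₁ ∪ Ω₂) q 2 := by
  obtain ⟨D⟩ := goodData_union D₁ D₂ hd
  have e1 := D.lam1_eq hq1 hq2
  have e2 := D₁.lam1_eq hq1 hq2
  obtain ⟨δ', hδ', hiso⟩ := D.isolated_spec hq1 hq2
  have hlt := lam_union_lt hq1 hq2 hd D₁ D₂ D
  obtain ⟨p, hp, hpm⟩ := D₁.exists_min hq1 hq2
  have hmem : lam Ω₁ q ∈ Spec (Ω₁ ∪ Ω₂) q := by
    rw [D.mem_spec_iff hq1 hq2]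
    exact ⟨p, eigPair_union hq1 hq2 hd D₁ D₂ D (D₁.eigPair_of_min hq1 hq2 hp hpm), hpm⟩
  have hgap : ∀ l ∈ Spec (Ω₁ ∪ Ω₂) q, l < lam (Ω₁ ∪ Ω₂) q + δ' → l = lam (Ω₁ ∪ Ω₂) q := by
    intro l hl hl2
    obtain ⟨v, hv, rfl⟩ := (D.mem_spec_iff hq1 hq2).mp hl
    exact hiso v hv hl2
  refine ⟨D.compactEmbedding hq1 hq2, ?_, ?_, ?_, ?_⟩
  · rw [e1, accPt_iff_nhds]
    intro hacc
    obtain ⟨y, ⟨hy1, hy2⟩, hy3⟩ := hacc (Iio (lam (Ω₁ ∪ Ω₂) q + δ'))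
      (Iio_mem_nhds (by linarith))
    exact hy3 (hgap y hy2 hy1)
  · rw [e1]
    unfold lam2
    rw [e1]
    have : lam (Ω₁ ∪ Ω₂) q + δ' ≤ sInf {l | l ∈ Spec (Ω₁ ∪ Ω₂) q ∧ lam (Ω₁ ∪ Ω₂) q < l} := by
      refine le_csInf (Set.nonempty_of_mem (x := lam Ω₁ q) ⟨hmem, hlt⟩) ?_
      rintro l ⟨hl, hl2⟩
      by_contra hcon
      push Not at hcon
      exact hl2.ne' (hgap l hl hcon)
    linarith
  · unfold lam2
    rw [e1, e2]
    exact csInf_le ⟨lam (Ω₁ ∪ Ω₂) q, fun l hl => hl.2.le⟩ ⟨hmem, hlt⟩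
  · rw [e2]
    have hlow := genus_lower hq1 hq2 hd D₁ D₂ D hδ hgen hs0 hs1 hs hbig
    have : lam Ω₁ q + δ / 2 ≤ lamLS (Ω₁ ∪ Ω₂) q 2 := by
      unfold lamLS
      rw [D.qSphere_eq hq1 hq2]
      apply le_csInf
      · obtain ⟨F, hF, hF1, hF2, hF3, hF4⟩ := exists_circle hq1 hq2 hd D₁ D₂ D
        have hc : Continuous (fun G : Lp E 2 (volume : Measure E) => ‖G‖ ^ 2) := by fun_prop
        obtain ⟨m, hm⟩ := (hF.image hc).exists_isGreatest (hF4.image _)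
        exact ⟨m, F, hF, hF1, hF2, by exact_mod_cast hF3, hm⟩
      · rintro m ⟨F, hF, hF1, hF2, hF3, hm⟩
        obtain ⟨g, hg, hg2⟩ := hlow F hF1 hF2 (by exact_mod_cast hF3)
        exact hg2.trans (hm.2 (mem_image_of_mem _ hg))
    linarith

/-- The theorem for balls. -/
theorem two_balls (a : E) {R : ℝ} (hR : 0 < R) : ∃ r₀ : ℝ, 0 < r₀ ∧ ∀ r : ℝ, 0 < r → r < r₀ →
    ∀ b : E, R + r ≤ dist a b →
    CompactEmbedding (Metric.ball a R ∪ Metric.ball b r) q ∧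
    ¬ AccPt (lam1 (Metric.ball a R ∪ Metric.ball b r) q)
      (𝓟 (Spec (Metric.ball a R ∪ Metric.ball b r) q)) ∧
    lam1 (Metric.ball a R ∪ Metric.ball b r) q < lam2 (Metric.ball a R ∪ Metric.ball b r) q ∧
    lam2 (Metric.ball a R ∪ Metric.ball b r) q ≤ lam1 (Metric.ball a R) q ∧
    lam1 (Metric.ball a R) q < lamLS (Metric.ball a R ∪ Metric.ball b r) q 2 := by
  obtain ⟨D₁⟩ := goodData_ball a hR
  obtain ⟨δ, hδ, hgen⟩ := D₁.genus_near hq1 hq2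
  have hl := D₁.lam_pos hq1 hq2
  set l := lam (Metric.ball a R) q with hldef
  set s : ℝ := δ / (4 * (l + δ)) with hs
  have hs0 : 0 < s := by positivity
  have hs1 : s < 1 := by
    rw [hs, div_lt_one (by positivity)]
    linarith
  have hse : (l + δ) * s = δ / 4 := by
    rw [hs]; field_simp
  have hs2 : l + δ / 2 ≤ (l + δ) * (1 - s) ^ 2 := by
    have : (l + δ) * (1 - s) ^ 2 = (l + δ) - 2 * ((l + δ) * s) + (l + δ) * s ^ 2 := by ring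
    rw [this, hse]
    have : 0 ≤ (l + δ) * s ^ 2 := by positivity
    linarith
  set k := kq (Metric.ball (0:E) 1) q with hk
  have hk0 : 0 ≤ k := Real.rpow_nonneg ENNReal.toReal_nonneg _
  set t : ℝ := s / (2 * (k + 1) * (l + δ + 1)) with ht
  have ht0 : 0 < t := by positivity
  refine ⟨min 1 t, by positivity, fun r hr hr2 b hab => ?_⟩
  have hr1 : r < 1 := hr2.trans_le (min_le_left _ _)
  have hrt : r < t := hr2.trans_le (min_le_right _ _)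
  obtain ⟨D₂⟩ := goodData_ball b hr
  have hd : Disjoint (Metric.ball a R) (Metric.ball b r) := Metric.ball_disjoint_ball hab
  have hl2 := D₂.lam_pos hq1 hq2
  have hlow := lam_ball_lower hq1 hq2 b hr hr1.le
  rw [← hk] at hlow
  have hbig : l + δ ≤ lam (Metric.ball b r) q * s ^ 2 := by
    have h1 : 2 * k ^ 2 * r ^ 2 * (l + δ) ≤ s ^ 2 := by
      have h2 : r * (2 * (k + 1) * (l + δ + 1)) ≤ s := by
        rw [ht, lt_div_iff₀ (by positivity)] at hrt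
        exact hrt.le
      have h3 : (r * (2 * (k + 1) * (l + δ + 1))) ^ 2 ≤ s ^ 2 :=
        pow_le_pow_left₀ (by positivity) h2 2
      refine le_trans ?_ h3
      have h4 : (r * (2 * (k + 1) * (l + δ + 1))) ^ 2 =
          4 * (k + 1) ^ 2 * r ^ 2 * (l + δ + 1) ^ 2 := by ring
      rw [h4]
      have h5 : k ^ 2 ≤ (k + 1) ^ 2 := pow_le_pow_left₀ hk0 (by linarith) 2
      have h6 : l + δ ≤ (l + δ + 1) ^ 2 := by nlinarith
      calc 2 * k ^ 2 * r ^ 2 * (l + δ) ≤ 4 * k ^ 2 * r ^ 2 * (l + δ) := by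
            have : 0 ≤ k ^ 2 * r ^ 2 * (l + δ) := by positivity
            linarith
        _ ≤ 4 * (k + 1) ^ 2 * r ^ 2 * (l + δ + 1) ^ 2 := by gcongr
    calc l + δ = 1 * (l + δ) := by ring
      _ ≤ (2 * k ^ 2 * r ^ 2 * lam (Metric.ball b r) q) * (l + δ) := by gcongr
      _ = lam (Metric.ball b r) q * (2 * k ^ 2 * r ^ 2 * (l + δ)) := by ring
      _ ≤ lam (Metric.ball b r) q * s ^ 2 := by gcongr
  exact conclusion hq1 hq2 hd D₁ D₂ hδ hgen hs0 hs1 hs2 hbig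

end Pool.Agent.MP_0fb79d_an
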