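import Pool.Agent.Lib_MP_0fb79d_an.Lower

/-!
Isolation of the minimizers.
-/

open MeasureTheory Filter Topology Set
open scoped ENNReal ContDiff RealInnerProductSpace

set_option linter.unusedSectionVars false

noncomputable section

namespace Pool.Agent.MP_0fb79d_an

variable {E : Type*} [NormedAddCommGroup E] [InnerProductSpace ℝ E] [FiniteDimensional ℝ E]
  [CompleteSpace E] [MeasurableSpace E] [BorelSpace E] [Nontrivial E]

lemma integrable_of_lintegral_le {f : E → ℝ} (hm : AEStronglyMeasurable f (volume : Measure E))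
    (h0 : ∀ x, 0 ≤ f x) {C : ℝ} (hC : 0 ≤ C)
    (h : ∫⁻ x, ENNReal.ofReal (f x) ≤ ENNReal.ofReal C) :
    Integrable f (volume : Measure E) ∧ ∫ x, f x ≤ C := by
  have hi : Integrable f (volume : Measure E) := by
    refine ⟨hm, ?_⟩
    rw [hasFiniteIntegral_iff_ofReal (Eventually.of_forall h0)]
    exact lt_of_le_of_lt h ENNReal.ofReal_lt_top
  refine ⟨hi, ?_⟩
  rw [← ofReal_integral_eq_lintegral_ofReal hi (Eventually.of_forall h0)] at h
  exact (ENNReal.ofReal_le_ofReal_iff hC).mp h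

lemma exists_ae_subseq {f : ℕ → Lp ℝ 2 (volume : Measure E)} {g : Lp ℝ 2 (volume : Measure E)}
    (h : Tendsto f atTop (𝓝 g)) :
    ∃ ms : ℕ → ℕ, StrictMono ms ∧
      ∀ᵐ x ∂(volume : Measure E), Tendsto (fun k => f (ms k) x) atTop (𝓝 (g x)) :=
  (tendstoInMeasure_of_tendsto_Lp h).exists_seq_tendsto_ae

lemma measurable_nl (q : ℝ) : Measurable (nl q) := by
  unfold nl
  exact ((measurable_id.abs).pow_const _).mul measurable_id

lemma measurable_G (q : ℝ) : Measurable (G q) := by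
  have h : G q = fun s => if s = 1 then deriv (nl q) 1 else (s - 1)⁻¹ * (nl q s - nl q 1) := by
    ext s
    unfold G
    by_cases hs : s = 1
    · rw [if_pos hs, hs, dslope_same]
    · rw [if_neg hs, dslope_of_ne _ hs, slope_def_module, smul_eq_mul]
  rw [h]
  apply Measurable.ite (measurableSet_singleton 1) measurable_const
  exact (measurable_id.sub_const 1).inv.mul ((measurable_nl q).sub_const _)

variable {q : ℝ} (hq1 : 1 < q) (hq2 : q < 2)

namespace GoodData

variable {Ω : Set E} (D : GoodData Ω)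

include D

/-- Hardy inequality on `W` -/
lemma hardyW {w} (hw : w ∈ W Ω) :
    Integrable (fun x => w.1 x ^ 2 / D.ρ x ^ 2) (volume : Measure E) ∧
      ∫ x, w.1 x ^ 2 / D.ρ x ^ 2 ≤ D.CH * ‖w.2‖ ^ 2 := by
  have hm : AEStronglyMeasurable (fun x => w.1 x ^ 2 / D.ρ x ^ 2) (volume : Measure E) := by
    have h1 := (Lp.memLp w.1).aestronglyMeasurable.aemeasurable
    exact ((h1.pow_const 2).div (D.ρ_meas.pow_const 2).aemeasurable).aestronglyMeasurable
  apply integrable_of_lintegral_le hm (fun x => by positivity)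
    (mul_nonneg D.CH_nonneg (by positivity))
  obtain ⟨a, ha, hlim⟩ := mem_W_iff_seq.mp hw
  have hlim1 : Tendsto (fun n => (a n).1) atTop (𝓝 w.1) := (continuous_fst.tendsto _).comp hlim
  have hlim2 : Tendsto (fun n => (a n).2) atTop (𝓝 w.2) := (continuous_snd.tendsto _).comp hlim
  obtain ⟨ms, hms, hae⟩ := exists_ae_subseq hlim1
  choose φ hφ hφ1 hφ2 using ha
  have hF : ∀ᵐ x ∂(volume : Measure E), ENNReal.ofReal (w.1 x ^ 2 / D.ρ x ^ 2) =
      liminf (fun k => ENNReal.ofReal (φ (ms k) x ^ 2 / D.ρ x ^ 2)) atTop := by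
    have h1 : ∀ᵐ x ∂(volume : Measure E), ∀ n, (a n).1 x = φ n x := by
      rw [ae_all_iff]
      intro n
      filter_upwards [hφ1 n] with x hx using hx
    filter_upwards [hae, h1] with x h2 h3
    have h4 : Tendsto (fun k => ENNReal.ofReal (φ (ms k) x ^ 2 / D.ρ x ^ 2)) atTop
        (𝓝 (ENNReal.ofReal (w.1 x ^ 2 / D.ρ x ^ 2))) := by
      simp only [h3] at h2
      exact (ENNReal.continuous_ofReal.tendsto _).comp ((h2.pow 2).div_const _)
    exact h4.liminf_eq.symm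
  have hg : ∀ n, ∫ x, ‖gradient (φ n) x‖ ^ 2 = ‖(a n).2‖ ^ 2 := by
    intro n
    rw [norm_sq_Lp]
    apply integral_congr_ae
    filter_upwards [hφ2 n] with x hx
    simp only [hx]
  have hlim3 : Tendsto (fun k => ENNReal.ofReal (D.CH * ‖(a (ms k)).2‖ ^ 2)) atTop
      (𝓝 (ENNReal.ofReal (D.CH * ‖w.2‖ ^ 2))) :=
    (ENNReal.continuous_ofReal.tendsto _).comp
      (((hlim2.comp hms.tendsto_atTop).norm.pow 2).const_mul _)
  calc ∫⁻ x, ENNReal.ofReal (w.1 x ^ 2 / D.ρ x ^ 2)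
      = ∫⁻ x, liminf (fun k => ENNReal.ofReal (φ (ms k) x ^ 2 / D.ρ x ^ 2)) atTop :=
        lintegral_congr_ae hF
    _ ≤ liminf (fun k => ∫⁻ x, ENNReal.ofReal (φ (ms k) x ^ 2 / D.ρ x ^ 2)) atTop := by
        apply lintegral_liminf_le
        intro k
        have h5 : Measurable (φ (ms k)) := (hφ (ms k)).continuous.measurable
        exact ((h5.pow_const 2).div (D.ρ_meas.pow_const 2)).ennreal_ofReal
    _ ≤ liminf (fun k => ENNReal.ofReal (D.CH * ‖(a (ms k)).2‖ ^ 2)) atTop := by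
        refine liminf_le_liminf (Eventually.of_forall (fun k => ?_)) ?_ ?_
        · have := D.hardy _ (hφ (ms k))
          rwa [hg] at this
        · isBoundedDefault
        · isBoundedDefault
    _ = ENNReal.ofReal (D.CH * ‖w.2‖ ^ 2) := hlim3.liminf_eq

include hq1 hq2

/-- weighted inequality, Bochner version -/
lemma weighted' {p} (hp : p ∈ Sph Ω q) (hpm : ‖p.2‖ ^ 2 = lam Ω q) {w} (hw : w ∈ W Ω) :
    Integrable (fun x => |p.1 x| ^ (q - 2) * w.1 x ^ 2) (volume : Measure E) ∧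
      ∫ x, |p.1 x| ^ (q - 2) * w.1 x ^ 2 ≤ (lam Ω q)⁻¹ * ‖w.2‖ ^ 2 := by
  have hl := D.lam_pos hq1 hq2
  have hm1 := (Lp.memLp p.1).aestronglyMeasurable.aemeasurable
  have hm2 := (Lp.memLp w.1).aestronglyMeasurable.aemeasurable
  apply integrable_of_lintegral_le _ _ (by positivity) (D.weighted hq1 hq2 hp hpm hw)
  · exact ((hm1.abs.pow_const _).mul (hm2.pow_const 2)).aestronglyMeasurable
  · intro x
    positivity

/-- pointwise bound of the weight -/
lemma weight_le {p} (hp : p ∈ Sph Ω q) (hpm : ‖p.2‖ ^ 2 = lam Ω q) {ε : ℝ} (hε : 0 < ε) :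
    ∃ K : ℝ, 0 ≤ K ∧ ∀ᵐ x ∂(volume : Measure E), x ∈ Ω →
      |p.1 x| ^ (q - 2) ≤ ε / D.ρ x ^ 2 + K := by
  obtain ⟨c, hc, hlow⟩ := D.lower_bound hq1 hq2 hp hpm
  -- choose `η` with `c ^ (q-2) * η ^ (2 * (q-1)) = ε`
  have hcq : 0 < c ^ (q - 2) := Real.rpow_pos_of_pos hc _
  set η : ℝ := (ε / c ^ (q - 2)) ^ (1 / (2 * (q - 1))) with hη
  have hη0 : 0 < η := by positivity
  have hη1 : c ^ (q - 2) * η ^ (2 * (q - 1)) = ε := by
    rw [hη, ← Real.rpow_mul (by positivity)]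
    have : 1 / (2 * (q - 1)) * (2 * (q - 1)) = 1 := by
      have : q - 1 ≠ 0 := by linarith
      field_simp
    rw [this, Real.rpow_one]
    field_simp
  refine ⟨c ^ (q - 2) * η ^ (2 * (q - 2)), by positivity, ?_⟩
  filter_upwards [hlow] with x h1 hx
  have h2 := h1 hx
  have hρ := D.ρ_pos x hx
  have h3 : |p.1 x| ^ (q - 2) ≤ (c * D.ρ x ^ 2) ^ (q - 2) :=
    Real.rpow_le_rpow_of_nonpos (by positivity) h2 (by linarith)
  have h4 : (c * D.ρ x ^ 2) ^ (q - 2) = c ^ (q - 2) * D.ρ x ^ (2 * (q - 2)) := by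
    rw [Real.mul_rpow hc.le (by positivity), ← Real.rpow_natCast (D.ρ x) 2,
      ← Real.rpow_mul hρ.le]
    norm_num
  rw [h4] at h3
  refine h3.trans ?_
  rcases lt_or_ge (D.ρ x) η with h5 | h5
  · have h6 : D.ρ x ^ (2 * (q - 2)) = D.ρ x ^ (2 * (q - 1)) / D.ρ x ^ 2 := by
      rw [← Real.rpow_natCast (D.ρ x) 2, ← Real.rpow_sub hρ]
      congr 1
      push_cast
      ring
    have h7 : D.ρ x ^ (2 * (q - 1)) ≤ η ^ (2 * (q - 1)) :=
      Real.rpow_le_rpow hρ.le h5.le (by linarith)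
    have h8 : c ^ (q - 2) * D.ρ x ^ (2 * (q - 2)) ≤ ε / D.ρ x ^ 2 := by
      rw [h6, ← hη1, mul_div_assoc]
      gcongr
    have h9 : 0 ≤ c ^ (q - 2) * η ^ (2 * (q - 2)) := by positivity
    linarith
  · have h7 : D.ρ x ^ (2 * (q - 2)) ≤ η ^ (2 * (q - 2)) :=
      Real.rpow_le_rpow_of_nonpos hη0 h5 (by linarith)
    have h8 : c ^ (q - 2) * D.ρ x ^ (2 * (q - 2)) ≤ c ^ (q - 2) * η ^ (2 * (q - 2)) := by
      gcongr
    have h9 : 0 ≤ ε / D.ρ x ^ 2 := by positivity
    linarith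

/-- key convergence: the weighted integral of a bounded function tending to zero a.e. -/
lemma key_small {p} (hp : p ∈ Sph Ω q) (hpm : ‖p.2‖ ^ 2 = lam Ω q)
    (z : ℕ → Lp ℝ 2 (volume : Measure E) × Lp E 2 (volume : Measure E)) (hz : ∀ n, z n ∈ W Ω)
    (hz1 : ∀ n, ‖(z n).2‖ ≤ 1) {f : Lp ℝ 2 (volume : Measure E)}
    (hzf : Tendsto (fun n => (z n).1) atTop (𝓝 f)) (h : ℕ → E → ℝ)
    (hm : ∀ n, AEMeasurable (h n) (volume : Measure E)) (h0 : ∀ n x, 0 ≤ h n x)
    (h3 : ∀ n x, h n x ≤ 3)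
    (hlim : ∀ᵐ x ∂(volume : Measure E), Tendsto (fun n => h n x) atTop (𝓝 0)) {ε : ℝ}
    (hε : 0 < ε) :
    ∀ᶠ n in atTop, ∫ x, h n x * (|p.1 x| ^ (q - 2) * (z n).1 x ^ 2) < ε := by
  -- first the unweighted convergence
  have hsq : Tendsto (fun n => ∫ x, h n x * (z n).1 x ^ 2) atTop (𝓝 0) := by
    have i1 : Integrable (fun x => f x ^ 2) (volume : Measure E) := (Lp.memLp f).integrable_sq
    have l1 : Tendsto (fun n => ∫ x, h n x * f x ^ 2) atTop (𝓝 0) := by
      have := tendsto_integral_of_dominated_convergence (μ := (volume : Measure E))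
        (F := fun n x => h n x * f x ^ 2) (f := fun _ => (0:ℝ)) (fun x => 3 * f x ^ 2)
        (fun n => ((hm n).mul ((Lp.memLp f).aestronglyMeasurable.aemeasurable.pow_const 2)).aestronglyMeasurable)
        (i1.const_mul 3)
        (fun n => Eventually.of_forall (fun x => by
          rw [Real.norm_of_nonneg (mul_nonneg (h0 n x) (sq_nonneg _))]
          exact mul_le_mul_of_nonneg_right (h3 n x) (sq_nonneg _)))
        (by
          filter_upwards [hlim] with x hx
          simpa using hx.mul_const (f x ^ 2))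
      simpa using this
    have l2 : Tendsto (fun n => ‖(z n).1 - f‖ ^ 2) atTop (𝓝 0) := by
      have := (tendsto_iff_norm_sub_tendsto_zero.mp hzf).pow 2
      simpa using this
    have l3 : Tendsto (fun n => 2 * (∫ x, h n x * f x ^ 2) + 6 * ‖(z n).1 - f‖ ^ 2) atTop (𝓝 0) := by
      simpa using (l1.const_mul 2).add (l2.const_mul 6)
    refine squeeze_zero (fun n => integral_nonneg (fun x => mul_nonneg (h0 n x) (sq_nonneg _)))
      (fun n => ?_) l3
    have i2 : Integrable (fun x => h n x * f x ^ 2) (volume : Measure E) := by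
      refine (i1.const_mul 3).mono
        ((hm n).mul ((Lp.memLp f).aestronglyMeasurable.aemeasurable.pow_const 2)).aestronglyMeasurable
        (Eventually.of_forall (fun x => ?_))
      rw [Real.norm_of_nonneg (mul_nonneg (h0 n x) (sq_nonneg _)),
        Real.norm_of_nonneg (mul_nonneg (by norm_num) (sq_nonneg _))]
      exact mul_le_mul_of_nonneg_right (h3 n x) (sq_nonneg _)
    have i3 : Integrable (fun x => h n x * (z n).1 x ^ 2) (volume : Measure E) := by
      refine ((Lp.memLp (z n).1).integrable_sq.const_mul 3).mono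
        ((hm n).mul ((Lp.memLp (z n).1).aestronglyMeasurable.aemeasurable.pow_const 2)).aestronglyMeasurable
        (Eventually.of_forall (fun x => ?_))
      rw [Real.norm_of_nonneg (mul_nonneg (h0 n x) (sq_nonneg _)),
        Real.norm_of_nonneg (mul_nonneg (by norm_num) (sq_nonneg _))]
      exact mul_le_mul_of_nonneg_right (h3 n x) (sq_nonneg _)
    have i4 : Integrable (fun x => ‖((z n).1 - f : Lp ℝ 2 (volume : Measure E)) x‖ ^ 2)
      (volume : Measure E) := integrable_norm_sq_Lp _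
    rw [norm_sq_Lp, ← integral_const_mul, ← integral_const_mul, ← integral_add (i2.const_mul 2)
      (i4.const_mul 6)]
    refine integral_mono_ae i3 ((i2.const_mul 2).add (i4.const_mul 6)) ?_
    filter_upwards [Lp.coeFn_sub (z n).1 f] with x hx
    rw [hx, Pi.sub_apply, Real.norm_eq_abs, sq_abs]
    have a1 := h0 n x
    have a2 := h3 n x
    have a3 : (z n).1 x ^ 2 ≤ 2 * f x ^ 2 + 2 * ((z n).1 x - f x) ^ 2 := by
      nlinarith [sq_nonneg ((z n).1 x - 2 * f x)]
    calc h n x * (z n).1 x ^ 2 ≤ h n x * (2 * f x ^ 2 + 2 * ((z n).1 x - f x) ^ 2) :=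
          mul_le_mul_of_nonneg_left a3 a1
      _ = 2 * (h n x * f x ^ 2) + h n x * (2 * ((z n).1 x - f x) ^ 2) := by ring
      _ ≤ 2 * (h n x * f x ^ 2) + 3 * (2 * ((z n).1 x - f x) ^ 2) := by gcongr
      _ = _ := by ring
  -- choose the constants
  set δ : ℝ := ε / (6 * (D.CH + 1)) with hδ
  have hCH := D.CH_nonneg
  have hδ0 : 0 < δ := by positivity
  obtain ⟨K, hK, hw⟩ := D.weight_le hq1 hq2 hp hpm hδ0
  have hlimK : Tendsto (fun n => K * ∫ x, h n x * (z n).1 x ^ 2) atTop (𝓝 0) := by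
    simpa using hsq.const_mul K
  filter_upwards [hlimK.eventually_lt_const (show (0:ℝ) < ε / 2 by positivity)] with n hn
  obtain ⟨j1, j2⟩ := D.hardyW (hz n)
  obtain ⟨j3, -⟩ := D.weighted' hq1 hq2 hp hpm (hz n)
  have i3 : Integrable (fun x => h n x * (z n).1 x ^ 2) (volume : Measure E) := by
    refine ((Lp.memLp (z n).1).integrable_sq.const_mul 3).mono
      ((hm n).mul ((Lp.memLp (z n).1).aestronglyMeasurable.aemeasurable.pow_const 2)).aestronglyMeasurable
      (Eventually.of_forall (fun x => ?_))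
    rw [Real.norm_of_nonneg (mul_nonneg (h0 n x) (sq_nonneg _)),
      Real.norm_of_nonneg (mul_nonneg (by norm_num) (sq_nonneg _))]
    exact mul_le_mul_of_nonneg_right (h3 n x) (sq_nonneg _)
  have i5 : Integrable (fun x => h n x * (|p.1 x| ^ (q - 2) * (z n).1 x ^ 2))
      (volume : Measure E) := by
    refine (j3.const_mul 3).mono ((hm n).aestronglyMeasurable.mul j3.aestronglyMeasurable)
      (Eventually.of_forall (fun x => ?_))
    have b1 : 0 ≤ |p.1 x| ^ (q - 2) * (z n).1 x ^ 2 := by positivity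
    rw [Real.norm_of_nonneg (mul_nonneg (h0 n x) b1),
      Real.norm_of_nonneg (mul_nonneg (by norm_num) b1)]
    exact mul_le_mul_of_nonneg_right (h3 n x) b1
  have hfin : ∫ x, h n x * (|p.1 x| ^ (q - 2) * (z n).1 x ^ 2) ≤
      3 * δ * (∫ x, (z n).1 x ^ 2 / D.ρ x ^ 2) + K * ∫ x, h n x * (z n).1 x ^ 2 := by
    rw [← integral_const_mul, ← integral_const_mul, ← integral_add (j1.const_mul _)
      (i3.const_mul _)]
    refine integral_mono_ae i5 ((j1.const_mul _).add (i3.const_mul _)) ?_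
    filter_upwards [hw, D.supp (hz n)] with x hx hs
    by_cases hxΩ : x ∈ Ω
    · have c1 := hx hxΩ
      have c2 := h0 n x
      have c3 := h3 n x
      have c4 : 0 ≤ (z n).1 x ^ 2 := sq_nonneg _
      calc h n x * (|p.1 x| ^ (q - 2) * (z n).1 x ^ 2)
          ≤ h n x * ((δ / D.ρ x ^ 2 + K) * (z n).1 x ^ 2) := by gcongr
        _ = h n x * (δ * ((z n).1 x ^ 2 / D.ρ x ^ 2)) + K * (h n x * (z n).1 x ^ 2) := by ring
        _ ≤ 3 * (δ * ((z n).1 x ^ 2 / D.ρ x ^ 2)) + K * (h n x * (z n).1 x ^ 2) := by gcongr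
        _ = _ := by ring
    · rw [hs hxΩ]
      simp
  have hz2 : ‖(z n).2‖ ^ 2 ≤ 1 := by
    have := hz1 n
    have := norm_nonneg (z n).2
    nlinarith
  have hfin2 : 3 * δ * (∫ x, (z n).1 x ^ 2 / D.ρ x ^ 2) ≤ ε / 2 := by
    have e1 : (∫ x, (z n).1 x ^ 2 / D.ρ x ^ 2) ≤ D.CH + 1 := by
      have : D.CH * ‖(z n).2‖ ^ 2 ≤ D.CH * 1 := mul_le_mul_of_nonneg_left hz2 hCH
      linarith
    calc 3 * δ * (∫ x, (z n).1 x ^ 2 / D.ρ x ^ 2) ≤ 3 * δ * (D.CH + 1) := by gcongr
      _ = ε / 2 := by rw [hδ]; field_simp; ring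
  linarith

/-- eigenpairs: solutions with `‖v‖_q = 1`. -/
def _root_.Pool.Agent.MP_0fb79d_an.EigPair (Ω : Set E) (q : ℝ)
    (v : Lp ℝ 2 (volume : Measure E) × Lp E 2 (volume : Measure E)) : Prop :=
  v ∈ Sph Ω q ∧ ∀ w ∈ W Ω, ⟪v.2, w.2⟫ = ‖v.2‖ ^ 2 * ∫ x, nl q (v.1 x) * w.1 x

lemma eigPair_of_min {p} (hp : p ∈ Sph Ω q) (hpm : ‖p.2‖ ^ 2 = lam Ω q) : EigPair Ω q p := by
  refine ⟨hp, fun w hw => ?_⟩
  rw [hpm]
  exact D.euler_lagrange hq1 hq2 hp hpm hw

/-- Isolation theorem. -/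
theorem isolation {p} (hp : p ∈ Sph Ω q) (hpm : ‖p.2‖ ^ 2 = lam Ω q)
    (v : ℕ → Lp ℝ 2 (volume : Measure E) × Lp E 2 (volume : Measure E))
    (hv : ∀ n, EigPair Ω q (v n)) (hv1 : Tendsto (fun n => (v n).1) atTop (𝓝 p.1))
    (hv2 : Tendsto (fun n => ‖(v n).2‖ ^ 2) atTop (𝓝 (lam Ω q))) : ∃ n, v n = p := by
  by_contra hcon
  push Not at hcon
  have hl := D.lam_pos hq1 hq2
  set L := lam Ω q with hL
  have h2q : 0 < 2 - q := by linarith
  set c : ℕ → ℝ := fun n => (‖(v n).2‖ ^ 2 / L) ^ (1 / (2 - q)) with hc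
  have hLn : ∀ n, L ≤ ‖(v n).2‖ ^ 2 := fun n => D.lam_le (hv n).1
  have hc1 : ∀ n, 1 ≤ c n := by
    intro n
    apply Real.one_le_rpow _ (by positivity)
    rw [one_le_div hl]
    exact hLn n
  have hc0 : ∀ n, 0 < c n := fun n => lt_of_lt_of_le one_pos (hc1 n)
  have hcq : ∀ n, c n ^ (2 - q) = ‖(v n).2‖ ^ 2 / L := by
    intro n
    rw [hc]
    simp only []
    rw [← Real.rpow_mul (by positivity)]
    have : 1 / (2 - q) * (2 - q) = 1 := by field_simp
    rw [this, Real.rpow_one]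
  have hclim : Tendsto c atTop (𝓝 1) := by
    have h1 : Tendsto (fun n => ‖(v n).2‖ ^ 2 / L) atTop (𝓝 1) := by
      have := hv2.div_const L
      rwa [div_self hl.ne'] at this
    have h2 := h1.rpow_const (p := 1 / (2 - q)) (Or.inl one_ne_zero)
    rwa [Real.one_rpow] at h2
  -- the difference
  set w : ℕ → Lp ℝ 2 (volume : Measure E) × Lp E 2 (volume : Measure E) :=
    fun n => c n • p - v n with hw
  have hwW : ∀ n, w n ∈ W Ω := fun n => (W Ω).sub_mem ((W Ω).smul_mem _ hp.1) (hv n).1.1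
  have hw1 : ∀ n, (w n).1 =ᵐ[volume] fun x => c n * p.1 x - (v n).1 x := by
    intro n
    have e : (w n).1 = c n • p.1 - (v n).1 := rfl
    rw [e]
    filter_upwards [Lp.coeFn_sub (c n • p.1) (v n).1, Lp.coeFn_smul (c n) p.1] with x h1 h2
    rw [h1, Pi.sub_apply, h2, Pi.smul_apply, smul_eq_mul]
  -- the energy identity
  have hEu : ∀ n, ∀ r ∈ W Ω, ⟪(c n • p).2, r.2⟫ =
      ‖(v n).2‖ ^ 2 * ∫ x, nl q (c n * p.1 x) * r.1 x := by
    intro n r hr
    have e1 : ∀ x, nl q (c n * p.1 x) * r.1 x = c n ^ (q - 1) * (nl q (p.1 x) * r.1 x) := by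
      intro x
      rw [nl_mul, nl_of_pos hq1 (hc0 n).le]
      ring
    simp_rw [e1]
    rw [integral_const_mul, Prod.smul_snd, real_inner_smul_left,
      D.euler_lagrange hq1 hq2 hp hpm hr]
    have e2 : ‖(v n).2‖ ^ 2 = c n ^ (2 - q) * L := by
      rw [hcq]; field_simp
    have e3 : c n ^ (2 - q) * c n ^ (q - 1) = c n := by
      rw [← Real.rpow_add (hc0 n)]
      have : 2 - q + (q - 1) = 1 := by ring
      rw [this, Real.rpow_one]
    rw [e2]
    calc c n * (L * ∫ x, nl q (p.1 x) * r.1 x)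
        = (c n ^ (2 - q) * c n ^ (q - 1)) * (L * ∫ x, nl q (p.1 x) * r.1 x) := by rw [e3]
      _ = _ := by ring
  have hnz := D.ne_zero_of_min hq1 hq2 hp hpm
  have hps := D.supp hp.1
  have hen : ∀ n, ‖(w n).2‖ ^ 2 = ‖(v n).2‖ ^ 2 *
      ∫ x, |c n * p.1 x| ^ (q - 2) * G q ((v n).1 x / (c n * p.1 x)) * (w n).1 x ^ 2 := by
    intro n
    have e1 : (w n).2 = (c n • p).2 - (v n).2 := rfl
    have i1 : Integrable (fun x => nl q (c n * p.1 x) * (w n).1 x) (volume : Measure E) := by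
      have i0 := (D.integrable_nl_mul hq1 hq2 hps (w n).1).const_mul (c n ^ (q - 1))
      refine i0.congr (Eventually.of_forall (fun x => ?_))
      simp only []
      rw [nl_mul, nl_of_pos hq1 (hc0 n).le]
      ring
    have i2 : Integrable (fun x => nl q ((v n).1 x) * (w n).1 x) (volume : Measure E) :=
      D.integrable_nl_mul hq1 hq2 (D.supp (hv n).1.1) _
    calc ‖(w n).2‖ ^ 2 = ⟪(w n).2, (w n).2⟫ := (real_inner_self_eq_norm_sq _).symm
      _ = ⟪(c n • p).2, (w n).2⟫ - ⟪(v n).2, (w n).2⟫ := by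
          conv_lhs => rw [e1]
          rw [inner_sub_left, ← e1]
      _ = ‖(v n).2‖ ^ 2 * (∫ x, nl q (c n * p.1 x) * (w n).1 x) -
          ‖(v n).2‖ ^ 2 * (∫ x, nl q ((v n).1 x) * (w n).1 x) := by
          rw [hEu n _ (hwW n), (hv n).2 _ (hwW n)]
      _ = ‖(v n).2‖ ^ 2 * ∫ x, (nl q (c n * p.1 x) * (w n).1 x - nl q ((v n).1 x) * (w n).1 x) := by
          rw [integral_sub i1 i2]; ring
      _ = _ := by
          congr 1
          apply integral_congr_ae
          filter_upwards [hw1 n, hnz, hps, D.supp (hv n).1.1] with x h1 h2 h3 h4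
          by_cases hx : x ∈ Ω
          · have hne : c n * p.1 x ≠ 0 := mul_ne_zero (hc0 n).ne' (h2 hx)
            have := nl_sub_mul (q := q) hne ((v n).1 x)
            rw [← h1] at this
            linarith
          · have : (w n).1 x = 0 := by rw [h1, h3 hx, h4 hx]; ring
            rw [this]
            ring
  -- positivity of the norm
  have hN : ∀ n, 0 < ‖(w n).2‖ := by
    intro n
    rw [norm_pos_iff]
    intro h0
    have hpo := poincare D.rad_nonneg D.sub_ball (hwW n)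
    rw [h0, norm_zero] at hpo
    have h1 : (w n).1 = 0 := by
      rw [← norm_eq_zero]
      nlinarith [norm_nonneg (w n).1]
    have h2 : c n • p = v n := by
      rw [← sub_eq_zero]
      exact Prod.ext h1 h0
    have h3 : c n = 1 := by
      have := (hv n).1.2
      rw [← h2, Prod.smul_fst, qNorm_smul (by linarith), hp.2, mul_one,
        abs_of_pos (hc0 n)] at this
      exact this
    rw [h3, one_smul] at h2
    exact hcon n h2.symm
  set z : ℕ → Lp ℝ 2 (volume : Measure E) × Lp E 2 (volume : Measure E) :=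
    fun n => ‖(w n).2‖⁻¹ • w n with hz
  have hzW : ∀ n, z n ∈ W Ω := fun n => (W Ω).smul_mem _ (hwW n)
  have hz1 : ∀ n, ‖(z n).2‖ = 1 := by
    intro n
    rw [hz]
    simp only []
    rw [Prod.smul_snd, norm_smul, norm_inv, norm_norm, inv_mul_cancel₀ (hN n).ne']
  have hz2 : ∀ n, (z n).1 =ᵐ[volume] fun x => ‖(w n).2‖⁻¹ * (w n).1 x := by
    intro n
    filter_upwards [Lp.coeFn_smul ‖(w n).2‖⁻¹ (w n).1] with x hx
    rw [hz]
    simp only []
    rw [Prod.smul_fst, hx, Pi.smul_apply, smul_eq_mul]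
  have hone : ∀ n, 1 = ‖(v n).2‖ ^ 2 *
      ∫ x, |c n * p.1 x| ^ (q - 2) * G q ((v n).1 x / (c n * p.1 x)) * (z n).1 x ^ 2 := by
    intro n
    have e1 : ∫ x, |c n * p.1 x| ^ (q - 2) * G q ((v n).1 x / (c n * p.1 x)) * (z n).1 x ^ 2 =
        ‖(w n).2‖⁻¹ ^ 2 *
        ∫ x, |c n * p.1 x| ^ (q - 2) * G q ((v n).1 x / (c n * p.1 x)) * (w n).1 x ^ 2 := by
      rw [← integral_const_mul]
      apply integral_congr_ae
      filter_upwards [hz2 n] with x hx
      rw [hx]
      ring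
    rw [e1, mul_left_comm, ← hen n, inv_pow, inv_mul_cancel₀ (pow_ne_zero 2 (hN n).ne')]
  -- extraction
  obtain ⟨ns, hns, f, hf⟩ := rellich D.rad_nonneg D.sub_ball z hzW 1
    (fun n => by rw [hz1 n, one_pow])
  obtain ⟨ms, hms, hae⟩ := exists_ae_subseq (hv1.comp hns.tendsto_atTop)
  simp only [Function.comp_apply] at hae
  set ks : ℕ → ℕ := fun k => ns (ms k) with hks
  have hksm : StrictMono ks := hns.comp hms
  have hzk : Tendsto (fun k => (z (ks k)).1) atTop (𝓝 f) := hf.comp hms.tendsto_atTop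
  set h : ℕ → E → ℝ := fun k => Ω.indicator (fun x =>
    |G q ((v (ks k)).1 x / (c (ks k) * p.1 x)) - (q - 1)|) with hh
  have hmeasp := (Lp.memLp p.1).aestronglyMeasurable.aemeasurable
  have hmG : ∀ n, AEMeasurable (fun x => G q ((v n).1 x / (c n * p.1 x)))
      (volume : Measure E) := by
    intro n
    have m1 := (Lp.memLp (v n).1).aestronglyMeasurable.aemeasurable
    exact (measurable_G q).comp_aemeasurable (m1.div (hmeasp.const_mul _))
  have hhm : ∀ k, AEMeasurable (h k) (volume : Measure E) := by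
    intro k
    exact (((hmG (ks k)).sub_const _).abs).indicator D.meas
  have hh0 : ∀ k x, 0 ≤ h k x := fun k x => indicator_nonneg (fun _ _ => abs_nonneg _) x
  have hb : ∀ s, |G q s - (q - 1)| ≤ 3 := by
    intro s
    have h1 := abs_G_le hq1 hq2 s
    have h2 : |G q s - (q - 1)| ≤ |G q s| + |q - 1| := abs_sub _ _
    have h3 : |q - 1| ≤ 1 := by rw [abs_of_pos (by linarith)]; linarith
    linarith
  have hh3 : ∀ k x, h k x ≤ 3 := by
    intro k x
    by_cases hx : x ∈ Ω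
    · simp only [hh, indicator_of_mem hx]
      exact hb _
    · simp only [hh, indicator_of_notMem hx]
      norm_num
  have hhlim : ∀ᵐ x ∂(volume : Measure E), Tendsto (fun k => h k x) atTop (𝓝 0) := by
    filter_upwards [hae, hnz] with x h1 h2
    by_cases hx : x ∈ Ω
    · simp only [hh, indicator_of_mem hx]
      have hne := h2 hx
      have t1 : Tendsto (fun k => c (ks k) * p.1 x) atTop (𝓝 (1 * p.1 x)) :=
        (hclim.comp hksm.tendsto_atTop).mul_const _
      have t2 : Tendsto (fun k => (v (ks k)).1 x / (c (ks k) * p.1 x)) atTop (𝓝 1) := by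
        have := h1.div t1 (by rwa [one_mul])
        rwa [one_mul, div_self hne] at this
      have t3 : Tendsto (fun k => G q ((v (ks k)).1 x / (c (ks k) * p.1 x))) atTop
          (𝓝 (q - 1)) := by
        have := (continuousAt_G hq1).tendsto.comp t2
        rwa [G_one hq1] at this
      have t4 := (t3.sub_const (q - 1)).abs
      simpa using t4
    · simp only [hh, indicator_of_notMem hx]
      exact tendsto_const_nhds
  -- the key estimate
  have hest : ∀ k, 1 ≤ ‖(v (ks k)).2‖ ^ 2 * ((q - 1) * L⁻¹ +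
      ∫ x, h k x * (|p.1 x| ^ (q - 2) * (z (ks k)).1 x ^ 2)) := by
    intro k
    obtain ⟨j3, j4⟩ := D.weighted' hq1 hq2 hp hpm (hzW (ks k))
    have i5 : Integrable (fun x => h k x * (|p.1 x| ^ (q - 2) * (z (ks k)).1 x ^ 2))
        (volume : Measure E) := by
      refine (j3.const_mul 3).mono ((hhm k).aestronglyMeasurable.mul j3.aestronglyMeasurable)
        (Eventually.of_forall (fun x => ?_))
      have b1 : 0 ≤ |p.1 x| ^ (q - 2) * (z (ks k)).1 x ^ 2 := by positivity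
      rw [Real.norm_of_nonneg (mul_nonneg (hh0 k x) b1),
        Real.norm_of_nonneg (mul_nonneg (by norm_num) b1)]
      exact mul_le_mul_of_nonneg_right (hh3 k x) b1
    have i6 : Integrable (fun x => |c (ks k) * p.1 x| ^ (q - 2) *
        G q ((v (ks k)).1 x / (c (ks k) * p.1 x)) * (z (ks k)).1 x ^ 2) (volume : Measure E) := by
      have m3 := (Lp.memLp (z (ks k)).1).aestronglyMeasurable.aemeasurable
      refine (j3.const_mul (c (ks k) ^ (q - 2) * 2)).mono
        (((((hmeasp.const_mul _).abs.pow_const _).mul (hmG (ks k))).mul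
          (m3.pow_const 2)).aestronglyMeasurable)
        (Eventually.of_forall (fun x => ?_))
      have b1 : 0 ≤ |p.1 x| ^ (q - 2) * (z (ks k)).1 x ^ 2 := by positivity
      have b2 : 0 < c (ks k) ^ (q - 2) := Real.rpow_pos_of_pos (hc0 _) _
      rw [Real.norm_eq_abs, abs_mul, abs_mul, abs_mul, abs_of_pos (hc0 (ks k)),
        Real.mul_rpow (hc0 _).le (abs_nonneg _),
        Real.norm_of_nonneg (mul_nonneg (by positivity) b1),
        abs_of_nonneg (mul_nonneg b2.le (Real.rpow_nonneg (abs_nonneg _) _)),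
        abs_of_nonneg (sq_nonneg ((z (ks k)).1 x))]
      have b3 := abs_G_le hq1 hq2 ((v (ks k)).1 x / (c (ks k) * p.1 x))
      calc c (ks k) ^ (q - 2) * |p.1 x| ^ (q - 2) *
            |G q ((v (ks k)).1 x / (c (ks k) * p.1 x))| * (z (ks k)).1 x ^ 2
          = (c (ks k) ^ (q - 2) * (|p.1 x| ^ (q - 2) * (z (ks k)).1 x ^ 2)) *
            |G q ((v (ks k)).1 x / (c (ks k) * p.1 x))| := by ring
        _ ≤ (c (ks k) ^ (q - 2) * (|p.1 x| ^ (q - 2) * (z (ks k)).1 x ^ 2)) * 2 := by gcongr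
        _ = _ := by ring
    have hmain : ∫ x, |c (ks k) * p.1 x| ^ (q - 2) *
        G q ((v (ks k)).1 x / (c (ks k) * p.1 x)) * (z (ks k)).1 x ^ 2 ≤
        (q - 1) * (∫ x, |p.1 x| ^ (q - 2) * (z (ks k)).1 x ^ 2) +
          ∫ x, h k x * (|p.1 x| ^ (q - 2) * (z (ks k)).1 x ^ 2) := by
      rw [← integral_const_mul, ← integral_add (j3.const_mul _) i5]
      refine integral_mono_ae i6 ((j3.const_mul _).add i5) ?_
      filter_upwards [D.supp (hzW (ks k))] with x hs
      by_cases hx : x ∈ Ω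
      · have e1 : h k x = |G q ((v (ks k)).1 x / (c (ks k) * p.1 x)) - (q - 1)| := by
          simp only [hh, indicator_of_mem hx]
        have b1 : 0 ≤ |p.1 x| ^ (q - 2) * (z (ks k)).1 x ^ 2 := by positivity
        have b2 : 0 < c (ks k) ^ (q - 2) := Real.rpow_pos_of_pos (hc0 _) _
        have b3 : c (ks k) ^ (q - 2) ≤ 1 :=
          Real.rpow_le_one_of_one_le_of_nonpos (hc1 _) (by linarith)
        have b4 : G q ((v (ks k)).1 x / (c (ks k) * p.1 x)) ≤ (q - 1) + h k x := by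
          rw [e1]
          have := le_abs_self (G q ((v (ks k)).1 x / (c (ks k) * p.1 x)) - (q - 1))
          linarith
        have b5 : 0 ≤ (q - 1) + h k x := by
          have := hh0 k x
          linarith
        rw [abs_mul, abs_of_pos (hc0 (ks k)), Real.mul_rpow (hc0 _).le (abs_nonneg _)]
        calc c (ks k) ^ (q - 2) * |p.1 x| ^ (q - 2) *
              G q ((v (ks k)).1 x / (c (ks k) * p.1 x)) * (z (ks k)).1 x ^ 2
            = (c (ks k) ^ (q - 2) * (|p.1 x| ^ (q - 2) * (z (ks k)).1 x ^ 2)) *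
              G q ((v (ks k)).1 x / (c (ks k) * p.1 x)) := by ring
          _ ≤ (c (ks k) ^ (q - 2) * (|p.1 x| ^ (q - 2) * (z (ks k)).1 x ^ 2)) *
              ((q - 1) + h k x) := by gcongr
          _ ≤ (1 * (|p.1 x| ^ (q - 2) * (z (ks k)).1 x ^ 2)) * ((q - 1) + h k x) := by gcongr
          _ = _ := by ring
      · rw [hs hx]
        simp
    have hvn : 0 ≤ ‖(v (ks k)).2‖ ^ 2 := by positivity
    have hq10 : 0 ≤ q - 1 := by linarith
    calc (1:ℝ) = ‖(v (ks k)).2‖ ^ 2 * ∫ x, |c (ks k) * p.1 x| ^ (q - 2) *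
        G q ((v (ks k)).1 x / (c (ks k) * p.1 x)) * (z (ks k)).1 x ^ 2 := hone (ks k)
      _ ≤ ‖(v (ks k)).2‖ ^ 2 * ((q - 1) * (∫ x, |p.1 x| ^ (q - 2) * (z (ks k)).1 x ^ 2) +
          ∫ x, h k x * (|p.1 x| ^ (q - 2) * (z (ks k)).1 x ^ 2)) := by gcongr
      _ ≤ _ := by
          rw [hz1 (ks k), one_pow, mul_one] at j4
          gcongr
  -- conclusion
  set ε : ℝ := (2 - q) / (2 * L) with hε
  have hε0 : 0 < ε := by positivity
  have hev := D.key_small hq1 hq2 hp hpm (fun k => z (ks k)) (fun k => hzW _)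
    (fun k => (hz1 (ks k)).le) hzk h hhm hh0 hh3 hhlim hε0
  have hlim2 : Tendsto (fun k => ‖(v (ks k)).2‖ ^ 2 * ((q - 1) * L⁻¹ + ε)) atTop
      (𝓝 (L * ((q - 1) * L⁻¹ + ε))) := (hv2.comp hksm.tendsto_atTop).mul_const _
  have hge : (1:ℝ) ≤ L * ((q - 1) * L⁻¹ + ε) := by
    apply ge_of_tendsto hlim2
    filter_upwards [hev] with k hk
    refine (hest k).trans ?_
    have hvn : 0 ≤ ‖(v (ks k)).2‖ ^ 2 := by positivity
    gcongr
  have : L * ((q - 1) * L⁻¹ + ε) = (q - 1) + (2 - q) / 2 := by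
    rw [hε]; field_simp
  rw [this] at hge
  linarith

/-- the first eigenvalue is isolated among the eigenvalues -/
theorem isolated_spec : ∃ δ : ℝ, 0 < δ ∧ ∀ v, EigPair Ω q v → ‖v.2‖ ^ 2 < lam Ω q + δ →
    ‖v.2‖ ^ 2 = lam Ω q := by
  by_contra hcon
  push Not at hcon
  have hex : ∀ n : ℕ, ∃ v, EigPair Ω q v ∧ ‖v.2‖ ^ 2 < lam Ω q + 1 / ((n : ℝ) + 1) ∧
      ‖v.2‖ ^ 2 ≠ lam Ω q := fun n => by
    obtain ⟨v, h1, h2, h3⟩ := hcon (1 / ((n : ℝ) + 1)) (by positivity)
    exact ⟨v, h1, h2, h3⟩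
  choose v hv hv1 hv2 using hex
  have hlim : Tendsto (fun n : ℕ => lam Ω q + 1 / ((n : ℝ) + 1)) atTop (𝓝 (lam Ω q)) := by
    have := (tendsto_one_div_add_atTop_nhds_zero_nat (𝕜 := ℝ)).const_add (lam Ω q)
    simpa using this
  obtain ⟨ns, hns, p, hp, hpl, hpm⟩ := D.compactness_sph hq1 hq2 v (fun n => (hv n).1) _
    (fun n => (hv1 n).le) hlim
  have hE : Tendsto (fun n => ‖(v n).2‖ ^ 2) atTop (𝓝 (lam Ω q)) :=
    tendsto_of_tendsto_of_tendsto_of_le_of_le tendsto_const_nhds hlim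
      (fun n => D.lam_le (hv n).1) (fun n => (hv1 n).le)
  obtain ⟨k, hk⟩ := D.isolation hq1 hq2 hp hpm (fun k => v (ns k)) (fun k => hv _) hpl
    (hE.comp hns.tendsto_atTop)
  have := hv2 (ns k)
  rw [hk, hpm] at this
  exact this rfl

/-- minimizers are uniformly separated -/
theorem separated : ∃ d : ℝ, 0 < d ∧ ∀ p p', p ∈ Sph Ω q → ‖p.2‖ ^ 2 = lam Ω q → p' ∈ Sph Ω q →
    ‖p'.2‖ ^ 2 = lam Ω q → ‖p.1 - p'.1‖ < d → p = p' := by
  by_contra hcon
  push Not at hcon
  have hex : ∀ n : ℕ, ∃ p p', p ∈ Sph Ω q ∧ ‖p.2‖ ^ 2 = lam Ω q ∧ p' ∈ Sph Ω q ∧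
      ‖p'.2‖ ^ 2 = lam Ω q ∧ ‖p.1 - p'.1‖ < 1 / ((n : ℝ) + 1) ∧ p ≠ p' := fun n => by
    obtain ⟨p, p', h1, h2, h3, h4, h5, h6⟩ := hcon (1 / ((n : ℝ) + 1)) (by positivity)
    exact ⟨p, p', h1, h2, h3, h4, h5, h6⟩
  choose a b ha ha1 hb hb1 hab hne using hex
  obtain ⟨ns, hns, p, hp, hpl, hpm⟩ := D.compactness_sph hq1 hq2 a ha (fun _ => lam Ω q)
    (fun n => (ha1 n).le) tendsto_const_nhds
  have hdiff : Tendsto (fun k => ‖(a (ns k)).1 - (b (ns k)).1‖) atTop (𝓝 0) := by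
    have h1 : Tendsto (fun n : ℕ => 1 / ((n : ℝ) + 1)) atTop (𝓝 0) :=
      tendsto_one_div_add_atTop_nhds_zero_nat
    exact squeeze_zero (fun k => norm_nonneg _) (fun k => (hab (ns k)).le)
      (h1.comp hns.tendsto_atTop)
  have hbl : Tendsto (fun k => (b (ns k)).1) atTop (𝓝 p.1) := by
    have h2 := hpl.sub (tendsto_zero_iff_norm_tendsto_zero.mpr hdiff)
    simpa using h2
  classical
  set v : ℕ → Lp ℝ 2 (volume : Measure E) × Lp E 2 (volume : Measure E) :=
    fun k => if a (ns k) = p then b (ns k) else a (ns k) with hv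
  have hvp : ∀ k, v k ≠ p := by
    intro k
    by_cases h : a (ns k) = p
    · simp only [hv, if_pos h]
      rw [← h]
      exact (hne _).symm
    · simp only [hv, if_neg h]
      exact h
  have hvl : Tendsto (fun k => (v k).1) atTop (𝓝 p.1) := by
    rw [Metric.tendsto_atTop] at hpl hbl ⊢
    intro ε hε
    obtain ⟨N1, hN1⟩ := hpl ε hε
    obtain ⟨N2, hN2⟩ := hbl ε hε
    refine ⟨max N1 N2, fun k hk => ?_⟩
    by_cases h : a (ns k) = p
    · simp only [hv, if_pos h]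
      exact hN2 k ((le_max_right _ _).trans hk)
    · simp only [hv, if_neg h]
      exact hN1 k ((le_max_left _ _).trans hk)
  have hvm : ∀ k, v k ∈ Sph Ω q ∧ ‖(v k).2‖ ^ 2 = lam Ω q := by
    intro k
    by_cases h : a (ns k) = p
    · simp only [hv, if_pos h]
      exact ⟨hb _, hb1 _⟩
    · simp only [hv, if_neg h]
      exact ⟨ha _, ha1 _⟩
  obtain ⟨k, hk⟩ := D.isolation hq1 hq2 hp hpm v
    (fun k => D.eigPair_of_min hq1 hq2 (hvm k).1 (hvm k).2) hvl (by
      simp only [(hvm _).2]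
      exact tendsto_const_nhds)
  exact hvp k hk

/-- functions of almost minimal energy are close to minimizers -/
theorem near_min {d : ℝ} (hd : 0 < d) : ∃ δ : ℝ, 0 < δ ∧ ∀ v ∈ Sph Ω q,
    ‖v.2‖ ^ 2 < lam Ω q + δ → ∃ p ∈ Sph Ω q, ‖p.2‖ ^ 2 = lam Ω q ∧ ‖v.1 - p.1‖ < d := by
  by_contra hcon
  push Not at hcon
  have hex : ∀ n : ℕ, ∃ v ∈ Sph Ω q, ‖v.2‖ ^ 2 < lam Ω q + 1 / ((n : ℝ) + 1) ∧
      ∀ p ∈ Sph Ω q, ‖p.2‖ ^ 2 = lam Ω q → d ≤ ‖v.1 - p.1‖ := fun n => by
    obtain ⟨v, h1, h2, h3⟩ := hcon (1 / ((n : ℝ) + 1)) (by positivity)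
    exact ⟨v, h1, h2, h3⟩
  choose v hv hv1 hv2 using hex
  have hlim : Tendsto (fun n : ℕ => lam Ω q + 1 / ((n : ℝ) + 1)) atTop (𝓝 (lam Ω q)) := by
    have := (tendsto_one_div_add_atTop_nhds_zero_nat (𝕜 := ℝ)).const_add (lam Ω q)
    simpa using this
  obtain ⟨ns, hns, p, hp, hpl, hpm⟩ := D.compactness_sph hq1 hq2 v hv _
    (fun n => (hv1 n).le) hlim
  have h1 := (Metric.tendsto_atTop.mp hpl) d hd
  obtain ⟨N, hN⟩ := h1
  have h2 := hN N le_rfl
  rw [dist_eq_norm] at h2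
  exact absurd (hv2 (ns N) p hp hpm) (not_le.mpr h2)

end GoodData

end Pool.Agent.MP_0fb79d_an
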