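import Pool.Agent.Lib_MP_0fb79d_an.Variational

/-!
Lower bound for minimizers and the weighted inequality.
-/

open MeasureTheory Filter Topology Set
open scoped ENNReal ContDiff RealInnerProductSpace

set_option linter.unusedSectionVars false

noncomputable section

namespace Pool.Agent.MP_0fb79d_an

variable {E : Type*} [NormedAddCommGroup E] [InnerProductSpace ℝ E] [FiniteDimensional ℝ E]
  [CompleteSpace E] [MeasurableSpace E] [BorelSpace E]

namespace GoodData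

variable {Ω : Set E} (D : GoodData Ω) {q : ℝ} (hq1 : 1 < q) (hq2 : q < 2) [Nontrivial E]

include D hq1 hq2

omit [Nontrivial E] in
/-- the sub-solution inequality -/
lemma exists_Kg : ∃ K : ℝ, 0 ≤ K ∧ ∀ x ∈ Ω, D.g x ≤ K * (D.ρ x ^ 2) ^ (q - 1) := by
  have hρ0 := D.ρ0_pos
  have hB : 0 ≤ D.Bg := by
    obtain ⟨x, -⟩ := D.nonempty
    exact (abs_nonneg _).trans (D.g_bdd x)
  refine ⟨D.Bg / (D.ρ0 ^ 2) ^ (q - 1), by positivity, fun x hx => ?_⟩
  have hρ := D.ρ_pos x hx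
  rcases lt_or_ge (D.ρ x) D.ρ0 with h | h
  · refine (D.g_nonpos x hx h).trans (by positivity)
  · have h1 : (D.ρ0 ^ 2) ^ (q - 1) ≤ (D.ρ x ^ 2) ^ (q - 1) := by
      apply Real.rpow_le_rpow (by positivity) _ (by linarith)
      exact pow_le_pow_left₀ hρ0.le h 2
    calc D.g x ≤ |D.g x| := le_abs_self _
      _ ≤ D.Bg := D.g_bdd x
      _ = D.Bg / (D.ρ0 ^ 2) ^ (q - 1) * (D.ρ0 ^ 2) ^ (q - 1) := by
          have : (D.ρ0 ^ 2) ^ (q - 1) ≠ 0 := by positivity
          field_simp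
      _ ≤ _ := by
          apply mul_le_mul_of_nonneg_left h1
          positivity

/-- lower bound for nonnegative minimizers -/
theorem lower_bound_nonneg {p} (hp : p ∈ Sph Ω q) (hpm : ‖p.2‖ ^ 2 = lam Ω q)
    (hpos : ∀ᵐ x ∂(volume : Measure E), 0 ≤ p.1 x) :
    ∃ c : ℝ, 0 < c ∧ ∀ᵐ x ∂(volume : Measure E), x ∈ Ω → c * D.ρ x ^ 2 ≤ p.1 x := by
  have hq0 : 0 < q := by linarith
  have hl := D.lam_pos hq1 hq2
  obtain ⟨K, hK0, hK⟩ := D.exists_Kg hq1 hq2
  -- choice of c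
  obtain ⟨c, hc, hcK⟩ : ∃ c : ℝ, 0 < c ∧ c ^ (2 - q) * K ≤ lam Ω q / q := by
    have ht : Tendsto (fun c : ℝ => c ^ (2 - q) * K) (𝓝[>] 0) (𝓝 (0 ^ (2 - q) * K)) := by
      apply Tendsto.mono_left _ nhdsWithin_le_nhds
      exact ((Real.continuousAt_rpow_const 0 (2 - q) (Or.inr (by linarith))).tendsto).mul_const K
    rw [Real.zero_rpow (by linarith), zero_mul] at ht
    have h1 := ht.eventually (gt_mem_nhds (show (0:ℝ) < lam Ω q / q by positivity))
    have h2 : ∀ᶠ c : ℝ in 𝓝[>] 0, 0 < c := eventually_mem_nhdsWithin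
    obtain ⟨c, h3, h4⟩ := (h1.and h2).exists
    exact ⟨c, h4, h3.le⟩
  refine ⟨c, hc, ?_⟩
  set ψ : Lp ℝ 2 (volume : Measure E) × Lp E 2 (volume : Measure E) := c • D.psi with hψ
  have hψW : ψ ∈ W Ω := (W Ω).smul_mem _ D.psi_mem
  have hψ1 : ψ.1 =ᵐ[volume] Ω.indicator (fun x => c * D.ρ x ^ 2) := by
    filter_upwards [Lp.coeFn_smul c D.psi.1, D.psi_fst] with x h1 h2
    rw [hψ, Prod.smul_fst, h1, Pi.smul_apply, h2]
    by_cases hx : x ∈ Ω <;> simp [hx]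
  obtain ⟨r, hr, hr1, hr2⟩ := abs_mem_W D.meas D.fin ((W Ω).sub_mem hψW hp.1)
  set m : Lp ℝ 2 (volume : Measure E) × Lp E 2 (volume : Measure E) :=
    (1/2 : ℝ) • (p + ψ + r) with hm
  set n : Lp ℝ 2 (volume : Measure E) × Lp E 2 (volume : Measure E) :=
    (1/2 : ℝ) • (p + ψ - r) with hn
  have hmW : m ∈ W Ω := (W Ω).smul_mem _ ((W Ω).add_mem ((W Ω).add_mem hp.1 hψW) hr)
  have hnW : n ∈ W Ω := (W Ω).smul_mem _ ((W Ω).sub_mem ((W Ω).add_mem hp.1 hψW) hr)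
  -- pointwise descriptions
  have hr1' : r.1 =ᵐ[volume] fun x => |ψ.1 x - p.1 x| := by
    filter_upwards [hr1, Lp.coeFn_sub ψ.1 p.1] with x h1 h2
    rw [h1, Prod.fst_sub, h2, Pi.sub_apply]
  have hm1 : m.1 =ᵐ[volume] fun x => max (p.1 x) (ψ.1 x) := by
    filter_upwards [hr1', Lp.coeFn_smul (1/2 : ℝ) (p + ψ + r).1, Lp.coeFn_add (p + ψ).1 r.1,
      Lp.coeFn_add p.1 ψ.1] with x h1 h2 h3 h4
    rw [hm, Prod.smul_fst, h2, Pi.smul_apply, Prod.fst_add, h3, Pi.add_apply, Prod.fst_add, h4,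
      Pi.add_apply, h1, smul_eq_mul]
    rcases le_total (p.1 x) (ψ.1 x) with h | h
    · rw [max_eq_right h, abs_of_nonneg (by linarith)]; ring
    · rw [max_eq_left h, abs_of_nonpos (by linarith)]; ring
  have hn1 : n.1 =ᵐ[volume] fun x => min (p.1 x) (ψ.1 x) := by
    filter_upwards [hr1', Lp.coeFn_smul (1/2 : ℝ) (p + ψ - r).1, Lp.coeFn_sub (p + ψ).1 r.1,
      Lp.coeFn_add p.1 ψ.1] with x h1 h2 h3 h4
    rw [hn, Prod.smul_fst, h2, Pi.smul_apply, Prod.fst_sub, h3, Pi.sub_apply, Prod.fst_add, h4,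
      Pi.add_apply, h1, smul_eq_mul]
    rcases le_total (p.1 x) (ψ.1 x) with h | h
    · rw [min_eq_left h, abs_of_nonneg (by linarith)]; ring
    · rw [min_eq_right h, abs_of_nonpos (by linarith)]; ring
  -- energies
  have hen : ‖m.2‖ ^ 2 + ‖n.2‖ ^ 2 ≤ ‖p.2‖ ^ 2 + ‖ψ.2‖ ^ 2 := by
    have e1 : m.2 = (1/2 : ℝ) • ((p.2 + ψ.2) + r.2) := by simp [hm]
    have e2 : n.2 = (1/2 : ℝ) • ((p.2 + ψ.2) - r.2) := by simp [hn]
    have h1 := parallelogram_law_with_norm ℝ (p.2 + ψ.2) r.2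
    have h2 := parallelogram_law_with_norm ℝ p.2 ψ.2
    rw [e1, e2, norm_smul, norm_smul, mul_pow, mul_pow]
    have e3 : ‖(1/2 : ℝ)‖ ^ 2 = 1/4 := by norm_num
    rw [e3]
    have h3 : ‖r.2‖ ^ 2 ≤ ‖p.2 - ψ.2‖ ^ 2 := by
      rw [norm_sub_rev]
      exact hr2
    nlinarith
  -- J(m) ≥ J(p)
  have hJ := D.J_le hq1 hq2 hp hpm hmW
  have ip := D.integrable_q hq1 hq2 hp.1
  have iψ := D.integrable_q hq1 hq2 hψW
  have im := D.integrable_q hq1 hq2 hmW
  have in' := D.integrable_q hq1 hq2 hnW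
  have hsum : (∫ x, |m.1 x| ^ q) + ∫ x, |n.1 x| ^ q = (∫ x, |p.1 x| ^ q) + ∫ x, |ψ.1 x| ^ q := by
    rw [← integral_add im in', ← integral_add ip iψ]
    apply integral_congr_ae
    filter_upwards [hm1, hn1] with x h1 h2
    simp only [h1, h2]
    rcases le_total (p.1 x) (ψ.1 x) with h | h
    · rw [max_eq_right h, min_eq_left h]; ring
    · rw [max_eq_left h, min_eq_right h]
  have hstar : 1 / 2 * ‖n.2‖ ^ 2 - lam Ω q / q * (∫ x, |n.1 x| ^ q) ≤
      1 / 2 * ‖ψ.2‖ ^ 2 - lam Ω q / q * ∫ x, |ψ.1 x| ^ q := by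
    have : lam Ω q / q * (∫ x, |m.1 x| ^ q) + lam Ω q / q * (∫ x, |n.1 x| ^ q) =
        lam Ω q / q * (∫ x, |p.1 x| ^ q) + lam Ω q / q * ∫ x, |ψ.1 x| ^ q := by
      rw [← mul_add, hsum, mul_add]
    linarith
  -- the difference
  set η := ψ - n with hη
  have hηW : η ∈ W Ω := (W Ω).sub_mem hψW hnW
  have hη1 : η.1 =ᵐ[volume] fun x => ψ.1 x - n.1 x := by
    filter_upwards [Lp.coeFn_sub ψ.1 n.1] with x h1
    rw [hη, Prod.fst_sub, h1, Pi.sub_apply]
  have hn2 : n.2 = ψ.2 - η.2 := by simp [hη]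
  have hinner : ⟪ψ.2, η.2⟫ = ∫ x, c * D.g x * η.1 x := by
    have := D.eq_weak η hηW
    rw [hψ, Prod.smul_snd, inner_smul_left]
    simp only [conj_trivial, mul_assoc]
    rw [this, integral_const_mul]
  rw [hn2, norm_sub_sq_real] at hstar
  have ig : Integrable (fun x => c * D.g x * η.1 x) (volume : Measure E) := by
    have : MemLp (fun x => c * D.g x) 2 (volume : Measure E) :=
      (memLp_of_bdd_supp D.g_meas D.g_bdd D.meas D.fin D.g_zero).const_mul c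
    exact this.integrable_mul (Lp.memLp η.1)
  have hpt : ∀ᵐ x ∂(volume : Measure E),
      c * D.g x * η.1 x ≤ lam Ω q / q * (|ψ.1 x| ^ q - |n.1 x| ^ q) := by
    filter_upwards [hψ1, hn1, hη1, hpos, D.supp hnW] with x h1 h2 h3 h4 h5
    by_cases hx : x ∈ Ω
    · have hρ := D.ρ_pos x hx
      rw [indicator_of_mem hx] at h1
      have hψpos : 0 < ψ.1 x := by rw [h1]; positivity
      have hn0 : 0 ≤ n.1 x := by rw [h2]; exact le_min h4 hψpos.le
      have hnψ : n.1 x ≤ ψ.1 x := by rw [h2]; exact min_le_right _ _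
      rw [h3, abs_of_pos hψpos, abs_of_nonneg hn0]
      have e1 : ψ.1 x ^ (q - 1) * (ψ.1 x - n.1 x) ≤ ψ.1 x ^ q - n.1 x ^ q := by
        have a1 : ψ.1 x ^ q = ψ.1 x ^ (q - 1) * ψ.1 x := by
          rw [← Real.rpow_add_one hψpos.ne']
          congr 1
          ring
        have a2 : n.1 x ^ q ≤ ψ.1 x ^ (q - 1) * n.1 x := by
          rcases eq_or_lt_of_le hn0 with h | h
          · rw [← h, Real.zero_rpow hq0.ne', mul_zero]
          · have a3 : n.1 x ^ q = n.1 x ^ (q - 1) * n.1 x := by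
              rw [← Real.rpow_add_one h.ne']
              congr 1
              ring
            rw [a3]
            apply mul_le_mul_of_nonneg_right _ hn0
            exact Real.rpow_le_rpow hn0 hnψ (by linarith)
        rw [a1]
        linarith
      have e2 : c * D.g x ≤ lam Ω q / q * ψ.1 x ^ (q - 1) := by
        calc c * D.g x ≤ c * (K * (D.ρ x ^ 2) ^ (q - 1)) :=
              mul_le_mul_of_nonneg_left (hK x hx) hc.le
          _ = (c ^ (2 - q) * K) * (c ^ (q - 1) * (D.ρ x ^ 2) ^ (q - 1)) := by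
              have : c = c ^ (2 - q) * c ^ (q - 1) := by
                rw [← Real.rpow_add hc]
                have : 2 - q + (q - 1) = 1 := by ring
                rw [this, Real.rpow_one]
              calc c * (K * (D.ρ x ^ 2) ^ (q - 1)) =
                  (c ^ (2 - q) * c ^ (q - 1)) * (K * (D.ρ x ^ 2) ^ (q - 1)) := by rw [← this]
                _ = _ := by ring
          _ = (c ^ (2 - q) * K) * ψ.1 x ^ (q - 1) := by
              rw [h1, Real.mul_rpow hc.le (by positivity)]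
          _ ≤ lam Ω q / q * ψ.1 x ^ (q - 1) := by
              apply mul_le_mul_of_nonneg_right hcK
              positivity
      calc c * D.g x * (ψ.1 x - n.1 x) ≤ lam Ω q / q * ψ.1 x ^ (q - 1) * (ψ.1 x - n.1 x) := by
            apply mul_le_mul_of_nonneg_right e2 (by linarith)
        _ = lam Ω q / q * (ψ.1 x ^ (q - 1) * (ψ.1 x - n.1 x)) := by ring
        _ ≤ _ := mul_le_mul_of_nonneg_left e1 (by positivity)
    · rw [indicator_of_notMem hx] at h1
      rw [h3, h1, h5 hx]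
      simp
  have hint : ∫ x, c * D.g x * η.1 x ≤
      lam Ω q / q * ((∫ x, |ψ.1 x| ^ q) - ∫ x, |n.1 x| ^ q) := by
    rw [← integral_sub iψ in', ← integral_const_mul]
    exact integral_mono_ae ig ((iψ.sub in').const_mul _) hpt
  have hη0 : ‖η.2‖ ^ 2 ≤ 0 := by
    rw [hinner] at hstar
    nlinarith
  have hη00 : ‖η.2‖ ^ 2 = 0 := le_antisymm hη0 (by positivity)
  have hpo := poincare D.rad_nonneg D.sub_ball hηW
  rw [hη00, mul_zero] at hpo
  have hη10 : η.1 = 0 := by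
    rw [← norm_eq_zero]
    nlinarith [norm_nonneg η.1]
  filter_upwards [hη1, hn1, hψ1, Lp.coeFn_zero ℝ 2 (volume : Measure E)] with x h1 h2 h3 h4 hx
  rw [hη10, h4, h2] at h1
  rw [indicator_of_mem hx] at h3
  rw [← h3]
  simp only [Pi.zero_apply] at h1
  have : ψ.1 x = min (p.1 x) (ψ.1 x) := by linarith
  rw [this]
  exact min_le_left _ _

/-- lower bound for minimizers -/
theorem lower_bound {p} (hp : p ∈ Sph Ω q) (hpm : ‖p.2‖ ^ 2 = lam Ω q) :
    ∃ c : ℝ, 0 < c ∧ ∀ᵐ x ∂(volume : Measure E), x ∈ Ω → c * D.ρ x ^ 2 ≤ |p.1 x| := by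
  obtain ⟨r, hr, hrm, hr1⟩ := D.abs_min hq1 hq2 hp hpm
  obtain ⟨c, hc, h⟩ := D.lower_bound_nonneg hq1 hq2 hr hrm (by
    filter_upwards [hr1] with x hx
    rw [hx]; exact abs_nonneg _)
  refine ⟨c, hc, ?_⟩
  filter_upwards [h, hr1] with x h1 h2 hx
  rw [← h2]
  exact h1 hx

/-- minimizers do not vanish in `Ω` -/
theorem ne_zero_of_min {p} (hp : p ∈ Sph Ω q) (hpm : ‖p.2‖ ^ 2 = lam Ω q) :
    ∀ᵐ x ∂(volume : Measure E), x ∈ Ω → p.1 x ≠ 0 := by
  obtain ⟨c, hc, h⟩ := D.lower_bound hq1 hq2 hp hpm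
  filter_upwards [h] with x h1 hx h0
  have := h1 hx
  have := D.ρ_pos x hx
  rw [h0, abs_zero] at h1
  have h2 := h1 hx
  have : 0 < c * D.ρ x ^ 2 := by positivity
  linarith

/-- weighted inequality, approximate version -/
lemma weighted_approx {p} (hp : p ∈ Sph Ω q) (hpm : ‖p.2‖ ^ 2 = lam Ω q) {w} (hw : w ∈ W Ω)
    {t : ℝ} (ht : 0 < t) :
    ∫⁻ x, ENNReal.ofReal ((p.1 x ^ 2 + t * w.1 x ^ 2) ^ (q / 2 - 1) * w.1 x ^ 2) ≤
      ENNReal.ofReal ((lam Ω q)⁻¹ * ‖w.2‖ ^ 2) := by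
  have hq0 : 0 < q := by linarith
  have hl := D.lam_pos hq1 hq2
  have hw' : √t • w ∈ W Ω := (W Ω).smul_mem _ hw
  obtain ⟨r, hr, hr1, hr2⟩ := sqrt_mem_W D.meas D.fin hp.1 hw'
  have hr1' : r.1 =ᵐ[volume] fun x => √(p.1 x ^ 2 + t * w.1 x ^ 2) := by
    filter_upwards [hr1, Lp.coeFn_smul (√t) w.1] with x h1 h2
    rw [h1, Prod.smul_fst, h2, Pi.smul_apply, smul_eq_mul, mul_pow, Real.sq_sqrt ht.le]
  have hr2' : ‖r.2‖ ^ 2 ≤ ‖p.2‖ ^ 2 + t * ‖w.2‖ ^ 2 := by
    rw [Prod.smul_snd, norm_smul, mul_pow, Real.norm_eq_abs, sq_abs, Real.sq_sqrt ht.le] at hr2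
    exact hr2
  have hJ := D.J_le hq1 hq2 hp hpm hr
  have ip := D.integrable_q hq1 hq2 hp.1
  have ir := D.integrable_q hq1 hq2 hr
  -- pointwise
  have hpt : ∀ᵐ x ∂(volume : Measure E),
      (p.1 x ^ 2 + t * w.1 x ^ 2) ^ (q / 2 - 1) * w.1 x ^ 2 ≤
        2 / (q * t) * (|r.1 x| ^ q - |p.1 x| ^ q) := by
    filter_upwards [hr1'] with x h1
    have hA0 : 0 ≤ p.1 x ^ 2 + t * w.1 x ^ 2 := by positivity
    have e1 : |r.1 x| ^ q = (p.1 x ^ 2 + t * w.1 x ^ 2) ^ (q / 2) := by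
      rw [h1, abs_of_nonneg (Real.sqrt_nonneg _), Real.sqrt_eq_rpow, ← Real.rpow_mul hA0]
      congr 1
      ring
    have e2 : |p.1 x| ^ q = (p.1 x ^ 2) ^ (q / 2) := by
      rw [← sq_abs, ← Real.rpow_natCast, ← Real.rpow_mul (abs_nonneg _)]
      congr 1
      push_cast
      ring
    rcases eq_or_lt_of_le hA0 with h | h
    · have hw0 : w.1 x ^ 2 = 0 := by
        have a1 : 0 ≤ p.1 x ^ 2 := sq_nonneg _
        have a2 : 0 ≤ w.1 x ^ 2 := sq_nonneg _
        have a3 : 0 ≤ t * w.1 x ^ 2 := by positivity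
        have a4 : t * w.1 x ^ 2 = 0 := by linarith
        rcases mul_eq_zero.mp a4 with h' | h'
        · exact absurd h' ht.ne'
        · exact h'
      rw [hw0, mul_zero, e1, e2, hw0, mul_zero, add_zero, sub_self, mul_zero]
    · have h2 := bern' (A := p.1 x ^ 2 + t * w.1 x ^ 2) (B := p.1 x ^ 2) (θ := q / 2) h
        (sq_nonneg _) (by linarith) (by linarith)
      rw [e1, e2, div_mul_eq_mul_div, le_div_iff₀ (by positivity)]
      have e3 : p.1 x ^ 2 + t * w.1 x ^ 2 - p.1 x ^ 2 = t * w.1 x ^ 2 := by ring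
      rw [e3] at h2
      linarith
  calc ∫⁻ x, ENNReal.ofReal ((p.1 x ^ 2 + t * w.1 x ^ 2) ^ (q / 2 - 1) * w.1 x ^ 2)
      ≤ ∫⁻ x, ENNReal.ofReal (2 / (q * t) * (|r.1 x| ^ q - |p.1 x| ^ q)) := by
        apply lintegral_mono_ae
        filter_upwards [hpt] with x hx
        exact ENNReal.ofReal_le_ofReal hx
    _ = ENNReal.ofReal (∫ x, 2 / (q * t) * (|r.1 x| ^ q - |p.1 x| ^ q)) := by
        have hi : Integrable (fun x => 2 / (q * t) * (|r.1 x| ^ q - |p.1 x| ^ q))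
            (volume : Measure E) := (ir.sub ip).const_mul _
        rw [ofReal_integral_eq_lintegral_ofReal hi]
        filter_upwards [hpt] with x hx
        refine le_trans ?_ hx
        have : 0 ≤ p.1 x ^ 2 + t * w.1 x ^ 2 := by positivity
        positivity
    _ ≤ ENNReal.ofReal ((lam Ω q)⁻¹ * ‖w.2‖ ^ 2) := by
        apply ENNReal.ofReal_le_ofReal
        rw [integral_const_mul, integral_sub ir ip]
        have h1 : lam Ω q / q * ((∫ x, |r.1 x| ^ q) - ∫ x, |p.1 x| ^ q) ≤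
            1 / 2 * (t * ‖w.2‖ ^ 2) := by linarith
        have h2 : (∫ x, |r.1 x| ^ q) - (∫ x, |p.1 x| ^ q) ≤
            (1 / 2 * (t * ‖w.2‖ ^ 2)) / (lam Ω q / q) := by
          rw [le_div_iff₀ (by positivity)]
          linarith
        calc 2 / (q * t) * ((∫ x, |r.1 x| ^ q) - ∫ x, |p.1 x| ^ q)
            ≤ 2 / (q * t) * ((1 / 2 * (t * ‖w.2‖ ^ 2)) / (lam Ω q / q)) :=
              mul_le_mul_of_nonneg_left h2 (by positivity)
          _ = (lam Ω q)⁻¹ * ‖w.2‖ ^ 2 := by field_simp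

/-- weighted inequality -/
theorem weighted {p} (hp : p ∈ Sph Ω q) (hpm : ‖p.2‖ ^ 2 = lam Ω q) {w} (hw : w ∈ W Ω) :
    ∫⁻ x, ENNReal.ofReal (|p.1 x| ^ (q - 2) * w.1 x ^ 2) ≤
      ENNReal.ofReal ((lam Ω q)⁻¹ * ‖w.2‖ ^ 2) := by
  have hm1 := (Lp.memLp p.1).aestronglyMeasurable.aemeasurable
  have hm2 := (Lp.memLp w.1).aestronglyMeasurable.aemeasurable
  set F : ℕ → E → ℝ≥0∞ := fun n x =>
    ENNReal.ofReal ((p.1 x ^ 2 + 1 / ((n : ℝ) + 1) * w.1 x ^ 2) ^ (q / 2 - 1) * w.1 x ^ 2) with hF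
  have hFm : ∀ n, AEMeasurable (F n) (volume : Measure E) := by
    intro n
    apply AEMeasurable.ennreal_ofReal
    exact (((hm1.pow_const 2).add ((hm2.pow_const 2).const_mul _)).pow_const _).mul
      (hm2.pow_const 2)
  have hlim : ∀ᵐ x ∂(volume : Measure E),
      ENNReal.ofReal (|p.1 x| ^ (q - 2) * w.1 x ^ 2) = liminf (fun n => F n x) atTop := by
    filter_upwards [D.ne_zero_of_min hq1 hq2 hp hpm, D.supp hw] with x h1 h2
    by_cases hx : x ∈ Ω
    · have hne := h1 hx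
      have hpos : 0 < p.1 x ^ 2 := by positivity
      have e : |p.1 x| ^ (q - 2) = (p.1 x ^ 2) ^ (q / 2 - 1) := by
        rw [← sq_abs, ← Real.rpow_natCast, ← Real.rpow_mul (abs_nonneg _)]
        congr 1
        push_cast
        ring
      have ht : Tendsto (fun n : ℕ => p.1 x ^ 2 + 1 / ((n : ℝ) + 1) * w.1 x ^ 2) atTop
          (𝓝 (p.1 x ^ 2)) := by
        have := ((tendsto_one_div_add_atTop_nhds_zero_nat (𝕜 := ℝ)).mul_const
          (w.1 x ^ 2)).const_add (p.1 x ^ 2)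
        simpa using this
      have ht2 : Tendsto (fun n : ℕ =>
          (p.1 x ^ 2 + 1 / ((n : ℝ) + 1) * w.1 x ^ 2) ^ (q / 2 - 1)) atTop
          (𝓝 ((p.1 x ^ 2) ^ (q / 2 - 1))) :=
        (Real.continuousAt_rpow_const _ _ (Or.inl hpos.ne')).tendsto.comp ht
      have ht3 : Tendsto (fun n => F n x) atTop
          (𝓝 (ENNReal.ofReal (|p.1 x| ^ (q - 2) * w.1 x ^ 2))) := by
        rw [e]
        exact (ENNReal.continuous_ofReal.tendsto _).comp (ht2.mul_const _)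
      exact ht3.liminf_eq.symm
    · have hw0 := h2 hx
      simp [hF, hw0]
  calc ∫⁻ x, ENNReal.ofReal (|p.1 x| ^ (q - 2) * w.1 x ^ 2)
      = ∫⁻ x, liminf (fun n => F n x) atTop := lintegral_congr_ae hlim
    _ ≤ liminf (fun n => ∫⁻ x, F n x) atTop := lintegral_liminf_le' hFm
    _ ≤ liminf (fun _ : ℕ => ENNReal.ofReal ((lam Ω q)⁻¹ * ‖w.2‖ ^ 2)) atTop := by
        refine liminf_le_liminf (Eventually.of_forall (fun n =>
          D.weighted_approx hq1 hq2 hp hpm hw (by positivity))) ?_ ?_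
        · isBoundedDefault
        · isBoundedDefault
    _ = _ := by simp

end GoodData

end Pool.Agent.MP_0fb79d_an
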