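import Mathlib

/-!
A lower semicontinuity lemma (Mazur's lemma in a Hilbert space, by the projection argument).
-/

open Filter Topology Set

namespace Pool.Agent.MP_0fb79d_an

theorem lsc_closure {H1 H2 : Type*} [NormedAddCommGroup H1] [NormedSpace ℝ H1]
    [NormedAddCommGroup H2] [InnerProductSpace ℝ H2] [CompleteSpace H2]
    (S : Submodule ℝ (H1 × H2)) (hS : IsClosed (S : Set (H1 × H2)))
    (p : ℕ → H1 × H2) (hp : ∀ n, p n ∈ S) (f : H1)
    (hf : Tendsto (fun n => (p n).1) atTop (𝓝 f)) (c : ℕ → ℝ) (C : ℝ)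
    (hc : ∀ n, ‖(p n).2‖ ^ 2 ≤ c n) (hC : Tendsto c atTop (𝓝 C)) :
    ∃ g, (f, g) ∈ S ∧ ‖g‖ ^ 2 ≤ C := by
  classical
  set A : ℕ → Set (H1 × H2) := fun n => convexHull ℝ (p '' {m | n ≤ m}) with hA
  have hAS : ∀ n, A n ⊆ S := by
    intro n
    apply convexHull_min _ S.convex
    rintro _ ⟨m, _, rfl⟩
    exact hp m
  have hpA : ∀ n m, n ≤ m → p m ∈ A n := fun n m h => subset_convexHull ℝ _ ⟨m, h, rfl⟩
  have hAanti : ∀ n m, n ≤ m → A m ⊆ A n := by
    intro n m h
    apply convexHull_mono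
    apply image_mono
    intro k hk
    exact le_trans h hk
  set Q : H1 × H2 → ℝ := fun a => ‖a.2‖ ^ 2 with hQ
  set d : ℕ → ℝ := fun n => sInf (Q '' A n) with hd
  have hbdd : ∀ n, BddBelow (Q '' A n) := by
    intro n
    refine ⟨0, ?_⟩
    rintro _ ⟨a, _, rfl⟩
    positivity
  have hdle : ∀ n a, a ∈ A n → d n ≤ ‖a.2‖ ^ 2 := fun n a ha => csInf_le (hbdd n) ⟨a, ha, rfl⟩
  have hdmono : Monotone d := by
    intro n m h
    have hne : (Q '' A m).Nonempty := ⟨_, p m, hpA m m le_rfl, rfl⟩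
    exact csInf_le_csInf (hbdd n) hne (image_mono (hAanti n m h))
  have hdC : ∀ n, d n ≤ C := by
    intro n
    apply ge_of_tendsto hC
    filter_upwards [eventually_ge_atTop n] with m hm
    exact (hdle n (p m) (hpA n m hm)).trans (hc m)
  have hex : ∀ n, ∃ a ∈ A n, ‖a.2‖ ^ 2 < d n + 1 / ((n : ℝ) + 1) := by
    intro n
    have : sInf (Q '' A n) < d n + 1 / ((n : ℝ) + 1) := by
      have : (0:ℝ) < 1 / ((n : ℝ) + 1) := by positivity
      linarith
    obtain ⟨_, ⟨a, ha, rfl⟩, hlt⟩ := exists_lt_of_csInf_lt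
      (⟨_, p n, hpA n n le_rfl, rfl⟩ : (Q '' A n).Nonempty) this
    exact ⟨a, ha, hlt⟩
  choose a haA ha using hex
  have hbddA : BddAbove (range d) := ⟨C, by rintro _ ⟨n, rfl⟩; exact hdC n⟩
  set D := ⨆ n, d n with hD
  have hdD : ∀ n, d n ≤ D := fun n => le_ciSup hbddA n
  have htd : Tendsto d atTop (𝓝 D) := tendsto_atTop_ciSup hdmono hbddA
  have h1 : Tendsto (fun n : ℕ => 1 / ((n : ℝ) + 1)) atTop (𝓝 0) :=
    tendsto_one_div_add_atTop_nhds_zero_nat
  have hcs : CauchySeq (fun n => (a n).2) := by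
    apply cauchySeq_of_le_tendsto_0' (fun n => Real.sqrt (2 * (D - d n) + 4 * (1 / ((n : ℝ) + 1))))
    · intro n m hnm
      rw [dist_eq_norm]
      apply Real.le_sqrt_of_sq_le
      have hmid : (1/2 : ℝ) • a n + (1/2 : ℝ) • a m ∈ A n := by
        apply (convex_convexHull ℝ _) (haA n) (hAanti n m hnm (haA m)) <;> norm_num
      have h2 := hdle n _ hmid
      have h3 : ‖((1/2 : ℝ) • a n + (1/2 : ℝ) • a m).2‖ ^ 2 = 1/4 * ‖(a n).2 + (a m).2‖ ^ 2 := by
        have : ((1/2 : ℝ) • a n + (1/2 : ℝ) • a m).2 = (1/2 : ℝ) • ((a n).2 + (a m).2) := by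
          simp [smul_add]
        rw [this, norm_smul]
        rw [mul_pow]
        norm_num
      rw [h3] at h2
      have h4 := parallelogram_law_with_norm ℝ (a n).2 (a m).2
      have h5 := ha n
      have h6 := ha m
      have h7 : 1 / ((m : ℝ) + 1) ≤ 1 / ((n : ℝ) + 1) := by
        apply one_div_le_one_div_of_le (by positivity)
        have : (n : ℝ) ≤ m := by exact_mod_cast hnm
        linarith
      have h8 := hdD m
      nlinarith
    · have : Tendsto (fun n : ℕ => 2 * (D - d n) + 4 * (1 / ((n : ℝ) + 1))) atTop (𝓝 0) := by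
        have e : (0:ℝ) = 2 * (D - D) + 4 * 0 := by ring
        rw [e]
        exact ((tendsto_const_nhds.sub htd).const_mul 2).add (h1.const_mul 4)
      have h2 := (Real.continuous_sqrt.tendsto 0).comp this
      rw [Real.sqrt_zero] at h2
      exact h2
  obtain ⟨g, hg⟩ := cauchySeq_tendsto_of_complete hcs
  have hf' : Tendsto (fun n => (a n).1) atTop (𝓝 f) := by
    rw [Metric.tendsto_atTop] at hf ⊢
    intro ε hε
    obtain ⟨n0, hn0⟩ := hf (ε / 2) (by positivity)
    refine ⟨n0, fun n hn => ?_⟩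
    have hsub : A n ⊆ (LinearMap.fst ℝ H1 H2) ⁻¹' (Metric.closedBall f (ε/2)) := by
      apply convexHull_min
      · rintro _ ⟨m, hm, rfl⟩
        have := hn0 m (le_trans hn hm)
        simp only [mem_preimage, LinearMap.fst_apply, Metric.mem_closedBall]
        exact this.le
      · exact (convex_closedBall f (ε/2)).linear_preimage _
    have := hsub (haA n)
    simp only [mem_preimage, LinearMap.fst_apply, Metric.mem_closedBall] at this
    linarith
  refine ⟨g, ?_, ?_⟩
  · apply hS.mem_of_tendsto (hf'.prodMk_nhds hg)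
    exact Eventually.of_forall (fun n => hAS n (haA n))
  · have h2 : Tendsto (fun n => ‖(a n).2‖ ^ 2) atTop (𝓝 (‖g‖ ^ 2)) := (hg.norm).pow 2
    have h3 : Tendsto (fun n : ℕ => C + 1 / ((n : ℝ) + 1)) atTop (𝓝 (C + 0)) :=
      tendsto_const_nhds.add h1
    rw [add_zero] at h3
    apply le_of_tendsto_of_tendsto' h2 h3
    intro n
    have := ha n
    have := hdC n
    linarith

end Pool.Agent.MP_0fb79d_an
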