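import Mathlib

/-!
Elementary inequalities for real powers.
-/

open Filter Topology Set

noncomputable section

namespace Pool.Agent.MP_0fb79d_an

/-- the nonlinearity `|x|^{q-2} x` -/
def nl (q x : ℝ) : ℝ := |x| ^ (q - 2) * x

lemma nl_zero (q : ℝ) : nl q 0 = 0 := by simp [nl]

lemma abs_rpow_mul_abs {q : ℝ} (hq : 1 < q) (x : ℝ) : |x| ^ (q - 2) * |x| = |x| ^ (q - 1) := by
  rcases eq_or_ne x 0 with rfl | hx
  · simp only [abs_zero, mul_zero]
    rw [Real.zero_rpow (by linarith)]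
  · have h : 0 < |x| := abs_pos.mpr hx
    have e : q - 1 = (q - 2) + 1 := by ring
    rw [e, Real.rpow_add h, Real.rpow_one]

lemma abs_nl {q : ℝ} (hq : 1 < q) (x : ℝ) : |nl q x| = |x| ^ (q - 1) := by
  unfold nl
  rw [abs_mul, abs_of_nonneg (Real.rpow_nonneg (abs_nonneg _) _), abs_rpow_mul_abs hq]

lemma nl_mul_self {q : ℝ} (hq : 1 < q) (x : ℝ) : nl q x * x = |x| ^ q := by
  unfold nl
  rw [mul_assoc, ← abs_mul_abs_self x, ← mul_assoc, abs_rpow_mul_abs hq]
  rcases eq_or_ne x 0 with rfl | hx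
  · simp only [abs_zero, mul_zero]
    rw [Real.zero_rpow (by linarith)]
  · have h : 0 < |x| := abs_pos.mpr hx
    rw [← Real.rpow_add_one h.ne']
    congr 1
    ring

lemma nl_eq {q : ℝ} (hq : 1 < q) (x : ℝ) : nl q x = SignType.sign x * |x| ^ (q - 1) := by
  unfold nl
  rw [← abs_rpow_mul_abs hq]
  rcases lt_trichotomy x 0 with h | rfl | h
  · simp [h, abs_of_neg h]
  · simp
  · simp [h, abs_of_pos h]

lemma nl_nonneg {q : ℝ} {x : ℝ} (hx : 0 ≤ x) : 0 ≤ nl q x := by
  unfold nl; positivity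

lemma nl_neg (q x : ℝ) : nl q (-x) = - nl q x := by
  unfold nl; rw [abs_neg]; ring

lemma nl_of_pos {q : ℝ} (hq : 1 < q) {x : ℝ} (hx : 0 ≤ x) : nl q x = x ^ (q - 1) := by
  have h := abs_rpow_mul_abs hq x
  rw [abs_of_nonneg hx] at h
  unfold nl
  rw [abs_of_nonneg hx, h]

lemma nl_mul (q a b : ℝ) : nl q (a * b) = nl q a * nl q b := by
  unfold nl
  rw [abs_mul, Real.mul_rpow (abs_nonneg _) (abs_nonneg _)]
  ring

/-- Young's inequality in the form used below. -/
lemma young_nl {q : ℝ} (hq : 1 < q) (a b : ℝ) :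
    nl q a * b ≤ (1 - 1 / q) * |a| ^ q + (1 / q) * |b| ^ q := by
  have h1 : nl q a * b ≤ |a| ^ (q - 1) * |b| := by
    calc nl q a * b ≤ |nl q a * b| := le_abs_self _
      _ = |a| ^ (q - 1) * |b| := by rw [abs_mul, abs_nl hq]
  have hc : (q / (q - 1)).HolderConjugate q := by
    have := (Real.HolderConjugate.conjExponent hq).symm
    simpa [Real.conjExponent] using this
  have h2 := Real.young_inequality_of_nonneg (Real.rpow_nonneg (abs_nonneg a) (q - 1))
    (abs_nonneg b) hc
  have h3 : (|a| ^ (q - 1)) ^ (q / (q - 1)) = |a| ^ q := by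
    rw [← Real.rpow_mul (abs_nonneg _)]
    congr 1
    have : q - 1 ≠ 0 := by linarith
    field_simp
  rw [h3] at h2
  have hq0 : q ≠ 0 := by linarith
  have hq1 : q - 1 ≠ 0 := by linarith
  calc nl q a * b ≤ |a| ^ (q - 1) * |b| := h1
    _ ≤ |a| ^ q / (q / (q - 1)) + |b| ^ q / q := h2
    _ = (1 - 1 / q) * |a| ^ q + (1 / q) * |b| ^ q := by field_simp

/-- convexity of `|x|^q` -/
lemma rpow_convex {q : ℝ} (hq : 1 < q) (a b : ℝ) :
    |a| ^ q + q * (nl q a * (b - a)) ≤ |b| ^ q := by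
  have h1 := young_nl hq a b
  have h2 := nl_mul_self hq a
  have hq0 : 0 < q := by linarith
  have h3 : q * (nl q a * b) ≤ (q - 1) * |a| ^ q + |b| ^ q := by
    calc q * (nl q a * b) ≤ q * ((1 - 1 / q) * |a| ^ q + (1 / q) * |b| ^ q) := by
          apply mul_le_mul_of_nonneg_left h1 hq0.le
      _ = _ := by field_simp
  have h4 : q * (nl q a * (b - a)) = q * (nl q a * b) - q * |a| ^ q := by
    rw [← h2]; ring
  rw [h4]
  linarith

/-- Bernoulli -/
lemma bern {x θ : ℝ} (hx : 0 ≤ x) (h0 : 0 ≤ θ) (h1 : θ ≤ 1) : x ^ θ ≤ 1 + θ * (x - 1) := by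
  have := rpow_one_add_le_one_add_mul_self (s := x - 1) (by linarith) h0 h1
  simpa using this

lemma bern' {A B θ : ℝ} (hA : 0 < A) (hB : 0 ≤ B) (h0 : 0 ≤ θ) (h1 : θ ≤ 1) :
    θ * A ^ (θ - 1) * (A - B) ≤ A ^ θ - B ^ θ := by
  have h := bern (x := B / A) (by positivity) h0 h1
  rw [Real.div_rpow hB hA.le] at h
  have hAt : 0 < A ^ θ := Real.rpow_pos_of_pos hA θ
  have h2 : B ^ θ ≤ A ^ θ * (1 + θ * (B / A - 1)) := by
    rw [div_le_iff₀ hAt] at h
    linarith
  have h3 : A ^ (θ - 1) = A ^ θ / A := by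
    rw [Real.rpow_sub_one hA.ne']
  rw [h3]
  have h4 : A ^ θ * (1 + θ * (B / A - 1)) = A ^ θ - θ * (A ^ θ / A) * (A - B) := by
    field_simp
    ring
  linarith

/-- the difference quotient of `nl` at `1` -/
def G (q s : ℝ) : ℝ := dslope (nl q) 1 s

lemma hasDerivAt_nl_one {q : ℝ} (hq : 1 < q) : HasDerivAt (nl q) (q - 1) 1 := by
  have h1 : HasDerivAt (fun x : ℝ => x ^ (q - 1)) ((q - 1) * 1 ^ (q - 1 - 1)) 1 :=
    Real.hasDerivAt_rpow_const (Or.inl one_ne_zero)
  rw [Real.one_rpow, mul_one] at h1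
  apply h1.congr_of_eventuallyEq
  filter_upwards [lt_mem_nhds (show (0:ℝ) < 1 by norm_num)] with x hx
  exact nl_of_pos hq hx.le

lemma G_one {q : ℝ} (hq : 1 < q) : G q 1 = q - 1 := by
  unfold G
  rw [dslope_same, (hasDerivAt_nl_one hq).deriv]

lemma continuousAt_G {q : ℝ} (hq : 1 < q) : ContinuousAt (G q) 1 := by
  unfold G
  exact continuousAt_dslope_same.mpr (hasDerivAt_nl_one hq).differentiableAt

lemma nl_one (q : ℝ) : nl q 1 = 1 := by simp [nl]

lemma G_mul (q s : ℝ) : G q s * (1 - s) = 1 - nl q s := by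
  have := sub_smul_dslope (nl q) 1 s
  rw [nl_one, smul_eq_mul] at this
  unfold G
  linarith

lemma abs_G_le {q : ℝ} (hq : 1 < q) (hq2 : q < 2) (s : ℝ) : |G q s| ≤ 2 := by
  rcases eq_or_ne s 1 with rfl | hs
  · rw [G_one hq, abs_of_nonneg (by linarith)]
    linarith
  · have h1 : 0 < |1 - s| := abs_pos.mpr (sub_ne_zero.mpr hs.symm)
    have h2 : |G q s| * |1 - s| = |1 - nl q s| := by rw [← abs_mul, G_mul]
    have h3 : |1 - nl q s| ≤ 2 * |1 - s| := by
      rcases le_or_gt 0 s with h0 | h0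
      · rw [nl_of_pos hq h0]
        rcases le_or_gt s 1 with hs1 | hs1
        · have a1 : s ^ (q - 1) ≤ 1 := Real.rpow_le_one h0 hs1 (by linarith)
          have a2 : s ≤ s ^ (q - 1) := by
            rcases eq_or_lt_of_le h0 with rfl | hpos
            · rw [Real.zero_rpow (by linarith)]
            · have := Real.rpow_le_rpow_of_exponent_ge hpos hs1 (show q - 1 ≤ 1 by linarith)
              simpa using this
          rw [abs_of_nonneg (by linarith), abs_of_nonneg (by linarith)]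
          linarith
        · have a1 : 1 ≤ s ^ (q - 1) := Real.one_le_rpow hs1.le (by linarith)
          have a2 : s ^ (q - 1) ≤ s := by
            have := Real.rpow_le_rpow_of_exponent_le hs1.le (show q - 1 ≤ 1 by linarith)
            simpa using this
          rw [abs_of_nonpos (by linarith), abs_of_neg (by linarith)]
          linarith
      · have e : nl q s = - (-s) ^ (q - 1) := by
          have := nl_of_pos hq (x := -s) (by linarith)
          rw [nl_neg] at this
          linarith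
        have a1 : (-s) ^ (q - 1) ≤ 1 + (-s) := by
          have := bern (x := -s) (θ := q - 1) (by linarith) (by linarith) (by linarith)
          nlinarith
        have a2 : 0 ≤ (-s) ^ (q - 1) := Real.rpow_nonneg (by linarith) _
        rw [e, abs_of_nonneg (by linarith), abs_of_pos (by linarith)]
        linarith
    rw [← h2] at h3
    exact le_of_mul_le_mul_right h3 h1

/-- The key algebraic identity. -/
lemma nl_sub_mul {q : ℝ} {a : ℝ} (ha : a ≠ 0) (b : ℝ) :
    (nl q a - nl q b) * (a - b) = |a| ^ (q - 2) * G q (b / a) * (a - b) ^ 2 := by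
  have hb : b = a * (b / a) := by field_simp
  set s := b / a with hs
  have h1 : nl q b = nl q a * nl q s := by rw [hb, nl_mul]
  have h2 := G_mul q s
  have h3 : nl q a = |a| ^ (q - 2) * a := rfl
  calc (nl q a - nl q b) * (a - b) = nl q a * (1 - nl q s) * (a * (1 - s)) := by
        rw [h1, hb]; ring
    _ = nl q a * (G q s * (1 - s)) * (a * (1 - s)) := by rw [h2]
    _ = |a| ^ (q - 2) * G q s * (a - b) ^ 2 := by rw [h3, hb]; ring

end Pool.Agent.MP_0fb79d_an
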