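import Pool.Agent.Lib_MP_0fb79d_an.Split
import Pool.Agent.Lib_MP_0fb79d_an.Reals

/-!
The `L^q` norm on functions in `L²` which vanish outside of a set of finite measure.
-/

open MeasureTheory Filter Topology Set
open scoped ENNReal ContDiff RealInnerProductSpace

set_option linter.unusedSectionVars false

noncomputable section

namespace Pool.Agent.MP_0fb79d_an

variable {E : Type*} [NormedAddCommGroup E] [InnerProductSpace ℝ E] [FiniteDimensional ℝ E]
  [CompleteSpace E] [MeasurableSpace E] [BorelSpace E]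

/-- `f` vanishes a.e. outside of `Ω` -/
def Supp (Ω : Set E) (f : E → ℝ) : Prop := ∀ᵐ x ∂(volume : Measure E), x ∉ Ω → f x = 0

lemma Supp.add {Ω : Set E} {f g : Lp ℝ 2 (volume : Measure E)} (hf : Supp Ω f) (hg : Supp Ω g) :
    Supp Ω (f + g : Lp ℝ 2 (volume : Measure E)) := by
  filter_upwards [hf, hg, Lp.coeFn_add f g] with x h1 h2 h3 hx
  rw [h3, Pi.add_apply, h1 hx, h2 hx, add_zero]

lemma Supp.sub {Ω : Set E} {f g : Lp ℝ 2 (volume : Measure E)} (hf : Supp Ω f) (hg : Supp Ω g) :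
    Supp Ω (f - g : Lp ℝ 2 (volume : Measure E)) := by
  filter_upwards [hf, hg, Lp.coeFn_sub f g] with x h1 h2 h3 hx
  rw [h3, Pi.sub_apply, h1 hx, h2 hx, sub_zero]

lemma Supp.smul {Ω : Set E} {f : Lp ℝ 2 (volume : Measure E)} (hf : Supp Ω f) (c : ℝ) :
    Supp Ω (c • f : Lp ℝ 2 (volume : Measure E)) := by
  filter_upwards [hf, Lp.coeFn_smul c f] with x h1 h3 hx
  rw [h3, Pi.smul_apply, h1 hx, smul_zero]

lemma supp_of_mem_W {Ω : Set E} (hΩ : MeasurableSet Ω) {p} (hp : p ∈ W Ω) : Supp Ω p.1 := by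
  filter_upwards [W_eq_zero hΩ hp] with x hx h
  exact (hx h).1

lemma abs_rpow_le_one_add_sq {q : ℝ} (hq0 : 0 ≤ q) (hq2 : q ≤ 2) (t : ℝ) : |t| ^ q ≤ 1 + t ^ 2 := by
  have h1 := bern (x := t ^ 2) (θ := q / 2) (sq_nonneg t) (by linarith) (by linarith)
  have h2 : (t ^ 2) ^ (q / 2) = |t| ^ q := by
    rw [← sq_abs, ← Real.rpow_natCast, ← Real.rpow_mul (abs_nonneg _)]
    congr 1
    push_cast
    ring
  rw [h2] at h1
  nlinarith [sq_nonneg t]

section finite

variable {Ω : Set E} (hΩm : MeasurableSet Ω) (hΩf : (volume : Measure E) Ω ≠ ⊤) {q : ℝ}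

include hΩm hΩf

lemma memLp_q (hq2 : q ≤ 2) {f : Lp ℝ 2 (volume : Measure E)} (hs : Supp Ω f) :
    MemLp f (ENNReal.ofReal q) (volume : Measure E) := by
  have h1 : (f : E → ℝ) =ᵐ[volume] Ω.indicator f := by
    filter_upwards [hs] with x hx
    by_cases h : x ∈ Ω
    · rw [indicator_of_mem h]
    · rw [indicator_of_notMem h, hx h]
  rw [memLp_congr_ae h1, memLp_indicator_iff_restrict hΩm]
  have : IsFiniteMeasure ((volume : Measure E).restrict Ω) :=
    ⟨by rw [Measure.restrict_apply_univ]; exact lt_top_iff_ne_top.mpr hΩf⟩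
  apply ((Lp.memLp f).restrict Ω).mono_exponent
  calc ENNReal.ofReal q ≤ ENNReal.ofReal 2 := ENNReal.ofReal_le_ofReal hq2
    _ = 2 := by simp

lemma integrable_rpow (hq0 : 0 ≤ q) (hq2 : q ≤ 2) {f : E → ℝ} (hf : MemLp f 2 (volume : Measure E))
    (hs : Supp Ω f) : Integrable (fun x => |f x| ^ q) (volume : Measure E) ∨ q = 0 := by
  by_cases h0 : q = 0
  · exact Or.inr h0
  left
  have hb : Integrable (fun x => Ω.indicator (fun _ => (1:ℝ)) x + f x ^ 2) (volume : Measure E) := by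
    apply Integrable.add _ hf.integrable_sq
    rw [integrable_indicator_iff hΩm]
    exact integrableOn_const hΩf
  apply hb.mono
  · exact (hf.aestronglyMeasurable.aemeasurable.abs.pow_const q).aestronglyMeasurable
  · filter_upwards [hs] with x hx
    have h1 : 0 ≤ |f x| ^ q := Real.rpow_nonneg (abs_nonneg _) _
    rw [Real.norm_of_nonneg h1]
    refine le_trans ?_ (le_abs_self _)
    by_cases h : x ∈ Ω
    · rw [indicator_of_mem h]
      exact abs_rpow_le_one_add_sq hq0 hq2 _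
    · rw [hx h, abs_zero, Real.zero_rpow h0]
      have : (0:ℝ) ≤ Ω.indicator (fun _ => (1:ℝ)) x := indicator_nonneg (fun _ _ => zero_le_one) x
      positivity

lemma integrable_rpow' (hq0 : 0 < q) (hq2 : q ≤ 2) {f : E → ℝ}
    (hf : MemLp f 2 (volume : Measure E))
    (hs : Supp Ω f) : Integrable (fun x => |f x| ^ q) (volume : Measure E) :=
  (integrable_rpow hΩm hΩf hq0.le hq2 hf hs).resolve_right hq0.ne'

/-- the constant in the comparison of norms -/
def kq (Ω : Set E) (q : ℝ) : ℝ := ((volume : Measure E) Ω).toReal ^ (1 / q - 1 / 2)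

end finite

lemma eLpNorm_eq_qNorm {q : ℝ} (hq : 0 < q) {f : E → ℝ}
    (hf : MemLp f (ENNReal.ofReal q) (volume : Measure E)) :
    eLpNorm f (ENNReal.ofReal q) (volume : Measure E) = ENNReal.ofReal (qNorm q f) := by
  rw [hf.eLpNorm_eq_integral_rpow_norm (by simpa using hq) ENNReal.ofReal_ne_top,
    ENNReal.toReal_ofReal hq.le]
  unfold qNorm
  simp only [Real.norm_eq_abs, one_div]

lemma qNorm_nonneg (q : ℝ) (f : E → ℝ) : 0 ≤ qNorm q f := by
  unfold qNorm
  apply Real.rpow_nonneg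
  exact integral_nonneg (fun x => Real.rpow_nonneg (abs_nonneg _) _)

lemma qNorm_congr {q : ℝ} {f g : E → ℝ} (h : f =ᵐ[volume] g) : qNorm q f = qNorm q g := by
  unfold qNorm
  congr 1
  apply integral_congr_ae
  filter_upwards [h] with x hx
  simp only [hx]

lemma qNorm_rpow {q : ℝ} (hq : 0 < q) (f : E → ℝ) : qNorm q f ^ q = ∫ x, |f x| ^ q := by
  unfold qNorm
  rw [← Real.rpow_mul]
  · field_simp
    simp
  · exact integral_nonneg (fun x => Real.rpow_nonneg (abs_nonneg _) _)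

lemma qNorm_sub_le {q : ℝ} (hq : 1 ≤ q) {f g : E → ℝ}
    (hf : MemLp f (ENNReal.ofReal q) (volume : Measure E))
    (hg : MemLp g (ENNReal.ofReal q) (volume : Measure E)) :
    qNorm q f ≤ qNorm q g + qNorm q (fun x => f x - g x) := by
  have hq0 : 0 < q := by linarith
  have hfg : MemLp (fun x => f x - g x) (ENNReal.ofReal q) (volume : Measure E) := hf.sub hg
  have h1 : eLpNorm f (ENNReal.ofReal q) (volume : Measure E) ≤
      eLpNorm g (ENNReal.ofReal q) volume + eLpNorm (fun x => f x - g x) (ENNReal.ofReal q) volume := by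
    have h2 := eLpNorm_add_le (μ := (volume : Measure E)) hg.aestronglyMeasurable
      hfg.aestronglyMeasurable (p := ENNReal.ofReal q) (by
        rw [← ENNReal.ofReal_one]; exact ENNReal.ofReal_le_ofReal hq)
    have h3 : (g + fun x => f x - g x) = f := by ext x; simp
    rwa [h3] at h2
  rw [eLpNorm_eq_qNorm hq0 hf, eLpNorm_eq_qNorm hq0 hg, eLpNorm_eq_qNorm hq0 hfg,
    ← ENNReal.ofReal_add (qNorm_nonneg _ _) (qNorm_nonneg _ _)] at h1
  exact (ENNReal.ofReal_le_ofReal_iff (add_nonneg (qNorm_nonneg _ _) (qNorm_nonneg _ _))).mp h1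

lemma qNorm_smul {q : ℝ} (hq : 0 < q) (c : ℝ) (f : Lp ℝ 2 (volume : Measure E)) :
    qNorm q (c • f : Lp ℝ 2 (volume : Measure E)) = |c| * qNorm q f := by
  have h1 : ((c • f : Lp ℝ 2 (volume : Measure E)) : E → ℝ) =ᵐ[volume] fun x => c * f x := by
    filter_upwards [Lp.coeFn_smul c f] with x hx
    rw [hx]; rfl
  rw [qNorm_congr h1]
  unfold qNorm
  have h2 : ∀ x, |c * f x| ^ q = |c| ^ q * |f x| ^ q := fun x => by
    rw [abs_mul, Real.mul_rpow (abs_nonneg _) (abs_nonneg _)]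
  simp_rw [h2]
  rw [integral_const_mul, Real.mul_rpow (Real.rpow_nonneg (abs_nonneg _) _)
    (integral_nonneg (fun x => Real.rpow_nonneg (abs_nonneg _) _)), ← Real.rpow_mul (abs_nonneg _)]
  congr 1
  field_simp
  simp

section finite2

variable {Ω : Set E} (hΩm : MeasurableSet Ω) (hΩf : (volume : Measure E) Ω ≠ ⊤) {q : ℝ}

include hΩm hΩf

lemma qNorm_le (hq1 : 1 ≤ q) (hq2 : q ≤ 2) {f : Lp ℝ 2 (volume : Measure E)} (hs : Supp Ω f) :
    qNorm q f ≤ kq Ω q * ‖f‖ := by
  have hq0 : 0 < q := by linarith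
  have hf := memLp_q hΩm hΩf hq2 hs
  have : IsFiniteMeasure ((volume : Measure E).restrict Ω) :=
    ⟨by rw [Measure.restrict_apply_univ]; exact lt_top_iff_ne_top.mpr hΩf⟩
  have h1 : (f : E → ℝ) =ᵐ[volume] Ω.indicator f := by
    filter_upwards [hs] with x hx
    by_cases h : x ∈ Ω
    · rw [indicator_of_mem h]
    · rw [indicator_of_notMem h, hx h]
  have h2 : eLpNorm f (ENNReal.ofReal q) (volume : Measure E) ≤
      eLpNorm f 2 (volume : Measure E) * (volume : Measure E) Ω ^ (1 / q - 1 / 2) := by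
    rw [eLpNorm_congr_ae h1, eLpNorm_indicator_eq_eLpNorm_restrict hΩm]
    have h3 := eLpNorm_le_eLpNorm_mul_rpow_measure_univ (μ := (volume : Measure E).restrict Ω)
      (f := f) (p := ENNReal.ofReal q) (q := 2) (by
        calc ENNReal.ofReal q ≤ ENNReal.ofReal 2 := ENNReal.ofReal_le_ofReal hq2
          _ = 2 := by simp) ((Lp.aestronglyMeasurable f).restrict)
    rw [ENNReal.toReal_ofReal hq0.le, Measure.restrict_apply_univ] at h3
    refine h3.trans ?_
    have h4 : (1 / q - 1 / ENNReal.toReal 2) = 1 / q - 1 / 2 := by simp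
    rw [h4]
    gcongr
    exact Measure.restrict_le_self
  rw [eLpNorm_eq_qNorm hq0 hf] at h2
  have h5 : eLpNorm f 2 (volume : Measure E) = ENNReal.ofReal ‖f‖ := by
    rw [Lp.norm_def, ENNReal.ofReal_toReal (Lp.eLpNorm_ne_top f)]
  have hexp : 0 ≤ 1 / q - 1 / 2 := by
    rw [sub_nonneg]
    exact one_div_le_one_div_of_le hq0 hq2
  have h6 : (volume : Measure E) Ω ^ (1 / q - 1 / 2) = ENNReal.ofReal (kq Ω q) := by
    unfold kq
    rw [← ENNReal.ofReal_rpow_of_nonneg ENNReal.toReal_nonneg hexp, ENNReal.ofReal_toReal hΩf]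
  rw [h5, h6, ← ENNReal.ofReal_mul (norm_nonneg _)] at h2
  have h7 : 0 ≤ kq Ω q := Real.rpow_nonneg ENNReal.toReal_nonneg _
  have := (ENNReal.ofReal_le_ofReal_iff (mul_nonneg (norm_nonneg _) h7)).mp h2
  linarith

lemma abs_qNorm_sub_le (hq1 : 1 ≤ q) (hq2 : q ≤ 2) {f g : Lp ℝ 2 (volume : Measure E)}
    (hf : Supp Ω f) (hg : Supp Ω g) : |qNorm q f - qNorm q g| ≤ kq Ω q * ‖f - g‖ := by
  have key : ∀ f g : Lp ℝ 2 (volume : Measure E), Supp Ω f → Supp Ω g →
      qNorm q f ≤ qNorm q g + kq Ω q * ‖f - g‖ := by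
    intro f g hf hg
    have h1 := qNorm_sub_le hq1 (memLp_q hΩm hΩf hq2 hf) (memLp_q hΩm hΩf hq2 hg)
    have h2 : qNorm q (fun x => f x - g x) = qNorm q (f - g : Lp ℝ 2 (volume : Measure E)) := by
      apply qNorm_congr
      filter_upwards [Lp.coeFn_sub f g] with x hx
      rw [hx]; rfl
    have h3 := qNorm_le hΩm hΩf hq1 hq2 (hf.sub hg)
    linarith
  rw [abs_le]
  constructor
  · have := key g f hg hf
    rw [norm_sub_rev] at this
    linarith
  · have := key f g hf hg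
    linarith

lemma tendsto_qNorm (hq1 : 1 ≤ q) (hq2 : q ≤ 2) {f : ℕ → Lp ℝ 2 (volume : Measure E)}
    {g : Lp ℝ 2 (volume : Measure E)} (hf : ∀ n, Supp Ω (f n)) (hg : Supp Ω g)
    (h : Tendsto f atTop (𝓝 g)) : Tendsto (fun n => qNorm q (f n)) atTop (𝓝 (qNorm q g)) := by
  rw [tendsto_iff_dist_tendsto_zero]
  have h1 : Tendsto (fun n => kq Ω q * ‖f n - g‖) atTop (𝓝 0) := by
    have := (tendsto_iff_norm_sub_tendsto_zero.mp h).const_mul (kq Ω q)
    simpa using this
  apply squeeze_zero (fun n => dist_nonneg) _ h1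
  intro n
  rw [Real.dist_eq]
  exact abs_qNorm_sub_le hΩm hΩf hq1 hq2 (hf n) hg

lemma qNorm_eq_zero (hq1 : 1 ≤ q) (hq2 : q ≤ 2) {f : Lp ℝ 2 (volume : Measure E)}
    (hf : Supp Ω f) (h : qNorm q f = 0) : f = 0 := by
  have hq0 : 0 < q := by linarith
  have h1 := memLp_q hΩm hΩf hq2 hf
  have h2 := eLpNorm_eq_qNorm hq0 h1
  rw [h, ENNReal.ofReal_zero, eLpNorm_eq_zero_iff h1.aestronglyMeasurable (by simpa using hq0)] at h2
  apply Lp.ext
  filter_upwards [h2, Lp.coeFn_zero ℝ 2 (volume : Measure E)] with x hx h0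
  rw [hx, h0]

end finite2

end Pool.Agent.MP_0fb79d_an
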