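import Pool.Agent.Lib_MP_0fb79d_an.Spaces
import Pool.Agent.Lib_MP_0fb79d_an.Mazur

/-!
Rellich's theorem: bounded sequences in `W Ω` (with `Ω` bounded) have subsequences converging
in `L²`.
-/

open MeasureTheory Filter Topology Set
open scoped ENNReal ContDiff RealInnerProductSpace

noncomputable section

namespace Pool.Agent.MP_0fb79d_an

/-- bounded sequences in a separable Hilbert space have weakly convergent subsequences -/
theorem exists_weak_subseq {H : Type*} [NormedAddCommGroup H] [InnerProductSpace ℝ H]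
    [CompleteSpace H] [TopologicalSpace.SeparableSpace H] (x : ℕ → H) (C : ℝ)
    (hx : ∀ n, ‖x n‖ ≤ C) :
    ∃ (y : H) (ns : ℕ → ℕ), StrictMono ns ∧
      ∀ g : H, Tendsto (fun k => ⟪g, x (ns k)⟫) atTop (𝓝 ⟪g, y⟫) := by
  have hK := WeakDual.isSeqCompact_closedBall ℝ H (0 : StrongDual ℝ H) C
  obtain ⟨a, -, ns, hns, hlim⟩ := hK (x := fun n => StrongDual.toWeakDual
    (InnerProductSpace.toDual ℝ H (x n))) (by
      intro n
      simp only [mem_preimage, Metric.mem_closedBall, dist_zero_right]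
      have : WeakDual.toStrongDual (StrongDual.toWeakDual (InnerProductSpace.toDual ℝ H (x n)))
        = InnerProductSpace.toDual ℝ H (x n) := rfl
      rw [this, LinearIsometryEquiv.norm_map]
      exact hx n)
  refine ⟨(InnerProductSpace.toDual ℝ H).symm (WeakDual.toStrongDual a), ns, hns, fun g => ?_⟩
  have h1 : Tendsto (fun k => (StrongDual.toWeakDual
    (InnerProductSpace.toDual ℝ H (x (ns k)))) g) atTop (𝓝 (a g)) :=
    ((WeakDual.eval_continuous g).tendsto a).comp hlim
  have h2 : ∀ k, (StrongDual.toWeakDual (InnerProductSpace.toDual ℝ H (x (ns k)))) g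
      = ⟪g, x (ns k)⟫ := by
    intro k
    show (InnerProductSpace.toDual ℝ H (x (ns k))) g = _
    rw [InnerProductSpace.toDual_apply_apply, real_inner_comm]
  have h3 : a g = ⟪g, (InnerProductSpace.toDual ℝ H).symm (WeakDual.toStrongDual a)⟫ := by
    rw [real_inner_comm, InnerProductSpace.toDual_symm_apply]
    rfl
  rw [← h3]
  simpa only [h2] using h1

lemma sq_integral_le {α : Type*} [MeasurableSpace α] {μ : Measure α} [IsFiniteMeasure μ]
    {f : α → ℝ} (hf : Integrable f μ) (hf2 : Integrable (fun x => f x ^ 2) μ) :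
    (∫ x, f x ∂μ) ^ 2 ≤ μ.real univ * ∫ x, f x ^ 2 ∂μ := by
  set V := μ.real univ with hV
  have hV0 : 0 ≤ V := measureReal_nonneg
  by_cases h0 : V = 0
  · have : μ = 0 := by
      rw [← Measure.measure_univ_eq_zero]
      rcases (ENNReal.toReal_eq_zero_iff _).mp h0 with h | h
      · exact h
      · exact absurd h (measure_ne_top _ _)
    simp [this]
  · have hVpos : 0 < V := lt_of_le_of_ne hV0 (Ne.symm h0)
    set m := V⁻¹ * ∫ x, f x ∂μ with hm
    have h1 : 0 ≤ ∫ x, (f x - m) ^ 2 ∂μ := integral_nonneg (fun x => sq_nonneg _)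
    have h2 : ∫ x, (f x - m) ^ 2 ∂μ = (∫ x, f x ^ 2 ∂μ) - 2 * m * (∫ x, f x ∂μ) + m ^ 2 * V := by
      have e : ∀ x, (f x - m) ^ 2 = f x ^ 2 - 2 * m * f x + m ^ 2 := fun x => by ring
      simp_rw [e]
      have hi : Integrable (fun x => f x ^ 2 - 2 * m * f x) μ := hf2.sub (hf.const_mul _)
      rw [integral_add hi (integrable_const _),
        integral_sub hf2 (hf.const_mul _), integral_const_mul, integral_const]
      rw [smul_eq_mul, ← hV]
      ring
    rw [h2] at h1
    have h3 : m * V = ∫ x, f x ∂μ := by rw [hm]; field_simp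
    rw [← h3] at h1 ⊢
    nlinarith

variable {E : Type*} [NormedAddCommGroup E] [InnerProductSpace ℝ E] [FiniteDimensional ℝ E]
  [CompleteSpace E] [MeasurableSpace E] [BorelSpace E]

/-- average on a ball -/
def avg (δ : ℝ) (φ : E → ℝ) (x : E) : ℝ :=
  (volume.real (Metric.ball (0:E) δ))⁻¹ * ∫ y in Metric.ball (0:E) δ, φ (x + y)

omit [CompleteSpace E] in
lemma vol_pos {δ : ℝ} (hδ : 0 < δ) (x : E) : 0 < volume.real (Metric.ball x δ) := by
  apply ENNReal.toReal_pos
  · exact (Metric.measure_ball_pos volume x hδ).ne'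
  · exact measure_ball_lt_top.ne

omit [InnerProductSpace ℝ E] [FiniteDimensional ℝ E] [CompleteSpace E] in
lemma continuous_integrableOn_ball [InnerProductSpace ℝ E] [FiniteDimensional ℝ E]
    {φ : E → ℝ} (hφ : Continuous φ) (x : E) (δ : ℝ) :
    IntegrableOn φ (Metric.ball x δ) (volume : Measure E) :=
  (hφ.continuousOn.integrableOn_compact (isCompact_closedBall x δ)).mono_set
    Metric.ball_subset_closedBall

omit [CompleteSpace E] in
lemma avg_sub {δ : ℝ} {φ ψ : E → ℝ} (hφ : Continuous φ) (hψ : Continuous ψ) (x : E) :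
    avg δ (fun y => φ y - ψ y) x = avg δ φ x - avg δ ψ x := by
  unfold avg
  rw [integral_sub, mul_sub]
  · exact continuous_integrableOn_ball (by fun_prop) _ _
  · exact continuous_integrableOn_ball (by fun_prop) _ _

omit [CompleteSpace E] in
lemma avg_eq_inner {δ : ℝ} {φ : E → ℝ} (x : E) (f : Lp ℝ 2 (volume : Measure E))
    (hf : f =ᵐ[volume] φ) :
    avg δ φ x = (volume.real (Metric.ball (0:E) δ))⁻¹ *
      ⟪indicatorConstLp 2 (measurableSet_ball (x := x) (ε := δ)) measure_ball_lt_top.ne (1:ℝ), f⟫ := by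
  unfold avg
  congr 1
  rw [L2.inner_indicatorConstLp_one]
  have h1 : ∫ z in Metric.ball x δ, f z = ∫ z in Metric.ball x δ, φ z := by
    apply integral_congr_ae
    exact ae_restrict_of_ae hf
  rw [h1, ← integral_indicator measurableSet_ball, ← integral_indicator measurableSet_ball,
    ← integral_add_left_eq_self (fun z => (Metric.ball x δ).indicator φ z) x]
  congr 1
  ext y
  by_cases hy : y ∈ Metric.ball (0:E) δ
  · have : x + y ∈ Metric.ball x δ := by
      rw [Metric.mem_ball, dist_eq_norm] at *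
      simpa using hy
    rw [indicator_of_mem hy, indicator_of_mem this]
  · have : x + y ∉ Metric.ball x δ := by
      rw [Metric.mem_ball, dist_eq_norm] at *
      simpa using hy
    rw [indicator_of_notMem hy, indicator_of_notMem this]

omit [CompleteSpace E] in
lemma sq_avg_le {δ : ℝ} (hδ : 0 < δ) {φ : E → ℝ} (hφ : Continuous φ) (hc : HasCompactSupport φ)
    (x : E) :
    (avg δ φ x) ^ 2 ≤ (volume.real (Metric.ball (0:E) δ))⁻¹ * ∫ y, φ y ^ 2 := by
  unfold avg
  set V := volume.real (Metric.ball (0:E) δ) with hV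
  have hVpos : 0 < V := vol_pos hδ 0
  have : IsFiniteMeasure ((volume : Measure E).restrict (Metric.ball (0:E) δ)) :=
    ⟨by rw [Measure.restrict_apply_univ]; exact measure_ball_lt_top⟩
  have h1 := sq_integral_le (μ := (volume : Measure E).restrict (Metric.ball (0:E) δ))
    (f := fun y => φ (x + y)) (continuous_integrableOn_ball (by fun_prop) _ _)
    (continuous_integrableOn_ball (φ := fun y => φ (x + y) ^ 2) (by fun_prop) _ _)
  have h2 : ((volume : Measure E).restrict (Metric.ball (0:E) δ)).real univ = V := by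
    simp [hV, measureReal_def]
  rw [h2] at h1
  have hI : Integrable (fun y => φ y ^ 2) (volume : Measure E) := by
    have : Continuous (fun y => φ y ^ 2) := by fun_prop
    exact this.integrable_of_hasCompactSupport (hc.comp_left (g := fun y : ℝ => y ^ 2) (by norm_num))
  have h3 : ∫ y in Metric.ball (0:E) δ, φ (x + y) ^ 2 ≤ ∫ y, φ y ^ 2 := by
    rw [← integral_add_left_eq_self (fun z => φ z ^ 2) x]
    apply setIntegral_le_integral (hI.comp_add_left x)
    exact Eventually.of_forall (fun y => by positivity)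
  rw [mul_pow]
  calc V⁻¹ ^ 2 * (∫ y in Metric.ball (0:E) δ, φ (x + y)) ^ 2
      ≤ V⁻¹ ^ 2 * (V * ∫ y, φ y ^ 2) := by
        apply mul_le_mul_of_nonneg_left _ (by positivity)
        exact h1.trans (mul_le_mul_of_nonneg_left h3 hVpos.le)
    _ = V⁻¹ * ∫ y, φ y ^ 2 := by field_simp

omit [CompleteSpace E] in
lemma stronglyMeasurable_avg {δ : ℝ} {φ : E → ℝ} (hφ : Continuous φ) :
    StronglyMeasurable (avg δ φ) := by
  unfold avg
  apply StronglyMeasurable.const_mul
  have : StronglyMeasurable (Function.uncurry fun x y : E => φ (x + y)) := by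
    apply Continuous.stronglyMeasurable
    fun_prop
  exact this.integral_prod_right

theorem avg_estimate {δ : ℝ} (hδ : 0 < δ) {φ : E → ℝ} (hφ : ContDiff ℝ 1 φ)
    (hc : HasCompactSupport φ) :
    ∫⁻ x, ENNReal.ofReal ((φ x - avg δ φ x) ^ 2) ≤
      ENNReal.ofReal (δ ^ 2 * ∫ x, ‖gradient φ x‖ ^ 2) := by
  set V := volume.real (Metric.ball (0:E) δ) with hV
  have hVpos : 0 < V := vol_pos hδ 0
  have hcont := hφ.continuous
  set D := ∫ x, ‖gradient φ x‖ ^ 2 with hD
  have hD0 : 0 ≤ D := integral_nonneg (fun x => by positivity)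
  have : IsFiniteMeasure ((volume : Measure E).restrict (Metric.ball (0:E) δ)) :=
    ⟨by rw [Measure.restrict_apply_univ]; exact measure_ball_lt_top⟩
  have hu : ((volume : Measure E).restrict (Metric.ball (0:E) δ)).real univ = V := by
    simp [hV, measureReal_def]
  have hpt : ∀ x, (φ x - avg δ φ x) ^ 2 ≤
      ∫ y in Metric.ball (0:E) δ, V⁻¹ * (φ (x + y) - φ x) ^ 2 := by
    intro x
    have h1 := sq_integral_le (μ := (volume : Measure E).restrict (Metric.ball (0:E) δ))
      (f := fun y => φ (x + y) - φ x) (continuous_integrableOn_ball (by fun_prop) _ _)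
      (continuous_integrableOn_ball (φ := fun y => (φ (x + y) - φ x) ^ 2) (by fun_prop) _ _)
    rw [hu] at h1
    have h2 : ∫ y in Metric.ball (0:E) δ, (φ (x + y) - φ x) = V * (avg δ φ x - φ x) := by
      rw [integral_sub (continuous_integrableOn_ball (by fun_prop) _ _)
        (continuous_integrableOn_ball (by fun_prop) _ _), integral_const, hu]
      unfold avg
      rw [← hV, smul_eq_mul]
      field_simp
    rw [h2] at h1
    rw [integral_const_mul]
    have h3 : (φ x - avg δ φ x) ^ 2 = V⁻¹ * (V⁻¹ * (V * (avg δ φ x - φ x)) ^ 2) := by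
      field_simp
      ring
    rw [h3]
    apply mul_le_mul_of_nonneg_left _ (by positivity)
    rw [inv_mul_le_iff₀ hVpos]
    exact h1
  calc ∫⁻ x, ENNReal.ofReal ((φ x - avg δ φ x) ^ 2)
      ≤ ∫⁻ x, ∫⁻ y in Metric.ball (0:E) δ, ENNReal.ofReal (V⁻¹ * (φ (x + y) - φ x) ^ 2) := by
        apply lintegral_mono
        intro x
        refine (ENNReal.ofReal_le_ofReal (hpt x)).trans ?_
        rw [ofReal_integral_eq_lintegral_ofReal]
        · exact continuous_integrableOn_ball (by fun_prop) _ _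
        · exact Eventually.of_forall (fun t => by positivity)
    _ = ∫⁻ y in Metric.ball (0:E) δ, ∫⁻ x, ENNReal.ofReal (V⁻¹ * (φ (x + y) - φ x) ^ 2) := by
        rw [lintegral_lintegral_swap]
        apply Measurable.aemeasurable
        apply ENNReal.measurable_ofReal.comp
        have : Continuous (fun p : E × E => V⁻¹ * (φ (p.1 + p.2) - φ p.1) ^ 2) := by
          fun_prop
        exact this.measurable
    _ ≤ ∫⁻ _y in Metric.ball (0:E) δ, ENNReal.ofReal (V⁻¹ * (δ ^ 2 * D)) := by
        apply setLIntegral_mono' measurableSet_ball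
        intro y hy
        have hI1 : Integrable (fun x => (φ (x + y) - φ x) ^ 2) (volume : Measure E) := by
          have hcont : Continuous (fun x => (φ (x + y) - φ x) ^ 2) := by fun_prop
          have hcs : HasCompactSupport (fun x => φ (x + y) - φ x) :=
            (hc.comp_homeomorph (Homeomorph.addRight y)).sub hc
          exact hcont.integrable_of_hasCompactSupport
            (hcs.comp_left (g := fun y : ℝ => y ^ 2) (by norm_num))
        rw [← ofReal_integral_eq_lintegral_ofReal (hI1.const_mul _)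
          (Eventually.of_forall (fun t => by positivity)), integral_const_mul]
        apply ENNReal.ofReal_le_ofReal
        apply mul_le_mul_of_nonneg_left _ (by positivity)
        refine (translation_estimate hφ hc y).trans ?_
        apply mul_le_mul_of_nonneg_right _ hD0
        rw [Metric.mem_ball, dist_zero_right] at hy
        exact pow_le_pow_left₀ (norm_nonneg _) hy.le 2
    _ = ENNReal.ofReal (δ ^ 2 * D) := by
        rw [setLIntegral_const]
        have : (volume : Measure E) (Metric.ball (0:E) δ) = ENNReal.ofReal V := by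
          rw [hV, measureReal_def, ENNReal.ofReal_toReal measure_ball_lt_top.ne]
        rw [this, ← ENNReal.ofReal_mul (by positivity)]
        congr 1
        field_simp

omit [CompleteSpace E] in
lemma avg_eq_zero {δ : ℝ} {φ : E → ℝ} {c : E} {r : ℝ} (h : ∀ x, x ∉ Metric.ball c r → φ x = 0)
    {x : E} (hx : x ∉ Metric.ball c (r + δ)) : avg δ φ x = 0 := by
  unfold avg
  have : ∫ y in Metric.ball (0:E) δ, φ (x + y) = ∫ y in Metric.ball (0:E) δ, (0:ℝ) := by
    apply setIntegral_congr_fun measurableSet_ball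
    intro y hy
    apply h
    intro h'
    apply hx
    rw [Metric.mem_ball, dist_eq_norm] at *
    calc ‖x - c‖ = ‖(x + y - c) - (y - 0)‖ := by congr 1; abel
      _ ≤ ‖x + y - c‖ + ‖y - 0‖ := norm_sub_le _ _
      _ < r + δ := by linarith
  rw [this]
  simp

lemma norm_sq_pair_fst {Ω : Set E} {φ : E → ℝ} (hφ : IsTest Ω φ) :
    ‖hφ.pair.1‖ ^ 2 = ∫ x, φ x ^ 2 := by
  rw [norm_sq_Lp]
  apply integral_congr_ae
  filter_upwards [hφ.pair_fst] with x hx
  simp [hx]

lemma norm_sq_pair_snd {Ω : Set E} {φ : E → ℝ} (hφ : IsTest Ω φ) :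
    ‖hφ.pair.2‖ ^ 2 = ∫ x, ‖gradient φ x‖ ^ 2 := by
  rw [norm_sq_Lp]
  apply integral_congr_ae
  filter_upwards [hφ.pair_snd] with x hx
  simp [hx]

lemma pair_sub {Ω : Set E} {φ ψ : E → ℝ} (hφ : IsTest Ω φ) (hψ : IsTest Ω ψ) :
    (hφ.sub hψ).pair = hφ.pair - hψ.pair := by
  apply Prod.ext
  · apply Lp.ext
    filter_upwards [(hφ.sub hψ).pair_fst, hφ.pair_fst, hψ.pair_fst,
      Lp.coeFn_sub hφ.pair.1 hψ.pair.1] with x h1 h2 h3 h4
    rw [Prod.fst_sub, h4, h1, Pi.sub_apply, h2, h3]
  · apply Lp.ext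
    filter_upwards [(hφ.sub hψ).pair_snd, hφ.pair_snd, hψ.pair_snd,
      Lp.coeFn_sub hφ.pair.2 hψ.pair.2] with x h1 h2 h3 h4
    rw [Prod.snd_sub, h4, h1, Pi.sub_apply, h2, h3, gradient_sub (hφ.differentiable x)
      (hψ.differentiable x)]

theorem rellich_test [Nontrivial E] {Ω : Set E} {c : E} {r : ℝ} (hr : 0 ≤ r)
    (hΩ : Ω ⊆ Metric.ball c r) (φ : ℕ → E → ℝ) (hφ : ∀ n, IsTest Ω (φ n)) (C : ℝ)
    (hC : ∀ n, ∫ x, ‖gradient (φ n) x‖ ^ 2 ≤ C) :
    ∃ ns : ℕ → ℕ, StrictMono ns ∧ CauchySeq (fun k => (hφ (ns k)).pair.1) := by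
  have hC0 : 0 ≤ C := le_trans (integral_nonneg (fun x => by positivity)) (hC 0)
  set M2 := 2 * r ^ 2 * C with hM2
  have hM20 : 0 ≤ M2 := by positivity
  have hL2 : ∀ n, ∫ x, φ n x ^ 2 ≤ M2 := by
    intro n
    refine (poincare_test hr hΩ (hφ n)).trans ?_
    exact mul_le_mul_of_nonneg_left (hC n) (by positivity)
  have hnorm : ∀ n, ‖(hφ n).pair.1‖ ≤ √M2 := by
    intro n
    apply Real.le_sqrt_of_sq_le
    rw [norm_sq_pair_fst]
    exact hL2 n
  have : Fact ((2:ℝ≥0∞) ≠ ⊤) := ⟨by simp⟩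
  obtain ⟨y, ns, hns, hweak⟩ := exists_weak_subseq (fun n => (hφ n).pair.1) _ hnorm
  refine ⟨ns, hns, ?_⟩
  -- averages of differences
  have claim1 : ∀ δ : ℝ, 0 < δ → Tendsto (fun n : ℕ × ℕ =>
      ∫ x, (avg δ (fun z => φ (ns n.1) z - φ (ns n.2) z) x) ^ 2) (atTop ×ˢ atTop) (𝓝 0) := by
    intro δ hδ
    set V := volume.real (Metric.ball (0:E) δ) with hV
    have hVpos : 0 < V := vol_pos hδ 0
    have h0 : (0:ℝ) = ∫ x : E, (0:ℝ) := by simp
    rw [h0]
    apply tendsto_integral_filter_of_dominated_convergence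
      ((Metric.ball c (r + δ)).indicator (fun _ => V⁻¹ * (4 * M2)))
    · refine Eventually.of_forall (fun n => ?_)
      have hc : Continuous (fun z => φ (ns n.1) z - φ (ns n.2) z) :=
        (hφ _).continuous.sub (hφ _).continuous
      exact ((stronglyMeasurable_avg hc).pow 2).aestronglyMeasurable
    · refine Eventually.of_forall (fun n => Eventually.of_forall (fun x => ?_))
      by_cases hx : x ∈ Metric.ball c (r + δ)
      · rw [indicator_of_mem hx, Real.norm_of_nonneg (sq_nonneg _)]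
        have hT := (hφ (ns n.1)).sub (hφ (ns n.2))
        refine (sq_avg_le hδ hT.continuous hT.compact x).trans ?_
        apply mul_le_mul_of_nonneg_left _ (by positivity)
        have i1 : Integrable (fun x => φ (ns n.1) x ^ 2) (volume : Measure E) :=
          ((hφ _).memLp 2).integrable_sq
        have i2 : Integrable (fun x => φ (ns n.2) x ^ 2) (volume : Measure E) :=
          ((hφ _).memLp 2).integrable_sq
        calc ∫ x, (φ (ns n.1) x - φ (ns n.2) x) ^ 2
            ≤ ∫ x, (2 * φ (ns n.1) x ^ 2 + 2 * φ (ns n.2) x ^ 2) := by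
              apply integral_mono (hT.memLp 2).integrable_sq
                ((i1.const_mul 2).add (i2.const_mul 2))
              intro x
              show (φ (ns n.1) x - φ (ns n.2) x) ^ 2 ≤
                2 * φ (ns n.1) x ^ 2 + 2 * φ (ns n.2) x ^ 2
              nlinarith [sq_nonneg (φ (ns n.1) x + φ (ns n.2) x)]
          _ = 2 * (∫ x, φ (ns n.1) x ^ 2) + 2 * ∫ x, φ (ns n.2) x ^ 2 := by
              rw [integral_add (i1.const_mul 2) (i2.const_mul 2), integral_const_mul,
                integral_const_mul]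
          _ ≤ 4 * M2 := by
              have := hL2 (ns n.1)
              have := hL2 (ns n.2)
              linarith
      · rw [indicator_of_notMem hx]
        have : avg δ (fun z => φ (ns n.1) z - φ (ns n.2) z) x = 0 := by
          apply avg_eq_zero _ hx
          intro z hz
          have hz' : z ∉ Ω := fun h => hz (hΩ h)
          rw [(hφ _).eq_zero hz', (hφ _).eq_zero hz', sub_zero]
        rw [this]
        simp
    · rw [integrable_indicator_iff measurableSet_ball]
      exact integrableOn_const measure_ball_lt_top.ne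
    · refine Eventually.of_forall (fun x => ?_)
      set g : Lp ℝ 2 (volume : Measure E) :=
        indicatorConstLp 2 (measurableSet_ball (x := x) (ε := δ)) measure_ball_lt_top.ne (1:ℝ)
        with hg
      have h1 : Tendsto (fun n : ℕ × ℕ => V⁻¹ * (⟪g, (hφ (ns n.1)).pair.1⟫)
          - V⁻¹ * (⟪g, (hφ (ns n.2)).pair.1⟫)) (atTop ×ˢ atTop)
          (𝓝 (V⁻¹ * ⟪g, y⟫ - V⁻¹ * ⟪g, y⟫)) := by
        have a := (hweak g).comp (tendsto_fst (f := (atTop : Filter ℕ)) (g := (atTop : Filter ℕ)))
        have b := (hweak g).comp (tendsto_snd (f := (atTop : Filter ℕ)) (g := (atTop : Filter ℕ)))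
        exact (a.const_mul _).sub (b.const_mul _)
      rw [sub_self] at h1
      have h2 := h1.pow 2
      have e : (0:ℝ) ^ 2 = 0 := by norm_num
      rw [e] at h2
      refine h2.congr (fun n => ?_)
      rw [avg_sub (hφ _).continuous (hφ _).continuous,
        avg_eq_inner x _ (hφ (ns n.1)).pair_fst, avg_eq_inner x _ (hφ (ns n.2)).pair_fst]
  have claim2 : ∀ δ : ℝ, 0 < δ → ∀ n : ℕ × ℕ,
      ‖(hφ (ns n.1)).pair.1 - (hφ (ns n.2)).pair.1‖ ^ 2 ≤ 8 * δ ^ 2 * C +
        2 * ∫ x, (avg δ (fun z => φ (ns n.1) z - φ (ns n.2) z) x) ^ 2 := by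
    intro δ hδ n
    have hT := (hφ (ns n.1)).sub (hφ (ns n.2))
    set ψ := fun z => φ (ns n.1) z - φ (ns n.2) z with hψ
    have hps : hT.pair = (hφ (ns n.1)).pair - (hφ (ns n.2)).pair :=
      pair_sub (hφ (ns n.1)) (hφ (ns n.2))
    have e1 : ‖(hφ (ns n.1)).pair.1 - (hφ (ns n.2)).pair.1‖ ^ 2 = ∫ x, ψ x ^ 2 := by
      have := norm_sq_pair_fst hT
      rw [hps] at this
      exact this
    rw [e1]
    have hgrad : ∫ x, ‖gradient ψ x‖ ^ 2 ≤ 4 * C := by
      have a := norm_sq_pair_snd hT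
      rw [hps, Prod.snd_sub] at a
      rw [← a]
      have b1 := norm_sq_pair_snd (hφ (ns n.1))
      have b2 := norm_sq_pair_snd (hφ (ns n.2))
      have c1 := hC (ns n.1)
      have c2 := hC (ns n.2)
      have d1 := norm_sub_le (hφ (ns n.1)).pair.2 (hφ (ns n.2)).pair.2
      have d2 := norm_nonneg ((hφ (ns n.1)).pair.2 - (hφ (ns n.2)).pair.2)
      nlinarith [sq_nonneg (‖(hφ (ns n.1)).pair.2‖ - ‖(hφ (ns n.2)).pair.2‖)]
    have hest := avg_estimate hδ hT.contDiff_one hT.compact
    -- integrability of (avg ψ)^2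
    have hm : StronglyMeasurable (avg δ ψ) := stronglyMeasurable_avg hT.continuous
    have hiA : Integrable (fun x => (avg δ ψ x) ^ 2) (volume : Measure E) := by
      have hb : Integrable ((Metric.ball c (r + δ)).indicator (fun _ : E =>
          (volume.real (Metric.ball (0:E) δ))⁻¹ * ∫ y, ψ y ^ 2)) (volume : Measure E) := by
        rw [integrable_indicator_iff measurableSet_ball]
        exact integrableOn_const measure_ball_lt_top.ne
      apply hb.mono (hm.pow 2).aestronglyMeasurable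
      refine Eventually.of_forall (fun x => ?_)
      by_cases hx : x ∈ Metric.ball c (r + δ)
      · show ‖(avg δ ψ x) ^ 2‖ ≤ _
        rw [indicator_of_mem hx, Real.norm_of_nonneg (sq_nonneg _)]
        exact (sq_avg_le hδ hT.continuous hT.compact x).trans (le_abs_self _)
      · have : avg δ ψ x = 0 := by
          apply avg_eq_zero _ hx
          intro z hz
          exact hT.eq_zero (fun h => hz (hΩ h))
        show ‖(avg δ ψ x) ^ 2‖ ≤ _
        rw [this]
        simp
    have hiB : Integrable (fun x => (ψ x - avg δ ψ x) ^ 2) (volume : Measure E) := by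
      refine ⟨((hT.continuous.stronglyMeasurable.sub hm).pow 2).aestronglyMeasurable, ?_⟩
      rw [hasFiniteIntegral_iff_ofReal (Eventually.of_forall (fun x => sq_nonneg _))]
      exact lt_of_le_of_lt hest ENNReal.ofReal_lt_top
    have hB : ∫ x, (ψ x - avg δ ψ x) ^ 2 ≤ δ ^ 2 * (4 * C) := by
      rw [integral_eq_lintegral_of_nonneg_ae (Eventually.of_forall (fun x => sq_nonneg _))
        hiB.aestronglyMeasurable]
      apply ENNReal.toReal_le_of_le_ofReal (by positivity)
      refine hest.trans (ENNReal.ofReal_le_ofReal ?_)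
      exact mul_le_mul_of_nonneg_left hgrad (by positivity)
    calc ∫ x, ψ x ^ 2 ≤ ∫ x, (2 * (ψ x - avg δ ψ x) ^ 2 + 2 * (avg δ ψ x) ^ 2) := by
          apply integral_mono (hT.memLp 2).integrable_sq
            ((hiB.const_mul 2).add (hiA.const_mul 2))
          intro x
          show ψ x ^ 2 ≤ 2 * (ψ x - avg δ ψ x) ^ 2 + 2 * (avg δ ψ x) ^ 2
          nlinarith [sq_nonneg (ψ x - 2 * avg δ ψ x)]
      _ = 2 * (∫ x, (ψ x - avg δ ψ x) ^ 2) + 2 * ∫ x, (avg δ ψ x) ^ 2 := by
          rw [integral_add (hiB.const_mul 2) (hiA.const_mul 2), integral_const_mul,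
            integral_const_mul]
      _ ≤ 8 * δ ^ 2 * C + 2 * ∫ x, (avg δ ψ x) ^ 2 := by linarith
  -- conclusion
  rw [cauchySeq_iff_tendsto_dist_atTop_0, ← prod_atTop_atTop_eq, Metric.tendsto_nhds]
  intro ε hε
  obtain ⟨δ, hδ, hδε⟩ : ∃ δ : ℝ, 0 < δ ∧ 8 * δ ^ 2 * C < ε ^ 2 / 2 := by
    have ht : Tendsto (fun δ : ℝ => 8 * δ ^ 2 * C) (𝓝[>] 0) (𝓝 (8 * 0 ^ 2 * C)) := by
      apply Tendsto.mono_left _ nhdsWithin_le_nhds
      apply Continuous.tendsto
      fun_prop
    have e : 8 * (0:ℝ) ^ 2 * C = 0 := by ring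
    rw [e] at ht
    have h1 := ht.eventually (gt_mem_nhds (show (0:ℝ) < ε ^ 2 / 2 by positivity))
    have h2 : ∀ᶠ δ : ℝ in 𝓝[>] 0, 0 < δ := eventually_mem_nhdsWithin
    obtain ⟨δ, h3, h4⟩ := (h1.and h2).exists
    exact ⟨δ, h4, h3⟩
  have hev := (claim1 δ hδ).eventually (gt_mem_nhds (show (0:ℝ) < ε ^ 2 / 4 by positivity))
  filter_upwards [hev] with n hn
  rw [Real.dist_0_eq_abs, abs_of_nonneg dist_nonneg, dist_eq_norm]
  have h1 := claim2 δ hδ n
  have h2 : ‖(hφ (ns n.1)).pair.1 - (hφ (ns n.2)).pair.1‖ ^ 2 < ε ^ 2 := by linarith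
  exact lt_of_pow_lt_pow_left₀ 2 hε.le h2

/-- Rellich's theorem on `W Ω`. -/
theorem rellich [Nontrivial E] {Ω : Set E} {c : E} {r : ℝ} (hr : 0 ≤ r)
    (hΩ : Ω ⊆ Metric.ball c r) (p : ℕ → Lp ℝ 2 (volume : Measure E) × Lp E 2 (volume : Measure E))
    (hp : ∀ n, p n ∈ W Ω) (C : ℝ) (hC : ∀ n, ‖(p n).2‖ ^ 2 ≤ C) :
    ∃ ns : ℕ → ℕ, StrictMono ns ∧ ∃ f, Tendsto (fun k => (p (ns k)).1) atTop (𝓝 f) := by
  have hC0 : 0 ≤ C := le_trans (by positivity) (hC 0)
  have hex : ∀ n : ℕ, ∃ a ∈ TS Ω, dist a (p n) < 1 / ((n : ℝ) + 1) := by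
    intro n
    have h1 : p n ∈ closure (TS Ω : Set (Lp ℝ 2 (volume : Measure E) × Lp E 2 (volume : Measure E))) := by
      have := hp n
      unfold W at this
      rw [← SetLike.mem_coe, Submodule.topologicalClosure_coe] at this
      exact this
    obtain ⟨a, ha, hd⟩ := Metric.mem_closure_iff.mp h1 (1 / ((n : ℝ) + 1)) (by positivity)
    exact ⟨a, ha, by rwa [dist_comm]⟩
  choose a haT had using hex
  choose φ hφ hφ1 hφ2 using haT
  have hle1 : ∀ n : ℕ, 1 / ((n : ℝ) + 1) ≤ 1 := by
    intro n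
    rw [div_le_one (by positivity)]
    have : (0:ℝ) ≤ n := Nat.cast_nonneg n
    linarith
  have hap : ∀ n, (hφ n).pair = a n := by
    intro n
    apply Prod.ext
    · apply Lp.ext
      filter_upwards [(hφ n).pair_fst, hφ1 n] with x h1 h2
      rw [h1, h2]
    · apply Lp.ext
      filter_upwards [(hφ n).pair_snd, hφ2 n] with x h1 h2
      rw [h1, h2]
  have hb : ∀ n, ∫ x, ‖gradient (φ n) x‖ ^ 2 ≤ (√C + 1) ^ 2 := by
    intro n
    rw [← norm_sq_pair_snd (hφ n), hap n]
    apply pow_le_pow_left₀ (norm_nonneg _)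
    have h1 : ‖(p n).2‖ ≤ √C := Real.le_sqrt_of_sq_le (hC n)
    have h2 : dist (a n).2 (p n).2 ≤ dist (a n) (p n) := le_max_right _ _
    have h3 := had n
    have h4 := hle1 n
    have h5 : ‖(a n).2‖ ≤ ‖(a n).2 - (p n).2‖ + ‖(p n).2‖ := by
      have := norm_add_le ((a n).2 - (p n).2) (p n).2
      simpa using this
    rw [dist_eq_norm] at h2
    linarith
  obtain ⟨ns, hns, hcs⟩ := rellich_test hr hΩ φ hφ _ hb
  obtain ⟨f, hf⟩ := cauchySeq_tendsto_of_complete hcs
  refine ⟨ns, hns, f, ?_⟩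
  have h1 : Tendsto (fun k => (a (ns k)).1) atTop (𝓝 f) := by
    simpa only [hap] using hf
  have h2 : Tendsto (fun k => dist (a (ns k)).1 (p (ns k)).1) atTop (𝓝 0) := by
    apply squeeze_zero (fun _ => dist_nonneg) (g := fun k => 1 / ((ns k : ℝ) + 1))
    · intro k
      exact (le_max_left _ _ : dist (a (ns k)).1 (p (ns k)).1 ≤ dist (a (ns k)) (p (ns k))).trans
        (had (ns k)).le
    · exact (tendsto_one_div_add_atTop_nhds_zero_nat (𝕜 := ℝ)).comp hns.tendsto_atTop
  exact (tendsto_iff_of_dist h2).mp h1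

end Pool.Agent.MP_0fb79d_an
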