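import Pool.Agent.Lib_MP_0fb79d_an.Basic

/-!
The space `W Ω` of pairs `(u, ∇u)`.
-/

open MeasureTheory Filter Topology Set
open scoped ENNReal ContDiff RealInnerProductSpace

noncomputable section

namespace Pool.Agent.MP_0fb79d_an

section general

variable {α : Type*} [MeasurableSpace α] {μ : Measure α} {F : Type*} [NormedAddCommGroup F]
  [InnerProductSpace ℝ F]

lemma norm_sq_Lp (f : Lp F 2 μ) : ‖f‖ ^ 2 = ∫ x, ‖f x‖ ^ 2 ∂μ := by
  rw [← real_inner_self_eq_norm_sq, L2.inner_def]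
  simp_rw [real_inner_self_eq_norm_sq]

omit [InnerProductSpace ℝ F] in
lemma integrable_norm_sq_Lp (f : Lp F 2 μ) : Integrable (fun x => ‖f x‖ ^ 2) μ :=
  (Lp.memLp f).integrable_norm_pow (by norm_num)

/-- multiplication by the indicator of `s` -/
def indL (F : Type*) [NormedAddCommGroup F] [InnerProductSpace ℝ F] (μ : Measure α)
    {s : Set α} (hs : MeasurableSet s) : Lp F 2 μ →L[ℝ] Lp F 2 μ :=
  LinearMap.mkContinuous
    { toFun := fun f => ((Lp.memLp f).indicator hs).toLp _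
      map_add' := fun f g => by
        rw [← MemLp.toLp_add]
        apply MemLp.toLp_congr
        filter_upwards [Lp.coeFn_add f g] with x hx
        by_cases h : x ∈ s
        · rw [indicator_of_mem h, hx]
          simp [h]
        · simp [h]
      map_smul' := fun c f => by
        rw [RingHom.id_apply, ← MemLp.toLp_const_smul]
        apply MemLp.toLp_congr
        filter_upwards [Lp.coeFn_smul c f] with x hx
        by_cases h : x ∈ s
        · rw [indicator_of_mem h, hx]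
          simp [h]
        · simp [h] } 1
    (fun f => by
      simp only [LinearMap.coe_mk, AddHom.coe_mk, one_mul, Lp.norm_toLp]
      rw [Lp.norm_def]
      apply ENNReal.toReal_mono (Lp.eLpNorm_ne_top f)
      exact eLpNorm_indicator_le _)

lemma indL_coe {s : Set α} (hs : MeasurableSet s) (f : Lp F 2 μ) :
    indL F μ hs f =ᵐ[μ] s.indicator f :=
  ((Lp.memLp f).indicator hs).coeFn_toLp

end general

variable {E : Type*} [NormedAddCommGroup E] [InnerProductSpace ℝ E] [FiniteDimensional ℝ E]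
  [CompleteSpace E] [MeasurableSpace E] [BorelSpace E]

/-- pairs `(φ, ∇φ)` with `φ` a test function -/
def TS (Ω : Set E) : Submodule ℝ (Lp ℝ 2 (volume : Measure E) × Lp E 2 (volume : Measure E)) where
  carrier := {p | ∃ φ : E → ℝ, IsTest Ω φ ∧ p.1 =ᵐ[volume] φ ∧ p.2 =ᵐ[volume] gradient φ}
  add_mem' := by
    rintro p p' ⟨φ, hφ, h1, h2⟩ ⟨ψ, hψ, h3, h4⟩
    refine ⟨fun x => φ x + ψ x, hφ.add hψ, ?_, ?_⟩
    · filter_upwards [Lp.coeFn_add p.1 p'.1, h1, h3] with x hx h1 h3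
      rw [Prod.fst_add, hx, Pi.add_apply, h1, h3]
    · filter_upwards [Lp.coeFn_add p.2 p'.2, h2, h4] with x hx h2 h4
      rw [gradient_add (hφ.differentiable x) (hψ.differentiable x), Prod.snd_add, hx,
        Pi.add_apply, h2, h4]
  zero_mem' := by
    refine ⟨fun _ => 0, IsTest.zero, ?_, ?_⟩
    · exact Lp.coeFn_zero _ _ _
    · have : gradient (fun _ : E => (0:ℝ)) = fun _ => 0 := gradient_fun_const' 0
      rw [this]
      exact Lp.coeFn_zero _ _ _
  smul_mem' := by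
    rintro c p ⟨φ, hφ, h1, h2⟩
    refine ⟨fun x => c * φ x, hφ.const_mul c, ?_, ?_⟩
    · filter_upwards [Lp.coeFn_smul c p.1, h1] with x hx h1
      rw [Prod.smul_fst, hx, Pi.smul_apply, h1, smul_eq_mul]
    · filter_upwards [Lp.coeFn_smul c p.2, h2] with x hx h2
      rw [gradient_const_mul c (hφ.differentiable x), Prod.smul_snd, hx, Pi.smul_apply, h2]

/-- the pair `(φ, ∇φ)` -/
def IsTest.pair {Ω : Set E} {φ : E → ℝ} (hφ : IsTest Ω φ) :
    Lp ℝ 2 (volume : Measure E) × Lp E 2 (volume : Measure E) :=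
  ((hφ.memLp 2).toLp φ, (hφ.memLp_gradient 2).toLp (gradient φ))

lemma IsTest.pair_fst {Ω : Set E} {φ : E → ℝ} (hφ : IsTest Ω φ) :
    hφ.pair.1 =ᵐ[volume] φ := (hφ.memLp 2).coeFn_toLp

lemma IsTest.pair_snd {Ω : Set E} {φ : E → ℝ} (hφ : IsTest Ω φ) :
    hφ.pair.2 =ᵐ[volume] gradient φ := (hφ.memLp_gradient 2).coeFn_toLp

lemma IsTest.pair_mem {Ω : Set E} {φ : E → ℝ} (hφ : IsTest Ω φ) : hφ.pair ∈ TS Ω :=
  ⟨φ, hφ, hφ.pair_fst, hφ.pair_snd⟩

/-- `W Ω`: the closure of `TS Ω` in `L² × L²`. -/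
def W (Ω : Set E) : Submodule ℝ (Lp ℝ 2 (volume : Measure E) × Lp E 2 (volume : Measure E)) :=
  (TS Ω).topologicalClosure

lemma TS_le_W (Ω : Set E) : TS Ω ≤ W Ω := Submodule.le_topologicalClosure _

lemma isClosed_W (Ω : Set E) : IsClosed (W Ω : Set (Lp ℝ 2 (volume : Measure E) × Lp E 2 (volume : Measure E))) :=
  Submodule.isClosed_topologicalClosure _

lemma IsTest.pair_mem_W {Ω : Set E} {φ : E → ℝ} (hφ : IsTest Ω φ) : hφ.pair ∈ W Ω :=
  TS_le_W Ω hφ.pair_mem

lemma W_mono {Ω Ω' : Set E} (h : Ω ⊆ Ω') : W Ω ≤ W Ω' := by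
  apply Submodule.topologicalClosure_mono
  rintro p ⟨φ, hφ, h1, h2⟩
  exact ⟨φ, hφ.mono h, h1, h2⟩

/-- induction principle: closed conditions that hold for test pairs hold on `W`. -/
lemma W_induction {Ω : Set E} {P : Lp ℝ 2 (volume : Measure E) × Lp E 2 (volume : Measure E) → Prop}
    (hclosed : IsClosed {p | P p}) (h : ∀ p ∈ TS Ω, P p) {p} (hp : p ∈ W Ω) : P p := by
  have : (W Ω : Set _) ⊆ {p | P p} := by
    unfold W
    rw [Submodule.topologicalClosure_coe]
    exact closure_minimal h hclosed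
  exact this hp

/-- sequential description of `W` -/
lemma mem_W_iff_seq {Ω : Set E} {p : Lp ℝ 2 (volume : Measure E) × Lp E 2 (volume : Measure E)} :
    p ∈ W Ω ↔ ∃ a : ℕ → Lp ℝ 2 (volume : Measure E) × Lp E 2 (volume : Measure E),
      (∀ n, a n ∈ TS Ω) ∧ Tendsto a atTop (𝓝 p) := by
  unfold W
  rw [← SetLike.mem_coe, Submodule.topologicalClosure_coe, mem_closure_iff_seq_limit]
  rfl

/-- Poincare inequality on `W`. -/
lemma poincare [Nontrivial E] {Ω : Set E} {c : E} {r : ℝ} (hr : 0 ≤ r)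
    (hΩ : Ω ⊆ Metric.ball c r) {p} (hp : p ∈ W Ω) :
    ‖p.1‖ ^ 2 ≤ 2 * r ^ 2 * ‖p.2‖ ^ 2 := by
  refine W_induction (P := fun p => ‖p.1‖ ^ 2 ≤ 2 * r ^ 2 * ‖p.2‖ ^ 2) ?_ ?_ hp
  · exact isClosed_le (by fun_prop) (by fun_prop)
  · rintro p ⟨φ, hφ, h1, h2⟩
    rw [norm_sq_Lp, norm_sq_Lp]
    have e1 : ∫ x, ‖p.1 x‖ ^ 2 = ∫ x, φ x ^ 2 := by
      apply integral_congr_ae
      filter_upwards [h1] with x hx
      simp [hx]
    have e2 : ∫ x, ‖p.2 x‖ ^ 2 = ∫ x, ‖gradient φ x‖ ^ 2 := by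
      apply integral_congr_ae
      filter_upwards [h2] with x hx
      simp [hx]
    rw [e1, e2]
    exact poincare_test hr hΩ hφ

/-- elements of `W Ω` vanish outside of `Ω`. -/
lemma W_eq_zero {Ω : Set E} (hΩ : MeasurableSet Ω) {p} (hp : p ∈ W Ω) :
    ∀ᵐ x ∂(volume : Measure E), x ∉ Ω → p.1 x = 0 ∧ p.2 x = 0 := by
  have key : indL ℝ (volume : Measure E) hΩ p.1 = p.1 ∧ indL E (volume : Measure E) hΩ p.2 = p.2 := by
    refine W_induction (P := fun p => indL ℝ (volume : Measure E) hΩ p.1 = p.1 ∧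
      indL E (volume : Measure E) hΩ p.2 = p.2) ?_ ?_ hp
    · apply IsClosed.inter
      · exact isClosed_eq (by fun_prop) (by fun_prop)
      · exact isClosed_eq (by fun_prop) (by fun_prop)
    · rintro p ⟨φ, hφ, h1, h2⟩
      constructor
      · apply Lp.ext
        filter_upwards [indL_coe hΩ p.1, h1] with x hx h1
        rw [hx]
        by_cases h : x ∈ Ω
        · simp [h]
        · simp [h, h1, hφ.eq_zero h]
      · apply Lp.ext
        filter_upwards [indL_coe hΩ p.2, h2] with x hx h2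
        rw [hx]
        by_cases h : x ∈ Ω
        · simp [h]
        · simp [h, h2, hφ.gradient_eq_zero h]
  filter_upwards [indL_coe hΩ p.1, indL_coe hΩ p.2] with x h1 h2 hx
  rw [key.1] at h1
  rw [key.2] at h2
  simp [h1, h2, hx]

end Pool.Agent.MP_0fb79d_an
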