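import Pool.Agent.Lib_MP_0fb79d_an.Ball

/-!
Disjoint unions: restriction of functions in `W (Ω₁ ∪ Ω₂)` to `Ω₁`; the structure `GoodData`.
-/

open MeasureTheory Filter Topology Set
open scoped ENNReal ContDiff RealInnerProductSpace

set_option linter.unusedSectionVars false

noncomputable section

namespace Pool.Agent.MP_0fb79d_an

variable {E : Type*} [NormedAddCommGroup E] [InnerProductSpace ℝ E] [FiniteDimensional ℝ E]
  [CompleteSpace E] [MeasurableSpace E] [BorelSpace E]

section splitting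

variable {Ω₁ Ω₂ : Set E}

lemma indicator_eventuallyEq_left (h₁ : IsOpen Ω₁) {φ : E → ℝ} {x : E} (hx : x ∈ Ω₁) :
    Ω₁.indicator φ =ᶠ[𝓝 x] φ := by
  filter_upwards [h₁.mem_nhds hx] with y hy
  rw [indicator_of_mem hy]

lemma indicator_eventuallyEq_right (h₂ : IsOpen Ω₂) (hd : Disjoint Ω₁ Ω₂) {φ : E → ℝ} {x : E}
    (hx : x ∈ Ω₂) : Ω₁.indicator φ =ᶠ[𝓝 x] 0 := by
  filter_upwards [h₂.mem_nhds hx] with y hy
  rw [indicator_of_notMem (fun h => disjoint_left.mp hd h hy)]
  rfl

lemma indicator_eventuallyEq_out {φ : E → ℝ} (hφ : IsTest (Ω₁ ∪ Ω₂) φ) {x : E}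
    (hx : x ∉ Ω₁ ∪ Ω₂) : Ω₁.indicator φ =ᶠ[𝓝 x] 0 := by
  have h1 : φ =ᶠ[𝓝 x] 0 := notMem_tsupport_iff_eventuallyEq.mp (fun h => hx (hφ.supp h))
  filter_upwards [h1] with y hy
  by_cases h : y ∈ Ω₁
  · rw [indicator_of_mem h]; exact hy
  · rw [indicator_of_notMem h]; rfl

lemma IsTest.indicator_left (h₁ : IsOpen Ω₁) (h₂ : IsOpen Ω₂) (hd : Disjoint Ω₁ Ω₂)
    {φ : E → ℝ} (hφ : IsTest (Ω₁ ∪ Ω₂) φ) : IsTest Ω₁ (Ω₁.indicator φ) := by
  have hs : Function.support (Ω₁.indicator φ) ⊆ Function.support φ := by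
    rw [Set.support_indicator]
    exact inter_subset_right
  have hts : tsupport (Ω₁.indicator φ) ⊆ tsupport φ := closure_mono hs
  refine ⟨?_, hφ.compact.isCompact.of_isClosed_subset (isClosed_tsupport _) hts, ?_⟩
  · rw [contDiff_iff_contDiffAt]
    intro x
    by_cases hx : x ∈ Ω₁ ∪ Ω₂
    · rcases hx with hx | hx
      · exact hφ.smooth.contDiffAt.congr_of_eventuallyEq (indicator_eventuallyEq_left h₁ hx)
      · exact (contDiffAt_const (c := (0:ℝ))).congr_of_eventuallyEq
          (indicator_eventuallyEq_right h₂ hd hx)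
    · exact (contDiffAt_const (c := (0:ℝ))).congr_of_eventuallyEq
          (indicator_eventuallyEq_out hφ hx)
  · intro x hx
    rcases hφ.supp (hts hx) with h | h
    · exact h
    · exact absurd hx (notMem_tsupport_iff_eventuallyEq.mpr
        (indicator_eventuallyEq_right h₂ hd h))

lemma gradient_indicator_left (h₁ : IsOpen Ω₁) (h₂ : IsOpen Ω₂) (hd : Disjoint Ω₁ Ω₂)
    {φ : E → ℝ} (hφ : IsTest (Ω₁ ∪ Ω₂) φ) :
    gradient (Ω₁.indicator φ) = Ω₁.indicator (gradient φ) := by
  ext1 x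
  by_cases hx : x ∈ Ω₁ ∪ Ω₂
  · rcases hx with hx | hx
    · rw [(indicator_eventuallyEq_left h₁ hx).gradient_eq, indicator_of_mem hx]
    · rw [(indicator_eventuallyEq_right h₂ hd hx).gradient_eq,
        indicator_of_notMem (fun h => disjoint_left.mp hd h hx)]
      exact gradient_fun_const x 0
  · rw [(indicator_eventuallyEq_out hφ hx).gradient_eq,
      indicator_of_notMem (fun h => hx (Or.inl h))]
    exact gradient_fun_const x 0

/-- restriction of a pair to a measurable set -/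
def restr {s : Set E} (hs : MeasurableSet s) :
    (Lp ℝ 2 (volume : Measure E) × Lp E 2 (volume : Measure E)) →L[ℝ]
    (Lp ℝ 2 (volume : Measure E) × Lp E 2 (volume : Measure E)) :=
  (indL ℝ (volume : Measure E) hs).prodMap (indL E (volume : Measure E) hs)

lemma restr_fst {s : Set E} (hs : MeasurableSet s)
    (p : Lp ℝ 2 (volume : Measure E) × Lp E 2 (volume : Measure E)) :
    (restr hs p).1 =ᵐ[volume] s.indicator p.1 := indL_coe hs p.1

lemma restr_snd {s : Set E} (hs : MeasurableSet s)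
    (p : Lp ℝ 2 (volume : Measure E) × Lp E 2 (volume : Measure E)) :
    (restr hs p).2 =ᵐ[volume] s.indicator p.2 := indL_coe hs p.2

lemma restr_mem_W (h₁ : IsOpen Ω₁) (h₂ : IsOpen Ω₂) (hd : Disjoint Ω₁ Ω₂)
    {p : Lp ℝ 2 (volume : Measure E) × Lp E 2 (volume : Measure E)} (hp : p ∈ W (Ω₁ ∪ Ω₂)) :
    restr h₁.measurableSet p ∈ W Ω₁ := by
  refine W_induction (P := fun p => restr h₁.measurableSet p ∈ W Ω₁) ?_ ?_ hp
  · exact (isClosed_W Ω₁).preimage (restr h₁.measurableSet).continuous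
  · rintro p ⟨φ, hφ, h1, h2⟩
    apply TS_le_W
    refine ⟨Ω₁.indicator φ, hφ.indicator_left h₁ h₂ hd, ?_, ?_⟩
    · filter_upwards [restr_fst h₁.measurableSet p, h1] with x hx h1
      rw [hx]
      by_cases h : x ∈ Ω₁ <;> simp [h, h1]
    · rw [gradient_indicator_left h₁ h₂ hd hφ]
      filter_upwards [restr_snd h₁.measurableSet p, h2] with x hx h2
      rw [hx]
      by_cases h : x ∈ Ω₁ <;> simp [h, h2]

end splitting

/-- The analytic facts on `Ω` which are used in the variational arguments. -/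
structure GoodData (Ω : Set E) where
  isOpen : IsOpen Ω
  nonempty : Ω.Nonempty
  ctr : E
  rad : ℝ
  rad_nonneg : 0 ≤ rad
  sub_ball : Ω ⊆ Metric.ball ctr rad
  ρ : E → ℝ
  ρ_meas : Measurable ρ
  ρ_pos : ∀ x ∈ Ω, 0 < ρ x
  CH : ℝ
  CH_nonneg : 0 ≤ CH
  hardy : ∀ φ, IsTest Ω φ →
    ∫⁻ x, ENNReal.ofReal (φ x ^ 2 / ρ x ^ 2) ≤ ENNReal.ofReal (CH * ∫ x, ‖gradient φ x‖ ^ 2)
  psi : Lp ℝ 2 (volume : Measure E) × Lp E 2 (volume : Measure E)
  psi_mem : psi ∈ W Ω
  psi_fst : psi.1 =ᵐ[volume] Ω.indicator (fun x => ρ x ^ 2)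
  g : E → ℝ
  g_meas : Measurable g
  g_zero : ∀ x, x ∉ Ω → g x = 0
  Bg : ℝ
  g_bdd : ∀ x, |g x| ≤ Bg
  eq_weak : ∀ p ∈ W Ω, ⟪psi.2, p.2⟫ = ∫ x, g x * p.1 x
  ρ0 : ℝ
  ρ0_pos : 0 < ρ0
  g_nonpos : ∀ x ∈ Ω, ρ x < ρ0 → g x ≤ 0

lemma memLp_of_bdd_supp {g : E → ℝ} (hg : Measurable g) {B : ℝ} (hB : ∀ x, |g x| ≤ B)
    {s : Set E} (hs : MeasurableSet s) (hsf : (volume : Measure E) s ≠ ⊤)
    (h0 : ∀ x, x ∉ s → g x = 0) : MemLp g 2 (volume : Measure E) := by
  have h1 : g = s.indicator g := by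
    ext x
    by_cases hx : x ∈ s
    · rw [indicator_of_mem hx]
    · rw [indicator_of_notMem hx, h0 x hx]
  rw [h1, memLp_indicator_iff_restrict hs]
  have : IsFiniteMeasure ((volume : Measure E).restrict s) :=
    ⟨by rw [Measure.restrict_apply_univ]; exact lt_top_iff_ne_top.mpr hsf⟩
  exact MemLp.of_bound hg.aestronglyMeasurable B (Eventually.of_forall (fun x => hB x))

/-- the data for a ball -/
theorem goodData_ball [Nontrivial E] (a : E) {R : ℝ} (hR : 0 < R) :
    Nonempty (GoodData (Metric.ball a R)) := by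
  obtain ⟨p, hp, hp1, hp2⟩ := exists_psi a hR
  have hcr : Continuous (rho a R) := continuous_rho a R
  have hN : 1 ≤ dim E := by
    unfold dim
    have : 0 < Module.finrank ℝ E := Module.finrank_pos
    exact_mod_cast this
  set g0 : E → ℝ := fun x => 4 * dim E * rho a R x - 8 * ‖x - a‖ ^ 2 with hg0
  have hg0c : Continuous g0 := by fun_prop
  obtain ⟨B, hB⟩ := (isCompact_closedBall a R).exists_bound_of_continuousOn hg0c.continuousOn
  have hB0 : 0 ≤ B := (norm_nonneg _).trans (hB a (Metric.mem_closedBall_self hR.le))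
  have hgb : ∀ x, |(Metric.ball a R).indicator g0 x| ≤ B := by
    intro x
    by_cases hx : x ∈ Metric.ball a R
    · rw [indicator_of_mem hx]
      exact hB x (Metric.ball_subset_closedBall hx)
    · rw [indicator_of_notMem hx]
      simpa using hB0
  have hgm : Measurable ((Metric.ball a R).indicator g0) :=
    hg0c.measurable.indicator measurableSet_ball
  have hgL : MemLp ((Metric.ball a R).indicator g0) 2 (volume : Measure E) :=
    memLp_of_bdd_supp hgm hgb measurableSet_ball measure_ball_lt_top.ne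
      (fun x hx => indicator_of_notMem hx _)
  refine ⟨{
    isOpen := Metric.isOpen_ball
    nonempty := ⟨a, Metric.mem_ball_self hR⟩
    ctr := a
    rad := R
    rad_nonneg := hR.le
    sub_ball := Subset.rfl
    ρ := rho a R
    ρ_meas := hcr.measurable
    ρ_pos := fun x hx => rho_pos hx
    CH := (R ^ 2)⁻¹
    CH_nonneg := by positivity
    hardy := ?_
    psi := p
    psi_mem := hp
    psi_fst := hp1
    g := (Metric.ball a R).indicator g0
    g_meas := hgm
    g_zero := fun x hx => indicator_of_notMem hx _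
    Bg := B
    g_bdd := hgb
    eq_weak := ?_
    ρ0 := 8 * R ^ 2 / (4 * dim E + 8)
    ρ0_pos := by positivity
    g_nonpos := ?_ }⟩
  · intro φ hφ
    have hh := hardy_test hφ
    have hrs : ContDiffOn ℝ ∞ (fun x => (rho a R x)⁻¹) (Metric.ball a R) := by
      apply (contDiff_rho a R).contDiffOn.inv
      intro x hx
      exact (rho_pos hx).ne'
    have hζ : IsTest (Metric.ball a R)
        (fun x => φ x * (φ x * (rho a R x)⁻¹ * (rho a R x)⁻¹)) :=
      hφ.mul_contDiffOn Metric.isOpen_ball ((hφ.smooth.contDiffOn.mul hrs).mul hrs)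
    have hζe : (fun x => φ x ^ 2 / rho a R x ^ 2) =
        fun x => φ x * (φ x * (rho a R x)⁻¹ * (rho a R x)⁻¹) := by
      ext x
      by_cases h : rho a R x = 0
      · simp [h]
      · field_simp
    have hi : Integrable (fun x => φ x ^ 2 / rho a R x ^ 2) (volume : Measure E) := by
      rw [hζe]; exact hζ.integrable
    rw [← ofReal_integral_eq_lintegral_ofReal hi (Eventually.of_forall (fun x => by positivity))]
    apply ENNReal.ofReal_le_ofReal
    rw [inv_mul_eq_div, le_div_iff₀ (by positivity)]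
    linarith
  · intro w hw
    refine W_induction (P := fun w => ⟪p.2, w.2⟫ = ∫ x, (Metric.ball a R).indicator g0 x * w.1 x)
      ?_ ?_ hw
    · have e : ∀ w : Lp ℝ 2 (volume : Measure E) × Lp E 2 (volume : Measure E),
          ∫ x, (Metric.ball a R).indicator g0 x * w.1 x = ⟪hgL.toLp _, w.1⟫ := by
        intro w
        rw [L2.inner_def]
        apply integral_congr_ae
        filter_upwards [hgL.coeFn_toLp] with x hx
        rw [hx]
        simp [mul_comm]
      simp only [e]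
      exact isClosed_eq (by fun_prop) (by fun_prop)
    · rintro w ⟨φ, hφ, h1, h2⟩
      rw [L2.inner_def]
      have e1 : ∫ x, ⟪p.2 x, w.2 x⟫ = ∫ x, (-4) * ⟪rho a R x • (x - a), gradient φ x⟫ := by
        apply integral_congr_ae
        filter_upwards [hp2, h2] with x hx h2
        rw [hx, h2]
        by_cases hx : x ∈ Metric.ball a R
        · rw [indicator_of_mem hx, inner_smul_left, inner_smul_left]
          simp
          ring
        · rw [indicator_of_notMem hx, hφ.gradient_eq_zero hx]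
          simp
      have e2 : ∫ x, (Metric.ball a R).indicator g0 x * w.1 x = ∫ x, (-4) *
          ((2 * ‖x - a‖ ^ 2 - dim E * rho a R x) * φ x) := by
        apply integral_congr_ae
        filter_upwards [h1] with x h1
        rw [h1]
        by_cases hx : x ∈ Metric.ball a R
        · rw [indicator_of_mem hx, hg0]
          ring
        · rw [indicator_of_notMem hx, hφ.eq_zero hx]
          simp
      rw [e1, e2, integral_const_mul, integral_const_mul, ibp_rho a R hφ.contDiff_one hφ.compact]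
  · intro x hx hlt
    rw [indicator_of_mem hx, hg0]
    simp only
    rw [lt_div_iff₀ (by positivity)] at hlt
    have : ‖x - a‖ ^ 2 = R ^ 2 - rho a R x := by unfold rho; ring
    rw [this]
    linarith

/-- the data for a disjoint union -/
theorem goodData_union {Ω₁ Ω₂ : Set E} (d₁ : GoodData Ω₁) (d₂ : GoodData Ω₂)
    (hd : Disjoint Ω₁ Ω₂) : Nonempty (GoodData (Ω₁ ∪ Ω₂)) := by
  classical
  have h₁ := d₁.isOpen
  have h₂ := d₂.isOpen
  obtain ⟨r, hr⟩ : ∃ r : ℝ, Ω₁ ∪ Ω₂ ⊆ Metric.ball (0:E) r := by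
    have hb : Bornology.IsBounded (Ω₁ ∪ Ω₂) :=
      (Metric.isBounded_ball.subset d₁.sub_ball).union (Metric.isBounded_ball.subset d₂.sub_ball)
    exact hb.subset_ball 0
  set ρ : E → ℝ := fun x => if x ∈ Ω₁ then d₁.ρ x else d₂.ρ x with hρ
  have hρ1 : ∀ x ∈ Ω₁, ρ x = d₁.ρ x := fun x hx => by simp [hρ, hx]
  have hρ2 : ∀ x ∈ Ω₂, ρ x = d₂.ρ x := fun x hx => by
    have : x ∉ Ω₁ := fun h => disjoint_left.mp hd h hx
    simp [hρ, this]
  have hd' : Disjoint Ω₂ Ω₁ := hd.symm
  refine ⟨{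
    isOpen := h₁.union h₂
    nonempty := d₁.nonempty.inl
    ctr := 0
    rad := max r 0
    rad_nonneg := le_max_right _ _
    sub_ball := hr.trans (Metric.ball_subset_ball (le_max_left _ _))
    ρ := ρ
    ρ_meas := Measurable.ite h₁.measurableSet d₁.ρ_meas d₂.ρ_meas
    ρ_pos := ?_
    CH := max d₁.CH d₂.CH
    CH_nonneg := le_max_of_le_left d₁.CH_nonneg
    hardy := ?_
    psi := d₁.psi + d₂.psi
    psi_mem := (W _).add_mem (W_mono subset_union_left d₁.psi_mem)
      (W_mono subset_union_right d₂.psi_mem)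
    psi_fst := ?_
    g := fun x => d₁.g x + d₂.g x
    g_meas := d₁.g_meas.add d₂.g_meas
    g_zero := ?_
    Bg := d₁.Bg + d₂.Bg
    g_bdd := fun x => (abs_add_le _ _).trans (add_le_add (d₁.g_bdd x) (d₂.g_bdd x))
    eq_weak := ?_
    ρ0 := min d₁.ρ0 d₂.ρ0
    ρ0_pos := lt_min d₁.ρ0_pos d₂.ρ0_pos
    g_nonpos := ?_ }⟩
  · rintro x (hx | hx)
    · rw [hρ1 x hx]; exact d₁.ρ_pos x hx
    · rw [hρ2 x hx]; exact d₂.ρ_pos x hx
  · intro φ hφ
    have hφ' : IsTest (Ω₂ ∪ Ω₁) φ := by rw [union_comm]; exact hφ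
    have t1 := hφ.indicator_left h₁ h₂ hd
    have t2 := hφ'.indicator_left h₂ h₁ hd'
    have g1 := gradient_indicator_left h₁ h₂ hd hφ
    have g2 := gradient_indicator_left h₂ h₁ hd' hφ'
    have e1 : ∀ x, ENNReal.ofReal (φ x ^ 2 / ρ x ^ 2) =
        ENNReal.ofReal (Ω₁.indicator φ x ^ 2 / d₁.ρ x ^ 2) +
        ENNReal.ofReal (Ω₂.indicator φ x ^ 2 / d₂.ρ x ^ 2) := by
      intro x
      by_cases hx1 : x ∈ Ω₁
      · have hx2 : x ∉ Ω₂ := fun h => disjoint_left.mp hd hx1 h
        rw [hρ1 x hx1]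
        simp [hx1, hx2]
      · by_cases hx2 : x ∈ Ω₂
        · rw [hρ2 x hx2]
          simp [hx1, hx2]
        · have : x ∉ Ω₁ ∪ Ω₂ := fun h => h.elim hx1 hx2
          rw [hφ.eq_zero this]
          simp [hx1, hx2]
    have e2 : ∫ x, ‖gradient φ x‖ ^ 2 = (∫ x, ‖gradient (Ω₁.indicator φ) x‖ ^ 2) +
        ∫ x, ‖gradient (Ω₂.indicator φ) x‖ ^ 2 := by
      rw [← integral_add ((t1.memLp_gradient 2).integrable_norm_pow (by norm_num))
        ((t2.memLp_gradient 2).integrable_norm_pow (by norm_num))]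
      congr 1
      ext x
      rw [g1, g2]
      by_cases hx1 : x ∈ Ω₁
      · have hx2 : x ∉ Ω₂ := fun h => disjoint_left.mp hd hx1 h
        simp [hx1, hx2]
      · by_cases hx2 : x ∈ Ω₂
        · simp [hx1, hx2]
        · have : x ∉ Ω₁ ∪ Ω₂ := fun h => h.elim hx1 hx2
          rw [hφ.gradient_eq_zero this]
          simp [hx1, hx2]
    have n1 : 0 ≤ ∫ x, ‖gradient (Ω₁.indicator φ) x‖ ^ 2 :=
      integral_nonneg (fun x => by positivity)
    have n2 : 0 ≤ ∫ x, ‖gradient (Ω₂.indicator φ) x‖ ^ 2 :=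
      integral_nonneg (fun x => by positivity)
    simp_rw [e1]
    rw [lintegral_add_left']
    · refine (add_le_add (d₁.hardy _ t1) (d₂.hardy _ t2)).trans ?_
      rw [← ENNReal.ofReal_add (mul_nonneg d₁.CH_nonneg n1) (mul_nonneg d₂.CH_nonneg n2)]
      apply ENNReal.ofReal_le_ofReal
      rw [e2, mul_add]
      exact add_le_add (mul_le_mul_of_nonneg_right (le_max_left _ _) n1)
        (mul_le_mul_of_nonneg_right (le_max_right _ _) n2)
    · apply Measurable.aemeasurable
      apply ENNReal.measurable_ofReal.comp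
      exact (t1.continuous.measurable.pow_const 2).div (d₁.ρ_meas.pow_const 2)
  · filter_upwards [Lp.coeFn_add d₁.psi.1 d₂.psi.1, d₁.psi_fst, d₂.psi_fst] with x h h1 h2
    rw [Prod.fst_add, h, Pi.add_apply, h1, h2]
    by_cases hx1 : x ∈ Ω₁
    · have hx2 : x ∉ Ω₂ := fun h => disjoint_left.mp hd hx1 h
      simp [hx1, hx2, hρ]
    · by_cases hx2 : x ∈ Ω₂
      · simp [hx1, hx2, hρ]
      · simp [hx1, hx2]
  · intro x hx
    simp only [mem_union, not_or] at hx
    rw [d₁.g_zero x hx.1, d₂.g_zero x hx.2, add_zero]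
  · intro p hp
    have hp' : p ∈ W (Ω₂ ∪ Ω₁) := by rw [union_comm]; exact hp
    have r1 := restr_mem_W h₁ h₂ hd hp
    have r2 := restr_mem_W h₂ h₁ hd' hp'
    have z1 := W_eq_zero h₁.measurableSet d₁.psi_mem
    have z2 := W_eq_zero h₂.measurableSet d₂.psi_mem
    have i1 : ⟪d₁.psi.2, p.2⟫ = ⟪d₁.psi.2, (restr h₁.measurableSet p).2⟫ := by
      rw [L2.inner_def, L2.inner_def]
      apply integral_congr_ae
      filter_upwards [z1, restr_snd h₁.measurableSet p] with x hx h
      rw [h]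
      by_cases hx1 : x ∈ Ω₁
      · simp [hx1]
      · rw [(hx hx1).2]; simp
    have i2 : ⟪d₂.psi.2, p.2⟫ = ⟪d₂.psi.2, (restr h₂.measurableSet p).2⟫ := by
      rw [L2.inner_def, L2.inner_def]
      apply integral_congr_ae
      filter_upwards [z2, restr_snd h₂.measurableSet p] with x hx h
      rw [h]
      by_cases hx2 : x ∈ Ω₂
      · simp [hx2]
      · rw [(hx hx2).2]; simp
    have m1 : MemLp d₁.g 2 (volume : Measure E) :=
      memLp_of_bdd_supp d₁.g_meas d₁.g_bdd h₁.measurableSet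
        (ne_top_of_le_ne_top measure_ball_lt_top.ne (measure_mono d₁.sub_ball)) d₁.g_zero
    have m2 : MemLp d₂.g 2 (volume : Measure E) :=
      memLp_of_bdd_supp d₂.g_meas d₂.g_bdd h₂.measurableSet
        (ne_top_of_le_ne_top measure_ball_lt_top.ne (measure_mono d₂.sub_ball)) d₂.g_zero
    have j1 : Integrable (fun x => d₁.g x * p.1 x) (volume : Measure E) :=
      m1.integrable_mul (Lp.memLp p.1)
    have j2 : Integrable (fun x => d₂.g x * p.1 x) (volume : Measure E) :=
      m2.integrable_mul (Lp.memLp p.1)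
    simp only [add_mul]
    rw [Prod.snd_add, inner_add_left, i1, i2, d₁.eq_weak _ r1, d₂.eq_weak _ r2,
      integral_add j1 j2]
    congr 1
    · apply integral_congr_ae
      filter_upwards [restr_fst h₁.measurableSet p] with x h
      rw [h]
      by_cases hx1 : x ∈ Ω₁
      · simp [hx1]
      · simp [hx1, d₁.g_zero x hx1]
    · apply integral_congr_ae
      filter_upwards [restr_fst h₂.measurableSet p] with x h
      rw [h]
      by_cases hx2 : x ∈ Ω₂
      · simp [hx2]
      · simp [hx2, d₂.g_zero x hx2]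
  · rintro x hx hlt
    by_cases hx1 : x ∈ Ω₁
    · have hx2 : x ∉ Ω₂ := fun h => disjoint_left.mp hd hx1 h
      rw [d₂.g_zero x hx2, add_zero]
      apply d₁.g_nonpos x hx1
      rw [← hρ1 x hx1]
      exact lt_of_lt_of_le hlt (min_le_left _ _)
    · have hx2 : x ∈ Ω₂ := hx.resolve_left hx1
      rw [d₁.g_zero x hx1, zero_add]
      apply d₂.g_nonpos x hx2
      rw [← hρ2 x hx2]
      exact lt_of_lt_of_le hlt (min_le_right _ _)

end Pool.Agent.MP_0fb79d_an
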