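import Pool.Agent.Lib_MP_0fb79d_an.Spaces
import Pool.Agent.Lib_MP_0fb79d_an.Mazur

/-!
The operation `(u, v) ↦ sqrt (u² + v²)` on `W Ω` and its energy.
-/

open MeasureTheory Filter Topology Set
open scoped ENNReal ContDiff RealInnerProductSpace

noncomputable section

namespace Pool.Agent.MP_0fb79d_an

variable {E : Type*} [NormedAddCommGroup E] [InnerProductSpace ℝ E] [FiniteDimensional ℝ E]
  [CompleteSpace E] [MeasurableSpace E] [BorelSpace E]

omit [FiniteDimensional ℝ E] [CompleteSpace E] [MeasurableSpace E] [BorelSpace E] in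
lemma IsTest.sqrt {Ω : Set E} {φ ψ : E → ℝ} (hφ : IsTest Ω φ) (hψ : IsTest Ω ψ) {ε : ℝ}
    (hε : 0 < ε) : IsTest Ω (fun x => √(φ x ^ 2 + ψ x ^ 2 + ε ^ 2) - ε) := by
  have hs : Function.support (fun x => √(φ x ^ 2 + ψ x ^ 2 + ε ^ 2) - ε) ⊆
      Function.support φ ∪ Function.support ψ := by
    intro x hx
    by_contra h
    simp only [mem_union, Function.mem_support, ne_eq, not_or, not_not] at h
    apply hx
    simp [h.1, h.2, Real.sqrt_sq hε.le]
  have hts : tsupport (fun x => √(φ x ^ 2 + ψ x ^ 2 + ε ^ 2) - ε) ⊆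
      tsupport φ ∪ tsupport ψ := by
    unfold tsupport
    rw [← closure_union]
    exact closure_mono hs
  refine ⟨?_, ?_, ?_⟩
  · apply ContDiff.sub _ contDiff_const
    apply ContDiff.sqrt
    · exact ((hφ.smooth.pow 2).add (hψ.smooth.pow 2)).add contDiff_const
    · intro x
      positivity
  · exact (hφ.compact.isCompact.union hψ.compact.isCompact).of_isClosed_subset
      (isClosed_tsupport _) hts
  · exact hts.trans (union_subset hφ.supp hψ.supp)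

omit [FiniteDimensional ℝ E] [MeasurableSpace E] [BorelSpace E] in
lemma norm_gradient_sqrt_le {φ ψ : E → ℝ} {x : E} (hφ : DifferentiableAt ℝ φ x)
    (hψ : DifferentiableAt ℝ ψ x) {ε : ℝ} (hε : 0 < ε) :
    ‖gradient (fun x => √(φ x ^ 2 + ψ x ^ 2 + ε ^ 2) - ε) x‖ ^ 2 ≤
      ‖gradient φ x‖ ^ 2 + ‖gradient ψ x‖ ^ 2 := by
  set S := φ x ^ 2 + ψ x ^ 2 + ε ^ 2 with hS
  have hSpos : 0 < S := by positivity
  have h1 := hφ.hasFDerivAt
  have h2 := hψ.hasFDerivAt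
  have h3 : HasFDerivAt (fun y => φ y ^ 2 + ψ y ^ 2 + ε ^ 2)
      ((2 * φ x) • fderiv ℝ φ x + (2 * ψ x) • fderiv ℝ ψ x) x := by
    have a := h1.pow 2
    have b := h2.pow 2
    have := (a.add b).add_const (ε ^ 2)
    simpa using this
  have h4 : HasFDerivAt (fun y => √(φ y ^ 2 + ψ y ^ 2 + ε ^ 2) - ε)
      ((1 / (2 * √S)) • ((2 * φ x) • fderiv ℝ φ x + (2 * ψ x) • fderiv ℝ ψ x)) x :=
    (h3.sqrt hSpos.ne').sub_const ε
  rw [norm_gradient, norm_gradient, norm_gradient, h4.fderiv]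
  set a := ‖fderiv ℝ φ x‖
  set b := ‖fderiv ℝ ψ x‖
  have hsq : 0 < √S := Real.sqrt_pos.mpr hSpos
  have h5 : ‖(1 / (2 * √S)) • ((2 * φ x) • fderiv ℝ φ x + (2 * ψ x) • fderiv ℝ ψ x)‖ ≤
      (|φ x| * a + |ψ x| * b) / √S := by
    rw [norm_smul]
    have h6 : ‖(2 * φ x) • fderiv ℝ φ x + (2 * ψ x) • fderiv ℝ ψ x‖ ≤
        2 * |φ x| * a + 2 * |ψ x| * b := by
      refine (norm_add_le _ _).trans ?_
      rw [norm_smul, norm_smul]
      simp [a, b]
    have h7 : ‖(1 / (2 * √S))‖ = 1 / (2 * √S) := by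
      rw [Real.norm_of_nonneg]; positivity
    rw [h7]
    calc 1 / (2 * √S) * ‖(2 * φ x) • fderiv ℝ φ x + (2 * ψ x) • fderiv ℝ ψ x‖
        ≤ 1 / (2 * √S) * (2 * |φ x| * a + 2 * |ψ x| * b) := by
          apply mul_le_mul_of_nonneg_left h6; positivity
      _ = (|φ x| * a + |ψ x| * b) / √S := by field_simp
  have ha : 0 ≤ a := norm_nonneg _
  have hb : 0 ≤ b := norm_nonneg _
  calc _ ≤ ((|φ x| * a + |ψ x| * b) / √S) ^ 2 := pow_le_pow_left₀ (norm_nonneg _) h5 2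
    _ = (|φ x| * a + |ψ x| * b) ^ 2 / S := by rw [div_pow, Real.sq_sqrt hSpos.le]
    _ ≤ a ^ 2 + b ^ 2 := by
      rw [div_le_iff₀ hSpos, hS]
      have e1 : |φ x| ^ 2 = φ x ^ 2 := sq_abs _
      have e2 : |ψ x| ^ 2 = ψ x ^ 2 := sq_abs _
      rw [← e1, ← e2]
      nlinarith [sq_nonneg (|φ x| * b - |ψ x| * a), mul_nonneg (sq_nonneg a) (sq_nonneg ε),
        mul_nonneg (sq_nonneg b) (sq_nonneg ε)]

lemma abs_sqrt_sub_sqrt_le (a b a' b' : ℝ) :
    |√(a ^ 2 + b ^ 2) - √(a' ^ 2 + b' ^ 2)| ≤ |a - a'| + |b - b'| := by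
  have key : ∀ a b a' b' : ℝ, √(a ^ 2 + b ^ 2) ≤ √(a' ^ 2 + b' ^ 2) + (|a - a'| + |b - b'|) := by
    intro a b a' b'
    apply Real.sqrt_le_iff.mpr
    refine ⟨by positivity, ?_⟩
    set r := √(a' ^ 2 + b' ^ 2) with hr
    have hr2 : r ^ 2 = a' ^ 2 + b' ^ 2 := Real.sq_sqrt (by positivity)
    have hr0 : 0 ≤ r := Real.sqrt_nonneg _
    have ha : |a'| ≤ r := by
      apply Real.le_sqrt_of_sq_le; rw [sq_abs]; nlinarith [sq_nonneg b']
    have hb : |b'| ≤ r := by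
      apply Real.le_sqrt_of_sq_le; rw [sq_abs]; nlinarith [sq_nonneg a']
    have h1 : a' * (a - a') ≤ r * |a - a'| := by
      calc a' * (a - a') ≤ |a' * (a - a')| := le_abs_self _
        _ = |a'| * |a - a'| := abs_mul _ _
        _ ≤ r * |a - a'| := by gcongr
    have h2 : b' * (b - b') ≤ r * |b - b'| := by
      calc b' * (b - b') ≤ |b' * (b - b')| := le_abs_self _
        _ = |b'| * |b - b'| := abs_mul _ _
        _ ≤ r * |b - b'| := by gcongr
    have e1 : |a - a'| ^ 2 = (a - a') ^ 2 := sq_abs _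
    have e2 : |b - b'| ^ 2 = (b - b') ^ 2 := sq_abs _
    have h3 : 0 ≤ |a - a'| * |b - b'| := by positivity
    nlinarith
  rw [abs_le]
  constructor
  · have := key a' b' a b
    rw [abs_sub_comm a' a, abs_sub_comm b' b] at this
    linarith
  · have := key a b a' b'
    linarith

lemma abs_sqrt_eps_sub_le (s : ℝ) (hs : 0 ≤ s) {ε : ℝ} (hε : 0 < ε) :
    |(√(s + ε ^ 2) - ε) - √s| ≤ ε := by
  have h1 : √s ≤ √(s + ε ^ 2) := Real.sqrt_le_sqrt (by nlinarith)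
  have h2 : √(s + ε ^ 2) ≤ √s + ε := by
    apply Real.sqrt_le_iff.mpr
    refine ⟨by positivity, ?_⟩
    have := Real.sq_sqrt hs
    have := Real.sqrt_nonneg s
    nlinarith
  rw [abs_le]
  constructor <;> linarith

/-- For `u, v ∈ W Ω`, `sqrt(u² + v²)` is in `W Ω` with energy at most the sum of the energies. -/
theorem sqrt_mem_W {Ω : Set E} (hΩm : MeasurableSet Ω) (hΩf : (volume : Measure E) Ω ≠ ⊤)
    {p p' : Lp ℝ 2 (volume : Measure E) × Lp E 2 (volume : Measure E)}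
    (hp : p ∈ W Ω) (hp' : p' ∈ W Ω) :
    ∃ r ∈ W Ω, (r.1 =ᵐ[volume] fun x => √(p.1 x ^ 2 + p'.1 x ^ 2)) ∧
      ‖r.2‖ ^ 2 ≤ ‖p.2‖ ^ 2 + ‖p'.2‖ ^ 2 := by
  obtain ⟨a, haT, ha⟩ := mem_W_iff_seq.mp hp
  obtain ⟨b, hbT, hb⟩ := mem_W_iff_seq.mp hp'
  choose φ hφ hφ1 hφ2 using haT
  choose ψ hψ hψ1 hψ2 using hbT
  -- the limit function
  have hmem : MemLp (fun x => √(p.1 x ^ 2 + p'.1 x ^ 2)) 2 (volume : Measure E) := by
    have h1 : MemLp (fun x => |p.1 x| + |p'.1 x|) 2 (volume : Measure E) :=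
      (Lp.memLp p.1).abs.add (Lp.memLp p'.1).abs
    apply h1.mono
    · have m1 := (Lp.memLp p.1).aestronglyMeasurable.aemeasurable
      have m2 := (Lp.memLp p'.1).aestronglyMeasurable.aemeasurable
      exact ((m1.pow_const 2).add (m2.pow_const 2)).sqrt.aestronglyMeasurable
    · refine Eventually.of_forall (fun x => ?_)
      have := abs_sqrt_sub_sqrt_le (p.1 x) (p'.1 x) 0 0
      simp only [ne_eq, OfNat.ofNat_ne_zero, not_false_eq_true, zero_pow, add_zero,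
        Real.sqrt_zero, sub_zero] at this
      rw [Real.norm_eq_abs, Real.norm_eq_abs]
      exact this.trans (le_abs_self _)
  set f : Lp ℝ 2 (volume : Measure E) := hmem.toLp _ with hf
  have hfc : f =ᵐ[volume] fun x => √(p.1 x ^ 2 + p'.1 x ^ 2) := hmem.coeFn_toLp
  set ε : ℕ → ℝ := fun n => 1 / ((n : ℝ) + 1) with hε
  have hεpos : ∀ n, 0 < ε n := fun n => by positivity
  have hε0 : Tendsto ε atTop (𝓝 0) := tendsto_one_div_add_atTop_nhds_zero_nat
  set q : ℕ → Lp ℝ 2 (volume : Measure E) × Lp E 2 (volume : Measure E) :=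
    fun n => ((hφ n).sqrt (hψ n) (hεpos n)).pair with hq
  have hqW : ∀ n, q n ∈ W Ω := fun n => IsTest.pair_mem_W _
  -- energies
  have hqe : ∀ n, ‖(q n).2‖ ^ 2 ≤ ‖(a n).2‖ ^ 2 + ‖(b n).2‖ ^ 2 := by
    intro n
    rw [norm_sq_Lp, norm_sq_Lp, norm_sq_Lp,
      ← integral_add (integrable_norm_sq_Lp _) (integrable_norm_sq_Lp _)]
    apply integral_mono_ae (integrable_norm_sq_Lp _)
      ((integrable_norm_sq_Lp _).add (integrable_norm_sq_Lp _))
    filter_upwards [hφ2 n, hψ2 n, ((hφ n).sqrt (hψ n) (hεpos n)).pair_snd] with x h1 h2 h3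
    simp only [Pi.add_apply, hq]
    rw [h1, h2, h3]
    exact norm_gradient_sqrt_le ((hφ n).differentiable x) ((hψ n).differentiable x) (hεpos n)
  -- convergence in L²
  have hconv : Tendsto (fun n => (q n).1) atTop (𝓝 f) := by
    rw [tendsto_iff_norm_sub_tendsto_zero]
    set I : Lp ℝ 2 (volume : Measure E) := indicatorConstLp 2 hΩm hΩf (1:ℝ) with hI
    have hbound : ∀ n, ‖(q n).1 - f‖ ≤ ε n * ‖I‖ + ‖(a n).1 - p.1‖ + ‖(b n).1 - p'.1‖ := by
      intro n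
      have h1 : ‖(q n).1 - f‖ ≤ ‖ε n • I + |(a n).1 - p.1| + |(b n).1 - p'.1|‖ := by
        apply Lp.norm_le_norm_of_ae_le
        have z1 := W_eq_zero hΩm hp
        have z2 := W_eq_zero hΩm hp'
        filter_upwards [hφ1 n, hψ1 n, ((hφ n).sqrt (hψ n) (hεpos n)).pair_fst, hfc,
          Lp.coeFn_sub (q n).1 f, Lp.coeFn_add (ε n • I + |(a n).1 - p.1|) |(b n).1 - p'.1|,
          Lp.coeFn_add (ε n • I) |(a n).1 - p.1|, Lp.coeFn_smul (ε n) I,
          Lp.coeFn_abs ((a n).1 - p.1), Lp.coeFn_abs ((b n).1 - p'.1),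
          Lp.coeFn_sub (a n).1 p.1, Lp.coeFn_sub (b n).1 p'.1,
          indicatorConstLp_coeFn (p := 2) (hs := hΩm) (hμs := hΩf) (c := (1:ℝ)), z1, z2]
          with x e1 e2 e3 e4 e5 e6 e7 e8 e9 e10 e11 e12 e13 z1 z2
        rw [e5, e6, Pi.sub_apply, Pi.add_apply, e7, Pi.add_apply, e8, e9, e10, e11, e12, e4,
          Pi.sub_apply, Pi.sub_apply, Pi.smul_apply, hI, e13, e1, e2]
        simp only [hq]
        rw [e3, Real.norm_eq_abs, Real.norm_eq_abs]
        refine le_trans ?_ (le_abs_self _)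
        by_cases hx : x ∈ Ω
        · simp only [indicator_of_mem hx, smul_eq_mul, mul_one]
          have t1 := abs_sqrt_eps_sub_le (φ n x ^ 2 + ψ n x ^ 2) (by positivity) (hεpos n)
          have t2 := abs_sqrt_sub_sqrt_le (φ n x) (ψ n x) (p.1 x) (p'.1 x)
          calc |√(φ n x ^ 2 + ψ n x ^ 2 + ε n ^ 2) - ε n - √(p.1 x ^ 2 + p'.1 x ^ 2)|
              = |(√(φ n x ^ 2 + ψ n x ^ 2 + ε n ^ 2) - ε n - √(φ n x ^ 2 + ψ n x ^ 2)) +
                (√(φ n x ^ 2 + ψ n x ^ 2) - √(p.1 x ^ 2 + p'.1 x ^ 2))| := by congr 1; ring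
            _ ≤ _ := abs_add_le _ _
            _ ≤ ε n + (|φ n x - p.1 x| + |ψ n x - p'.1 x|) := add_le_add t1 t2
            _ = _ := by ring
        · have y1 := (hφ n).eq_zero hx
          have y2 := (hψ n).eq_zero hx
          rw [y1, y2, (z1 hx).1, (z2 hx).1]
          simp [hx, Real.sqrt_sq (hεpos n).le]
      refine h1.trans ?_
      refine (norm_add_le _ _).trans ?_
      rw [norm_abs_eq_norm]
      refine add_le_add ((norm_add_le _ _).trans ?_) le_rfl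
      rw [norm_abs_eq_norm, norm_smul, Real.norm_of_nonneg (hεpos n).le]
    have hlim : Tendsto (fun n => ε n * ‖I‖ + ‖(a n).1 - p.1‖ + ‖(b n).1 - p'.1‖) atTop (𝓝 0) := by
      have l1 : Tendsto (fun n => ‖(a n).1 - p.1‖) atTop (𝓝 0) := by
        rw [← tendsto_iff_norm_sub_tendsto_zero]
        exact (continuous_fst.tendsto p).comp ha
      have l2 : Tendsto (fun n => ‖(b n).1 - p'.1‖) atTop (𝓝 0) := by
        rw [← tendsto_iff_norm_sub_tendsto_zero]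
        exact (continuous_fst.tendsto p').comp hb
      have := ((hε0.mul_const ‖I‖).add l1).add l2
      simpa using this
    exact squeeze_zero (fun n => norm_nonneg _) hbound hlim
  obtain ⟨g, hg1, hg2⟩ := lsc_closure (W Ω) (isClosed_W Ω) q hqW f hconv
    (fun n => ‖(a n).2‖ ^ 2 + ‖(b n).2‖ ^ 2) (‖p.2‖ ^ 2 + ‖p'.2‖ ^ 2) hqe (by
      have l1 : Tendsto (fun n => (a n).2) atTop (𝓝 p.2) := (continuous_snd.tendsto p).comp ha
      have l2 : Tendsto (fun n => (b n).2) atTop (𝓝 p'.2) := (continuous_snd.tendsto p').comp hb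
      exact ((l1.norm).pow 2).add ((l2.norm).pow 2))
  exact ⟨(f, g), hg1, hfc, hg2⟩

/-- For `u ∈ W Ω`, `|u|` is in `W Ω` with energy at most the energy of `u`. -/
theorem abs_mem_W {Ω : Set E} (hΩm : MeasurableSet Ω) (hΩf : (volume : Measure E) Ω ≠ ⊤)
    {p : Lp ℝ 2 (volume : Measure E) × Lp E 2 (volume : Measure E)}
    (hp : p ∈ W Ω) :
    ∃ r ∈ W Ω, (r.1 =ᵐ[volume] fun x => |p.1 x|) ∧ ‖r.2‖ ^ 2 ≤ ‖p.2‖ ^ 2 := by
  obtain ⟨r, hr, h1, h2⟩ := sqrt_mem_W hΩm hΩf hp (W Ω).zero_mem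
  refine ⟨r, hr, ?_, by simpa using h2⟩
  have h0 : ((0 : Lp ℝ 2 (volume : Measure E) × Lp E 2 (volume : Measure E)).1 : E → ℝ)
      =ᵐ[volume] 0 := Lp.coeFn_zero _ _ _
  filter_upwards [h1, h0] with x hx h0
  rw [hx, h0]
  simp [Real.sqrt_sq_eq_abs]

end Pool.Agent.MP_0fb79d_an
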