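import Pool.Agent.Lib_MP_0fb79d_an.Bridge

/-!
Two components.
-/

open MeasureTheory Filter Topology Set
open scoped ENNReal ContDiff RealInnerProductSpace

set_option linter.unusedSectionVars false

noncomputable section

namespace Pool.Agent.MP_0fb79d_an

variable {E : Type*} [NormedAddCommGroup E] [InnerProductSpace ℝ E] [FiniteDimensional ℝ E]
  [CompleteSpace E] [MeasurableSpace E] [BorelSpace E] [Nontrivial E]

lemma norm_indL_le {s : Set E} (hs : MeasurableSet s) (f : Lp E 2 (volume : Measure E)) :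
    ‖indL E (volume : Measure E) hs f‖ ≤ ‖f‖ := by
  have h : ‖indL E (volume : Measure E) hs‖ ≤ 1 := by
    unfold indL
    exact LinearMap.mkContinuous_norm_le _ zero_le_one _
  have := (indL E (volume : Measure E) hs).le_of_opNorm_le h f
  rwa [one_mul] at this

variable {q : ℝ} (hq1 : 1 < q) (hq2 : q < 2)

section two

variable {Ω₁ Ω₂ : Set E} (h₁ : IsOpen Ω₁) (h₂ : IsOpen Ω₂) (hd : Disjoint Ω₁ Ω₂)

include hd in
lemma restr_add {p} (hp : p ∈ W (Ω₁ ∪ Ω₂)) :
    restr h₁.measurableSet p + restr h₂.measurableSet p = p := by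
  have hm : MeasurableSet (Ω₁ ∪ Ω₂) := h₁.measurableSet.union h₂.measurableSet
  have h0 := W_eq_zero hm hp
  apply Prod.ext
  · apply Lp.ext
    filter_upwards [Lp.coeFn_add (restr h₁.measurableSet p).1 (restr h₂.measurableSet p).1,
      restr_fst h₁.measurableSet p, restr_fst h₂.measurableSet p, h0] with x a1 a2 a3 a4
    rw [Prod.fst_add, a1, Pi.add_apply, a2, a3]
    by_cases hx1 : x ∈ Ω₁
    · rw [indicator_of_mem hx1, indicator_of_notMem (fun h => disjoint_left.mp hd hx1 h), add_zero]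
    · rw [indicator_of_notMem hx1]
      by_cases hx2 : x ∈ Ω₂
      · rw [indicator_of_mem hx2, zero_add]
      · rw [indicator_of_notMem hx2, (a4 (fun h => h.elim hx1 hx2)).1, zero_add]
  · apply Lp.ext
    filter_upwards [Lp.coeFn_add (restr h₁.measurableSet p).2 (restr h₂.measurableSet p).2,
      restr_snd h₁.measurableSet p, restr_snd h₂.measurableSet p, h0] with x a1 a2 a3 a4
    rw [Prod.snd_add, a1, Pi.add_apply, a2, a3]
    by_cases hx1 : x ∈ Ω₁
    · rw [indicator_of_mem hx1, indicator_of_notMem (fun h => disjoint_left.mp hd hx1 h), add_zero]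
    · rw [indicator_of_notMem hx1]
      by_cases hx2 : x ∈ Ω₂
      · rw [indicator_of_mem hx2, zero_add]
      · rw [indicator_of_notMem hx2, (a4 (fun h => h.elim hx1 hx2)).2, zero_add]

include h₁ h₂ hd in
/-- gradients of functions supported in different components are orthogonal -/
lemma inner_eq_zero {v w} (hv : v ∈ W Ω₁) (hw : w ∈ W Ω₂) : ⟪v.2, w.2⟫ = 0 := by
  rw [L2.inner_def]
  have : ∫ x, ⟪v.2 x, w.2 x⟫ = ∫ _ : E, (0:ℝ) := by
    apply integral_congr_ae
    filter_upwards [W_eq_zero h₁.measurableSet hv, W_eq_zero h₂.measurableSet hw] with x a1 a2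
    by_cases hx1 : x ∈ Ω₁
    · rw [(a2 (fun h => disjoint_left.mp hd hx1 h)).2, inner_zero_right]
    · rw [(a1 hx1).2, inner_zero_left]
  rw [this, integral_zero]

include h₁ h₂ hd in
lemma integral_nl_eq_zero {v w} (hv : v ∈ W Ω₁) (hw : w ∈ W Ω₂) :
    ∫ x, nl q (v.1 x) * w.1 x = 0 := by
  have : ∫ x, nl q (v.1 x) * w.1 x = ∫ _ : E, (0:ℝ) := by
    apply integral_congr_ae
    filter_upwards [W_eq_zero h₁.measurableSet hv, W_eq_zero h₂.measurableSet hw] with x a1 a2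
    by_cases hx1 : x ∈ Ω₁
    · rw [(a2 (fun h => disjoint_left.mp hd hx1 h)).1, mul_zero]
    · rw [(a1 hx1).1, nl_zero, zero_mul]
  rw [this, integral_zero]

include hd in
lemma norm_sq_restr {p} (hp : p ∈ W (Ω₁ ∪ Ω₂)) :
    ‖(restr h₁.measurableSet p).2‖ ^ 2 + ‖(restr h₂.measurableSet p).2‖ ^ 2 = ‖p.2‖ ^ 2 := by
  have e := restr_add h₁ h₂ hd hp
  have hp2 : p ∈ W (Ω₂ ∪ Ω₁) := by rwa [union_comm]
  have e2 : p.2 = (restr h₁.measurableSet p).2 + (restr h₂.measurableSet p).2 := by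
    conv_lhs => rw [← e]
    rfl
  have h3 := inner_eq_zero h₁ h₂ hd (restr_mem_W h₁ h₂ hd hp) (restr_mem_W h₂ h₁ hd.symm hp2)
  have h3' := inner_eq_zero h₂ h₁ hd.symm (restr_mem_W h₂ h₁ hd.symm hp2) (restr_mem_W h₁ h₂ hd hp)
  rw [e2, ← real_inner_self_eq_norm_sq ((restr h₁.measurableSet p).2 +
    (restr h₂.measurableSet p).2), inner_add_left, inner_add_right, inner_add_right, h3,
    h3', real_inner_self_eq_norm_sq, real_inner_self_eq_norm_sq]
  ring

lemma sph_mono {Ω Ω' : Set E} (h : Ω ⊆ Ω') : Sph Ω q ⊆ Sph Ω' q :=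
  fun _ hp => ⟨W_mono h hp.1, hp.2⟩

variable (D₁ : GoodData Ω₁) (D₂ : GoodData Ω₂) (D : GoodData (Ω₁ ∪ Ω₂))

include hq1 hq2 hd D₁ D₂ D

/-- eigenfunctions of a component are eigenfunctions -/
lemma eigPair_union {v} (hv : EigPair Ω₁ q v) : EigPair (Ω₁ ∪ Ω₂) q v := by
  refine ⟨sph_mono subset_union_left hv.1, fun w hw => ?_⟩
  have h₁ := D₁.isOpen
  have h₂ := D₂.isOpen
  have hw2 : w ∈ W (Ω₂ ∪ Ω₁) := by rwa [union_comm]
  have m1 := restr_mem_W h₁ h₂ hd hw
  have m2 := restr_mem_W h₂ h₁ hd.symm hw2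
  have e := restr_add h₁ h₂ hd hw
  have e2 : w.2 = (restr h₁.measurableSet w).2 + (restr h₂.measurableSet w).2 := by
    conv_lhs => rw [← e]
    rfl
  have e1 : w.1 = (restr h₁.measurableSet w).1 + (restr h₂.measurableSet w).1 := by
    conv_lhs => rw [← e]
    rfl
  have i1 := D₁.integrable_nl_mul hq1 hq2 (D₁.supp hv.1.1) (restr h₁.measurableSet w).1
  have i2 := D₁.integrable_nl_mul hq1 hq2 (D₁.supp hv.1.1) (restr h₂.measurableSet w).1
  have e3 : ∫ x, nl q (v.1 x) * w.1 x = (∫ x, nl q (v.1 x) * (restr h₁.measurableSet w).1 x) +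
      ∫ x, nl q (v.1 x) * (restr h₂.measurableSet w).1 x := by
    rw [← integral_add i1 i2]
    apply integral_congr_ae
    filter_upwards [Lp.coeFn_add (restr h₁.measurableSet w).1 (restr h₂.measurableSet w).1]
      with x hx
    rw [e1, hx, Pi.add_apply, mul_add]
  rw [e2, inner_add_right, hv.2 _ m1, inner_eq_zero h₁ h₂ hd hv.1.1 m2, add_zero, e3,
    integral_nl_eq_zero h₁ h₂ hd hv.1.1 m2, add_zero]

/-- strict inequality between the first eigenvalues -/
lemma lam_union_lt : lam (Ω₁ ∪ Ω₂) q < lam Ω₁ q := by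
  obtain ⟨p, hp, hpm⟩ := D₁.exists_min hq1 hq2
  have hp' : p ∈ Sph (Ω₁ ∪ Ω₂) q := sph_mono subset_union_left hp
  have hle : lam (Ω₁ ∪ Ω₂) q ≤ lam Ω₁ q := by
    rw [← hpm]
    exact D.lam_le hp'
  apply lt_of_le_of_ne hle
  intro heq
  have h1 := D.ne_zero_of_min hq1 hq2 hp' (by rw [hpm, heq])
  have h2 := D₁.supp hp.1
  have h3 : ∀ᵐ x ∂(volume : Measure E), x ∉ Ω₂ := by
    filter_upwards [h1, h2] with x a1 a2 hx
    exact a1 (Or.inr hx) (a2 (fun h => disjoint_left.mp hd h hx))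
  have h4 : (volume : Measure E) Ω₂ = 0 := by
    rw [ae_iff] at h3
    simpa using h3
  exact (D₂.isOpen.measure_pos volume D₂.nonempty).ne' h4

/-- the set of competitors for the second Lusternik-Schnirelmann eigenvalue is nonempty -/
lemma exists_circle : ∃ F : Set (Lp E 2 (volume : Measure E)), IsCompact F ∧
    F ⊆ SphG (Ω₁ ∪ Ω₂) q ∧ (∀ g ∈ F, -g ∈ F) ∧ (2 : ℕ∞) ≤ genus F ∧ F.Nonempty := by
  have hq0 : 0 < q := by linarith
  have h₁ := D₁.isOpen
  have h₂ := D₂.isOpen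
  obtain ⟨a, ha, -⟩ := D₁.exists_min hq1 hq2
  obtain ⟨b, hb, -⟩ := D₂.exists_min hq1 hq2
  have haW : a ∈ W (Ω₁ ∪ Ω₂) := W_mono subset_union_left ha.1
  have hbW : b ∈ W (Ω₁ ∪ Ω₂) := W_mono subset_union_right hb.1
  set c : ℝ → Lp ℝ 2 (volume : Measure E) × Lp E 2 (volume : Measure E) :=
    fun t => Real.cos t • a + Real.sin t • b with hc
  have hcc : Continuous c := by fun_prop
  have hcW : ∀ t, c t ∈ W (Ω₁ ∪ Ω₂) := fun t =>
    (W _).add_mem ((W _).smul_mem _ haW) ((W _).smul_mem _ hbW)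
  have hcpi : ∀ t, c (t + Real.pi) = - c t := by
    intro t
    simp only [hc, Real.cos_add_pi, Real.sin_add_pi, neg_smul]
    abel
  have hq : ∀ t, ∫ x, |(c t).1 x| ^ q = |Real.cos t| ^ q + |Real.sin t| ^ q := by
    intro t
    have ia := (D₁.integrable_q hq1 hq2 ha.1).const_mul (|Real.cos t| ^ q)
    have ib := (D₂.integrable_q hq1 hq2 hb.1).const_mul (|Real.sin t| ^ q)
    have e : ∫ x, |(c t).1 x| ^ q =
        ∫ x, (|Real.cos t| ^ q * |a.1 x| ^ q + |Real.sin t| ^ q * |b.1 x| ^ q) := by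
      apply integral_congr_ae
      filter_upwards [Lp.coeFn_add (Real.cos t • a.1) (Real.sin t • b.1),
        Lp.coeFn_smul (Real.cos t) a.1, Lp.coeFn_smul (Real.sin t) b.1, D₁.supp ha.1,
        D₂.supp hb.1] with x b1 b2 b3 b4 b5
      have b0 : (c t).1 = Real.cos t • a.1 + Real.sin t • b.1 := rfl
      rw [b0, b1, Pi.add_apply, b2, b3, Pi.smul_apply, Pi.smul_apply, smul_eq_mul, smul_eq_mul]
      by_cases hx : x ∈ Ω₁
      · rw [b5 (fun h => disjoint_left.mp hd hx h), mul_zero, add_zero, abs_mul,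
          Real.mul_rpow (abs_nonneg _) (abs_nonneg _), abs_zero, Real.zero_rpow hq0.ne', mul_zero,
          add_zero]
      · rw [b4 hx, mul_zero, zero_add, abs_mul,
          Real.mul_rpow (abs_nonneg _) (abs_nonneg _), abs_zero, Real.zero_rpow hq0.ne', mul_zero,
          zero_add]
    rw [e, integral_add ia ib, integral_const_mul, integral_const_mul, ← qNorm_rpow hq0,
      ← qNorm_rpow hq0, ha.2, hb.2, Real.one_rpow, mul_one, mul_one]
  have hpos : ∀ t, 0 < qNorm q (c t).1 := by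
    intro t
    unfold qNorm
    rw [hq]
    apply Real.rpow_pos_of_pos
    by_cases hcos : Real.cos t = 0
    · have hsin : Real.sin t ≠ 0 := by
        intro hs
        have := Real.sin_sq_add_cos_sq t
        rw [hs, hcos] at this
        norm_num at this
      have : 0 < |Real.sin t| ^ q := Real.rpow_pos_of_pos (abs_pos.mpr hsin) _
      have : 0 ≤ |Real.cos t| ^ q := Real.rpow_nonneg (abs_nonneg _) _
      linarith
    · have : 0 < |Real.cos t| ^ q := Real.rpow_pos_of_pos (abs_pos.mpr hcos) _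
      have : 0 ≤ |Real.sin t| ^ q := Real.rpow_nonneg (abs_nonneg _) _
      linarith
  have hqc : Continuous (fun t => qNorm q (c t).1) := by
    have e : (fun t => qNorm q (c t).1) =
        fun t => (|Real.cos t| ^ q + |Real.sin t| ^ q) ^ (1 / q) := by
      ext t
      unfold qNorm
      rw [hq]
    rw [e]
    have h1 : Continuous (fun t : ℝ => |Real.cos t| ^ q) :=
      (Real.continuous_cos.abs).rpow_const (fun _ => Or.inr hq0.le)
    have h2 : Continuous (fun t : ℝ => |Real.sin t| ^ q) :=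
      (Real.continuous_sin.abs).rpow_const (fun _ => Or.inr hq0.le)
    exact (h1.add h2).rpow_const (fun _ => Or.inr (by positivity))
  set γ : ℝ → Lp E 2 (volume : Measure E) := fun t => (qNorm q (c t).1)⁻¹ • (c t).2 with hγ
  have hγc : Continuous γ :=
    (hqc.inv₀ (fun t => (hpos t).ne')).smul (continuous_snd.comp hcc)
  have hqneg : ∀ f : Lp ℝ 2 (volume : Measure E), qNorm q (-f : Lp ℝ 2 (volume : Measure E)) =
      qNorm q f := by
    intro f
    rw [qNorm_congr (Lp.coeFn_neg f)]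
    unfold qNorm
    simp
  have hγpi : ∀ t, γ (t + Real.pi) = - γ t := by
    intro t
    simp only [hγ, hcpi, Prod.fst_neg, Prod.snd_neg, smul_neg, hqneg]
  have hper : Function.Periodic γ (2 * Real.pi) := by
    intro t
    have : t + 2 * Real.pi = (t + Real.pi) + Real.pi := by ring
    rw [this, hγpi, hγpi, neg_neg]
  refine ⟨range γ, hper.compact_of_continuous (by positivity) hγc, ?_, ?_, ?_, range_nonempty γ⟩
  · rintro _ ⟨t, rfl⟩
    refine ⟨(qNorm q (c t).1)⁻¹ • c t, ⟨(W _).smul_mem _ (hcW t), ?_⟩, rfl⟩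
    rw [Prod.smul_fst, qNorm_smul hq0, abs_of_pos (inv_pos.mpr (hpos t)),
      inv_mul_cancel₀ (hpos t).ne']
  · rintro _ ⟨t, rfl⟩
    exact ⟨t + Real.pi, hγpi t⟩
  · apply two_le_genus γ hγc (fun t => mem_range_self t) Real.pi_pos.le
    rw [← hγpi, zero_add]

/-- lower bound for sets of genus two, when the second component is small -/
lemma genus_lower {δ : ℝ} (hδ : 0 < δ) (hgen : ∀ F ⊆ SphG Ω₁ q, (∀ g ∈ F, -g ∈ F) →
    (2 : ℕ∞) ≤ genus F → ∃ g ∈ F, lam Ω₁ q + δ ≤ ‖g‖ ^ 2) {s : ℝ} (hs0 : 0 < s) (hs1 : s < 1)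
    (hs : lam Ω₁ q + δ / 2 ≤ (lam Ω₁ q + δ) * (1 - s) ^ 2)
    (hbig : lam Ω₁ q + δ ≤ lam Ω₂ q * s ^ 2) :
    ∀ F ⊆ SphG (Ω₁ ∪ Ω₂) q, (∀ g ∈ F, -g ∈ F) → (2 : ℕ∞) ≤ genus F →
      ∃ g ∈ F, lam Ω₁ q + δ / 2 ≤ ‖g‖ ^ 2 := by
  intro F hF hsym hg2
  by_contra hcon
  push Not at hcon
  have h₁ := D₁.isOpen
  have h₂ := D₂.isOpen
  have hq0 : 0 < q := by linarith
  have hl1 := D₁.lam_pos hq1 hq2
  have hl2 := D₂.lam_pos hq1 hq2
  have hex : ∀ g ∈ F, ∃ p ∈ Sph (Ω₁ ∪ Ω₂) q, p.2 = g := fun g hg => hF hg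
  choose! P hP hP2 using hex
  set A : Lp E 2 (volume : Measure E) → Lp ℝ 2 (volume : Measure E) × Lp E 2 (volume : Measure E) :=
    fun g => restr h₁.measurableSet (P g) with hA
  set B : Lp E 2 (volume : Measure E) → Lp ℝ 2 (volume : Measure E) × Lp E 2 (volume : Measure E) :=
    fun g => restr h₂.measurableSet (P g) with hB
  have hAW : ∀ g ∈ F, A g ∈ W Ω₁ := fun g hg => restr_mem_W h₁ h₂ hd (hP g hg).1
  have hBW : ∀ g ∈ F, B g ∈ W Ω₂ := fun g hg => restr_mem_W h₂ h₁ hd.symm (by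
    rw [union_comm]; exact (hP g hg).1)
  have hsum : ∀ g ∈ F, A g + B g = P g := fun g hg => restr_add h₁ h₂ hd (hP g hg).1
  have hnorm : ∀ g ∈ F, ‖(A g).2‖ ^ 2 + ‖(B g).2‖ ^ 2 = ‖g‖ ^ 2 := by
    intro g hg
    have := norm_sq_restr h₁ h₂ hd (hP g hg).1
    rw [hP2 g hg] at this
    exact this
  have hAlt : ∀ g ∈ F, ‖(A g).2‖ ^ 2 < lam Ω₁ q + δ / 2 := by
    intro g hg
    have a1 := hnorm g hg
    have a2 := hcon g hg
    have a3 : 0 ≤ ‖(B g).2‖ ^ 2 := by positivity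
    linarith
  have hBq : ∀ g ∈ F, qNorm q (B g).1 ≤ s := by
    intro g hg
    have a1 := D₂.lam_mul_le hq1 hq2 (hBW g hg)
    have a2 := hnorm g hg
    have a3 := hcon g hg
    have a4 : 0 ≤ ‖(A g).2‖ ^ 2 := by positivity
    have a5 : lam Ω₂ q * qNorm q (B g).1 ^ 2 ≤ lam Ω₂ q * s ^ 2 := by linarith
    have a6 := le_of_mul_le_mul_left a5 hl2
    exact (pow_le_pow_iff_left₀ (qNorm_nonneg _ _) hs0.le two_ne_zero).mp a6
  have hAq : ∀ g ∈ F, 1 - s ≤ qNorm q (A g).1 := by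
    intro g hg
    have a1 := qNorm_sub_le hq1.le (memLp_q D.meas D.fin hq2.le (D.supp (hP g hg).1))
      (memLp_q D₁.meas D₁.fin hq2.le (D₁.supp (hAW g hg)))
    rw [(hP g hg).2] at a1
    have a2 : qNorm q (fun x => (P g).1 x - (A g).1 x) = qNorm q (B g).1 := by
      apply qNorm_congr
      have e : (P g).1 = (A g).1 + (B g).1 := by
        conv_lhs => rw [← hsum g hg]
        rfl
      rw [e]
      filter_upwards [Lp.coeFn_add (A g).1 (B g).1] with x hx
      rw [hx, Pi.add_apply]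
      ring
    rw [a2] at a1
    have a3 := hBq g hg
    linarith
  have hApos : ∀ g ∈ F, 0 < qNorm q (A g).1 := fun g hg => by
    have := hAq g hg
    linarith
  -- the projection
  set π : Lp E 2 (volume : Measure E) → Lp E 2 (volume : Measure E) :=
    fun g => (qNorm q (A g).1)⁻¹ • (A g).2 with hπ
  have hA2 : ∀ g ∈ F, (A g).2 = indL E (volume : Measure E) h₁.measurableSet g := by
    intro g hg
    have : (A g).2 = indL E (volume : Measure E) h₁.measurableSet (P g).2 := rfl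
    rw [this, hP2 g hg]
  have hPneg : ∀ g ∈ F, P (-g) = - P g := by
    intro g hg
    apply W_snd_inj D.rad_nonneg D.sub_ball (hP _ (hsym g hg)).1 (neg_mem_sph (hP g hg)).1
    rw [hP2 _ (hsym g hg), Prod.snd_neg, hP2 g hg]
  have hAneg : ∀ g ∈ F, A (-g) = - A g := by
    intro g hg
    simp only [hA]
    rw [hPneg g hg, map_neg]
  have hqneg : ∀ f : Lp ℝ 2 (volume : Measure E), qNorm q (-f : Lp ℝ 2 (volume : Measure E)) =
      qNorm q f := by
    intro f
    rw [qNorm_congr (Lp.coeFn_neg f)]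
    unfold qNorm
    simp
  have hπneg : ∀ g ∈ F, π (-g) = - π g := by
    intro g hg
    simp only [hπ]
    rw [hAneg g hg, Prod.fst_neg, Prod.snd_neg, hqneg, smul_neg]
  have hπcont : ContinuousOn π F := by
    refine ContinuousOn.smul (f := fun g => (qNorm q (A g).1)⁻¹) (g := fun g => (A g).2) ?_ ?_
    · apply ContinuousOn.inv₀ _ (fun g hg => (hApos g hg).ne')
      rw [Metric.continuousOn_iff]
      intro g hg ε hε
      have hk : 0 ≤ kq Ω₁ q := Real.rpow_nonneg ENNReal.toReal_nonneg _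
      have hR := D₁.rad_nonneg
      refine ⟨ε / (kq Ω₁ q * (√2 * D₁.rad) + 1), by positivity, fun g' hg' hdist => ?_⟩
      rw [dist_eq_norm, lt_div_iff₀ (by positivity)] at hdist
      rw [Real.dist_eq]
      have b1 := abs_qNorm_sub_le D₁.meas D₁.fin hq1.le hq2.le (D₁.supp (hAW g' hg'))
        (D₁.supp (hAW g hg))
      have b2 := poincare D₁.rad_nonneg D₁.sub_ball ((W Ω₁).sub_mem (hAW g' hg') (hAW g hg))
      rw [Prod.fst_sub, Prod.snd_sub] at b2
      have b3 : 2 * D₁.rad ^ 2 * ‖(A g').2 - (A g).2‖ ^ 2 =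
          (√2 * D₁.rad * ‖(A g').2 - (A g).2‖) ^ 2 := by
        rw [mul_pow, mul_pow, Real.sq_sqrt (by norm_num)]
      rw [b3] at b2
      have b4 := (pow_le_pow_iff_left₀ (norm_nonneg _) (by positivity) two_ne_zero).mp b2
      have b5 : ‖(A g').2 - (A g).2‖ ≤ ‖g' - g‖ := by
        rw [hA2 g' hg', hA2 g hg, ← map_sub]
        exact norm_indL_le h₁.measurableSet _
      calc |qNorm q (A g').1 - qNorm q (A g).1|
          ≤ kq Ω₁ q * ‖(A g').1 - (A g).1‖ := b1
        _ ≤ kq Ω₁ q * (√2 * D₁.rad * ‖(A g').2 - (A g).2‖) := by gcongr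
        _ ≤ kq Ω₁ q * (√2 * D₁.rad * ‖g' - g‖) := by gcongr
        _ ≤ ‖g' - g‖ * (kq Ω₁ q * (√2 * D₁.rad) + 1) := by
            nlinarith [norm_nonneg (g' - g)]
        _ < ε := hdist
    · exact ((indL E (volume : Measure E) h₁.measurableSet).continuous.continuousOn).congr hA2
  have hle := genus_le_of_map (F := F) (F' := π '' F) π hπcont (mapsTo_image π F) hπneg
  obtain ⟨g', ⟨g, hg, rfl⟩, hg'⟩ := hgen (π '' F) (by
    rintro _ ⟨g, hg, rfl⟩
    refine ⟨(qNorm q (A g).1)⁻¹ • A g, ⟨(W _).smul_mem _ (hAW g hg), ?_⟩, rfl⟩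
    rw [Prod.smul_fst, qNorm_smul hq0, abs_of_pos (inv_pos.mpr (hApos g hg)),
      inv_mul_cancel₀ (hApos g hg).ne']) (by
    rintro _ ⟨g, hg, rfl⟩
    exact ⟨-g, hsym g hg, hπneg g hg⟩) (hg2.trans hle)
  have c1 := hAlt g hg
  have c2 := hAq g hg
  have c3 := hApos g hg
  have c4 : ‖π g‖ ^ 2 = ‖(A g).2‖ ^ 2 / qNorm q (A g).1 ^ 2 := by
    simp only [hπ]
    rw [norm_smul, norm_inv, Real.norm_of_nonneg c3.le, mul_pow, inv_pow]
    field_simp
  rw [c4, le_div_iff₀ (by positivity)] at hg'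
  have c5 : (1 - s) ^ 2 ≤ qNorm q (A g).1 ^ 2 := pow_le_pow_left₀ (by linarith) c2 2
  have c6 : (lam Ω₁ q + δ) * (1 - s) ^ 2 ≤ (lam Ω₁ q + δ) * qNorm q (A g).1 ^ 2 := by gcongr
  linarith

end two

end Pool.Agent.MP_0fb79d_an
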