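import Pool.Agent.Lib_MP_0fb79d_an.QNorm
import Pool.Agent.Lib_MP_0fb79d_an.Sqrt

/-!
The first eigenvalue: existence of minimizers, Euler-Lagrange equation, lower bound for
minimizers, weighted inequality.
-/

open MeasureTheory Filter Topology Set
open scoped ENNReal ContDiff RealInnerProductSpace

set_option linter.unusedSectionVars false

noncomputable section

namespace Pool.Agent.MP_0fb79d_an

variable {E : Type*} [NormedAddCommGroup E] [InnerProductSpace ℝ E] [FiniteDimensional ℝ E]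
  [CompleteSpace E] [MeasurableSpace E] [BorelSpace E]

/-- pairs in `W Ω` with unit `L^q` norm -/
def Sph (Ω : Set E) (q : ℝ) : Set (Lp ℝ 2 (volume : Measure E) × Lp E 2 (volume : Measure E)) :=
  {p | p ∈ W Ω ∧ qNorm q p.1 = 1}

/-- first eigenvalue -/
def lam (Ω : Set E) (q : ℝ) : ℝ := sInf ((fun p => ‖p.2‖ ^ 2) '' Sph Ω q)

namespace GoodData

variable {Ω : Set E} (D : GoodData Ω)

include D

lemma meas : MeasurableSet Ω := D.isOpen.measurableSet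

lemma fin : (volume : Measure E) Ω ≠ ⊤ :=
  ne_top_of_le_ne_top measure_ball_lt_top.ne (measure_mono D.sub_ball)

lemma supp {p} (hp : p ∈ W Ω) : Supp Ω p.1 := supp_of_mem_W D.meas hp

lemma exists_pair_ne : ∃ φ : E → ℝ, ∃ hφ : IsTest Ω φ, hφ.pair.1 ≠ 0 := by
  obtain ⟨x0, hx0⟩ := D.nonempty
  obtain ⟨f, hf1, hf2, hf3, -, hf4⟩ := exists_contDiff_tsupport_subset (E := E) (n := (⊤ : ℕ∞))
    (D.isOpen.mem_nhds hx0)
  have hT : IsTest Ω f := ⟨hf3, hf2, hf1⟩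
  refine ⟨f, hT, fun h => ?_⟩
  have h1 : f =ᵐ[volume] (fun _ => (0:ℝ)) := by
    filter_upwards [hT.pair_fst, Lp.coeFn_zero ℝ 2 (volume : Measure E)] with x h1 h2
    rw [← h1, h, h2]; rfl
  have h2 := (Continuous.ae_eq_iff_eq (volume : Measure E) hT.continuous continuous_const).mp h1
  have := congrFun h2 x0
  rw [hf4] at this
  norm_num at this

variable {q : ℝ} (hq1 : 1 < q) (hq2 : q < 2)

include hq1 hq2

lemma exists_sph : (Sph Ω q).Nonempty := by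
  obtain ⟨φ, hφ, hne⟩ := D.exists_pair_ne
  set p := hφ.pair with hp
  have hpW : p ∈ W Ω := hφ.pair_mem_W
  have hn : qNorm q p.1 ≠ 0 := by
    intro h
    exact hne (qNorm_eq_zero D.meas D.fin hq1.le hq2.le (D.supp hpW) h)
  have hn0 : 0 < qNorm q p.1 := lt_of_le_of_ne (qNorm_nonneg _ _) (Ne.symm hn)
  refine ⟨(qNorm q p.1)⁻¹ • p, (W Ω).smul_mem _ hpW, ?_⟩
  rw [Prod.smul_fst, qNorm_smul (by linarith), abs_of_pos (by positivity)]
  field_simp

omit hq1 hq2 in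
lemma lam_bddBelow : BddBelow ((fun p => ‖p.2‖ ^ 2) '' Sph Ω q) := by
  refine ⟨0, ?_⟩
  rintro _ ⟨p, _, rfl⟩
  positivity

omit hq1 hq2 in
lemma lam_le {p} (hp : p ∈ Sph Ω q) : lam Ω q ≤ ‖p.2‖ ^ 2 :=
  csInf_le (D.lam_bddBelow) ⟨p, hp, rfl⟩

lemma lam_mul_le {p} (hp : p ∈ W Ω) : lam Ω q * qNorm q p.1 ^ 2 ≤ ‖p.2‖ ^ 2 := by
  by_cases hn : qNorm q p.1 = 0
  · rw [hn]; simp
  · have hn0 : 0 < qNorm q p.1 := lt_of_le_of_ne (qNorm_nonneg _ _) (Ne.symm hn)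
    have h1 : (qNorm q p.1)⁻¹ • p ∈ Sph Ω q := by
      refine ⟨(W Ω).smul_mem _ hp, ?_⟩
      rw [Prod.smul_fst, qNorm_smul (by linarith), abs_of_pos (by positivity)]
      field_simp
    have h2 := D.lam_le h1
    rw [Prod.smul_snd, norm_smul, mul_pow, Real.norm_of_nonneg (by positivity)] at h2
    rw [inv_pow, inv_mul_eq_div, le_div_iff₀ (by positivity)] at h2
    exact h2

variable [Nontrivial E]

/-- the constant in `qNorm ≤ K * energy` -/
lemma exists_K : ∃ K : ℝ, 0 < K ∧ ∀ p ∈ W Ω, qNorm q p.1 ≤ K * ‖p.2‖ := by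
  refine ⟨kq Ω q * (√2 * D.rad) + 1, ?_, ?_⟩
  · have : 0 ≤ kq Ω q := Real.rpow_nonneg ENNReal.toReal_nonneg _
    have := D.rad_nonneg
    positivity
  · intro p hp
    have h1 := qNorm_le D.meas D.fin hq1.le hq2.le (D.supp hp)
    have h2 := poincare D.rad_nonneg D.sub_ball hp
    have h3 : ‖p.1‖ ≤ √2 * D.rad * ‖p.2‖ := by
      apply le_of_sq_le_sq _ (by have := D.rad_nonneg; positivity)
      rw [mul_pow, mul_pow, Real.sq_sqrt (by norm_num)]
      exact h2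
    have h4 : 0 ≤ kq Ω q := Real.rpow_nonneg ENNReal.toReal_nonneg _
    calc qNorm q p.1 ≤ kq Ω q * ‖p.1‖ := h1
      _ ≤ kq Ω q * (√2 * D.rad * ‖p.2‖) := mul_le_mul_of_nonneg_left h3 h4
      _ ≤ (kq Ω q * (√2 * D.rad) + 1) * ‖p.2‖ := by nlinarith [norm_nonneg p.2]

lemma lam_pos : 0 < lam Ω q := by
  obtain ⟨K, hK, hK2⟩ := D.exists_K hq1 hq2
  have h1 : (K ^ 2)⁻¹ ≤ lam Ω q := by
    apply le_csInf
    · exact (D.exists_sph hq1 hq2).image _
    · rintro _ ⟨p, ⟨hp, hp1⟩, rfl⟩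
      have := hK2 p hp
      rw [hp1] at this
      simp only
      rw [inv_le_iff_one_le_mul₀ (by positivity), ← mul_pow]
      have h2 : 1 ≤ ‖p.2‖ * K := by linarith
      exact one_le_pow₀ h2
  have : 0 < (K ^ 2)⁻¹ := by positivity
  linarith

omit hq1 hq2 in
/-- compactness + lower semicontinuity -/
theorem compactness (p : ℕ → Lp ℝ 2 (volume : Measure E) × Lp E 2 (volume : Measure E))
    (hp : ∀ n, p n ∈ W Ω) (c : ℕ → ℝ) (C : ℝ) (hc : ∀ n, ‖(p n).2‖ ^ 2 ≤ c n)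
    (hC : Tendsto c atTop (𝓝 C)) :
    ∃ ns : ℕ → ℕ, StrictMono ns ∧ ∃ r ∈ W Ω, Tendsto (fun k => (p (ns k)).1) atTop (𝓝 r.1) ∧
      ‖r.2‖ ^ 2 ≤ C := by
  obtain ⟨M, hM⟩ := hC.bddAbove_range
  have hM' : ∀ n, ‖(p n).2‖ ^ 2 ≤ M := fun n => (hc n).trans (hM ⟨n, rfl⟩)
  obtain ⟨ns, hns, f, hf⟩ := rellich D.rad_nonneg D.sub_ball p hp M hM'
  obtain ⟨g, hg1, hg2⟩ := lsc_closure (W Ω) (isClosed_W Ω) (fun k => p (ns k))
    (fun k => hp (ns k)) f hf (fun k => c (ns k)) C (fun k => hc (ns k))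
    (hC.comp hns.tendsto_atTop)
  exact ⟨ns, hns, (f, g), hg1, hf, hg2⟩

/-- compactness of minimizing sequences -/
theorem compactness_sph (p : ℕ → Lp ℝ 2 (volume : Measure E) × Lp E 2 (volume : Measure E))
    (hp : ∀ n, p n ∈ Sph Ω q) (c : ℕ → ℝ) (hc : ∀ n, ‖(p n).2‖ ^ 2 ≤ c n)
    (hC : Tendsto c atTop (𝓝 (lam Ω q))) :
    ∃ ns : ℕ → ℕ, StrictMono ns ∧ ∃ r ∈ Sph Ω q, Tendsto (fun k => (p (ns k)).1) atTop (𝓝 r.1) ∧
      ‖r.2‖ ^ 2 = lam Ω q := by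
  obtain ⟨ns, hns, r, hr, hlim, hle⟩ := D.compactness p (fun n => (hp n).1) c _ hc hC
  have h1 := tendsto_qNorm D.meas D.fin hq1.le hq2.le (fun k => D.supp (hp (ns k)).1)
    (D.supp hr) hlim
  have h2 : qNorm q r.1 = 1 := by
    have h3 : Tendsto (fun k => qNorm q (p (ns k)).1) atTop (𝓝 1) := by
      simp only [(hp _).2]
      exact tendsto_const_nhds
    exact tendsto_nhds_unique h1 h3
  exact ⟨ns, hns, r, ⟨hr, h2⟩, hlim, le_antisymm hle (D.lam_le ⟨hr, h2⟩)⟩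

theorem exists_min : ∃ p ∈ Sph Ω q, ‖p.2‖ ^ 2 = lam Ω q := by
  have hex : ∀ n : ℕ, ∃ p ∈ Sph Ω q, ‖p.2‖ ^ 2 < lam Ω q + 1 / ((n : ℝ) + 1) := by
    intro n
    have h1 : lam Ω q < lam Ω q + 1 / ((n : ℝ) + 1) := by
      have : (0:ℝ) < 1 / ((n : ℝ) + 1) := by positivity
      linarith
    obtain ⟨_, ⟨p, hp, rfl⟩, hlt⟩ := exists_lt_of_csInf_lt
      ((D.exists_sph hq1 hq2).image (fun p => ‖p.2‖ ^ 2)) h1
    exact ⟨p, hp, hlt⟩
  choose p hp hlt using hex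
  have h2 : Tendsto (fun n : ℕ => lam Ω q + 1 / ((n : ℝ) + 1)) atTop (𝓝 (lam Ω q)) := by
    have := (tendsto_one_div_add_atTop_nhds_zero_nat (𝕜 := ℝ)).const_add (lam Ω q)
    simpa using this
  obtain ⟨ns, hns, r, hr, -, hr2⟩ := D.compactness_sph hq1 hq2 p hp _ (fun n => (hlt n).le) h2
  exact ⟨r, hr, hr2⟩

omit [Nontrivial E] in
lemma integrable_q {p} (hp : p ∈ W Ω) : Integrable (fun x => |p.1 x| ^ q) (volume : Measure E) :=
  integrable_rpow' D.meas D.fin (by linarith) hq2.le (Lp.memLp p.1) (D.supp hp)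

/-- minimality for the free functional -/
lemma J_min {w} (hw : w ∈ W Ω) :
    lam Ω q * (1 / 2 - 1 / q) ≤ 1 / 2 * ‖w.2‖ ^ 2 - lam Ω q / q * ∫ x, |w.1 x| ^ q := by
  have hl := D.lam_pos hq1 hq2
  have hq0 : 0 < q := by linarith
  rw [← qNorm_rpow hq0]
  set N := qNorm q w.1 with hN
  have hN0 : 0 ≤ N := qNorm_nonneg _ _
  have h1 := D.lam_mul_le hq1 hq2 hw
  rw [← hN] at h1
  have h2 : N ^ q ≤ 1 + q / 2 * (N ^ 2 - 1) := by
    have := bern (x := N ^ 2) (θ := q / 2) (sq_nonneg N) (by linarith) (by linarith)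
    have e : (N ^ 2) ^ (q / 2) = N ^ q := by
      rw [← Real.rpow_natCast, ← Real.rpow_mul hN0]
      congr 1
      push_cast
      ring
    rwa [e] at this
  have h3 : lam Ω q / q * N ^ q ≤ lam Ω q / q * (1 + q / 2 * (N ^ 2 - 1)) :=
    mul_le_mul_of_nonneg_left h2 (by positivity)
  have h4 : lam Ω q / q * (1 + q / 2 * (N ^ 2 - 1)) =
      lam Ω q / q + lam Ω q / 2 * (N ^ 2 - 1) := by field_simp
  rw [h4] at h3
  have h5 : lam Ω q * (1 / 2 - 1 / q) = lam Ω q / 2 - lam Ω q / q := by ring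
  rw [h5]
  linarith

/-- For a minimizer the free functional attains its minimum. -/
lemma J_le {p} (hp : p ∈ Sph Ω q) (hpm : ‖p.2‖ ^ 2 = lam Ω q) {w} (hw : w ∈ W Ω) :
    1 / 2 * ‖p.2‖ ^ 2 - lam Ω q / q * ∫ x, |p.1 x| ^ q ≤
      1 / 2 * ‖w.2‖ ^ 2 - lam Ω q / q * ∫ x, |w.1 x| ^ q := by
  have h1 := D.J_min hq1 hq2 hw
  have h2 : ∫ x, |p.1 x| ^ q = 1 := by
    rw [← qNorm_rpow (by linarith), hp.2, Real.one_rpow]
  rw [h2, hpm]
  calc _ = lam Ω q * (1 / 2 - 1 / q) := by ring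
    _ ≤ _ := h1

omit [Nontrivial E] in
lemma memLp_nl {f : Lp ℝ 2 (volume : Measure E)} (hf : Supp Ω f) :
    MemLp (fun x => nl q (f x)) 2 (volume : Measure E) := by
  have h1 : MemLp (fun x => Ω.indicator (fun _ => (1:ℝ)) x + |f x|) 2 (volume : Measure E) := by
    apply MemLp.add _ (Lp.memLp f).abs
    exact memLp_indicator_const 2 D.meas 1 (Or.inr D.fin)
  apply h1.mono
  · have m := (Lp.memLp f).aestronglyMeasurable.aemeasurable
    exact ((m.abs.pow_const (q - 2)).mul m).aestronglyMeasurable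
  · filter_upwards [hf] with x hx
    rw [Real.norm_eq_abs, abs_nl hq1]
    refine le_trans ?_ (le_abs_self _)
    by_cases h : x ∈ Ω
    · rw [indicator_of_mem h]
      have := bern (x := |f x|) (θ := q - 1) (abs_nonneg _) (by linarith) (by linarith)
      nlinarith [abs_nonneg (f x)]
    · rw [hx h, abs_zero, Real.zero_rpow (by linarith), indicator_of_notMem h]
      simp

omit [Nontrivial E] in
lemma integrable_nl_mul {f : Lp ℝ 2 (volume : Measure E)} (hf : Supp Ω f)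
    (w : Lp ℝ 2 (volume : Measure E)) :
    Integrable (fun x => nl q (f x) * w x) (volume : Measure E) :=
  (D.memLp_nl hq1 hq2 hf).integrable_mul (Lp.memLp w)

/-- Euler-Lagrange equation. -/
theorem euler_lagrange {p} (hp : p ∈ Sph Ω q) (hpm : ‖p.2‖ ^ 2 = lam Ω q) {w} (hw : w ∈ W Ω) :
    ⟪p.2, w.2⟫ = lam Ω q * ∫ x, nl q (p.1 x) * w.1 x := by
  have hq0 : 0 < q := by linarith
  have hl := D.lam_pos hq1 hq2
  set I := ∫ x, nl q (p.1 x) * w.1 x with hI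
  have key : ∀ t : ℝ, 0 ≤ t * (⟪p.2, w.2⟫ - lam Ω q * I) + t ^ 2 * (1 / 2 * ‖w.2‖ ^ 2) := by
    intro t
    have hs : p + t • w ∈ W Ω := (W Ω).add_mem hp.1 ((W Ω).smul_mem _ hw)
    have h1 := D.J_le hq1 hq2 hp hpm hs
    have h2 : (∫ x, |p.1 x| ^ q) + q * (t * I) ≤ ∫ x, |(p + t • w).1 x| ^ q := by
      rw [hI, ← integral_const_mul, ← integral_const_mul, ← integral_add
        (D.integrable_q hq1 hq2 hp.1)
        (((D.integrable_nl_mul hq1 hq2 (D.supp hp.1) w.1).const_mul t).const_mul q)]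
      apply integral_mono_ae
      · exact (D.integrable_q hq1 hq2 hp.1).add
          (((D.integrable_nl_mul hq1 hq2 (D.supp hp.1) w.1).const_mul t).const_mul q)
      · exact D.integrable_q hq1 hq2 hs
      · filter_upwards [Lp.coeFn_add p.1 (t • w.1), Lp.coeFn_smul t w.1] with x h3 h4
        have h5 : (p + t • w).1 x = p.1 x + t * w.1 x := by
          rw [Prod.fst_add, Prod.smul_fst, h3, Pi.add_apply, h4, Pi.smul_apply, smul_eq_mul]
        show |p.1 x| ^ q + q * (t * (nl q (p.1 x) * w.1 x)) ≤ |(p + t • w).1 x| ^ q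
        rw [h5]
        have h6 := rpow_convex hq1 (p.1 x) (p.1 x + t * w.1 x)
        have h7 : q * (nl q (p.1 x) * (p.1 x + t * w.1 x - p.1 x)) =
            q * (t * (nl q (p.1 x) * w.1 x)) := by ring
        rw [h7] at h6
        exact h6
    have h3 : ‖(p + t • w).2‖ ^ 2 = ‖p.2‖ ^ 2 + 2 * (t * ⟪p.2, w.2⟫) + t ^ 2 * ‖w.2‖ ^ 2 := by
      rw [Prod.snd_add, Prod.smul_snd, norm_add_sq_real, inner_smul_right, norm_smul, mul_pow,
        Real.norm_eq_abs, sq_abs]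
    rw [h3] at h1
    have h4 : lam Ω q / q * ((∫ x, |p.1 x| ^ q) + q * (t * I)) ≤
        lam Ω q / q * ∫ x, |(p + t • w).1 x| ^ q := mul_le_mul_of_nonneg_left h2 (by positivity)
    have h5 : lam Ω q / q * ((∫ x, |p.1 x| ^ q) + q * (t * I)) =
        lam Ω q / q * (∫ x, |p.1 x| ^ q) + lam Ω q * (t * I) := by field_simp
    rw [h5] at h4
    nlinarith
  set A := ⟪p.2, w.2⟫ - lam Ω q * I with hA
  set B := 1 / 2 * ‖w.2‖ ^ 2 with hB
  have hB0 : 0 ≤ B := by positivity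
  have hA0 : A = 0 := by
    by_contra hne
    have h1 := key (-A / (2 * (B + 1)))
    have h2 : -A / (2 * (B + 1)) * A + (-A / (2 * (B + 1))) ^ 2 * B =
        A ^ 2 * (B - 2 * (B + 1)) / (4 * (B + 1) ^ 2) := by
      field_simp
      ring
    rw [h2] at h1
    have h3 : 0 < A ^ 2 := by positivity
    have h4 : A ^ 2 * (B - 2 * (B + 1)) / (4 * (B + 1) ^ 2) < 0 := by
      apply div_neg_of_neg_of_pos
      · nlinarith
      · positivity
    linarith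
  linarith

/-- the absolute value of a minimizer is a minimizer -/
theorem abs_min {p} (hp : p ∈ Sph Ω q) (hpm : ‖p.2‖ ^ 2 = lam Ω q) :
    ∃ r ∈ Sph Ω q, ‖r.2‖ ^ 2 = lam Ω q ∧ r.1 =ᵐ[volume] fun x => |p.1 x| := by
  obtain ⟨r, hr, hr1, hr2⟩ := abs_mem_W D.meas D.fin hp.1
  have h1 : qNorm q r.1 = 1 := by
    rw [qNorm_congr hr1, ← hp.2]
    unfold qNorm
    simp only [abs_abs]
  refine ⟨r, ⟨hr, h1⟩, le_antisymm (hr2.trans_eq hpm) (D.lam_le ⟨hr, h1⟩), hr1⟩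

end GoodData

end Pool.Agent.MP_0fb79d_an
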